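import Mathlib

/-!
# Circular-arc models cut at a position (CA31)

A circular-arc family on a finite vertex set `V`, cut at a position `0` of the circle, with distinct endpoints.
Going once around the circle from position `0` one meets `2|V|` *events*: every arc `v` opens at the event `o v` and closes
at the event `c v` (natural numbers, all distinct).  Position `t` is the place between event `t-1` and event `t`.
* `o v < c v`: the arc does not contain position `0` (an 'H-arc'); it contains the positions `o v < t ≤ c v`;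
* `c v < o v`: the arc contains position `0` (an 'A-arc'); it contains the positions `t ≤ c v` and `o v < t`.
All positions beyond the last event are the same place of the circle as position `0`.
-/

set_option autoImplicit false

namespace Pool.Agent.CA31

open Finset

/-- a circular-arc model cut at position `0` -/
structure Model (V : Type) where
  o : V → ℕ
  c : V → ℕ
  o_inj : Function.Injective o
  c_inj : Function.Injective c
  o_ne_c : ∀ u v, o u ≠ c v

variable {V : Type}

/-- `v` is an arc not containing position `0` -/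
def Model.IsH (M : Model V) (v : V) : Prop := M.o v < M.c v

/-- `v` is an arc containing position `0` -/
def Model.IsA (M : Model V) (v : V) : Prop := M.c v < M.o v

/-- arc `v` contains position `t` -/
def Model.Mem (M : Model V) (v : V) (t : ℕ) : Prop :=
  (M.o v < M.c v ∧ M.o v < t ∧ t ≤ M.c v) ∨ (M.c v < M.o v ∧ (t ≤ M.c v ∨ M.o v < t))

/-- `G` is the intersection graph of the arcs -/
def Model.IsModelOf (M : Model V) (G : SimpleGraph V) : Prop :=
  ∀ u v, G.Adj u v ↔ u ≠ v ∧ ∃ t, M.Mem u t ∧ M.Mem v t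

/-- no two arcs through `0` cover the circle, and no arc missing `0` covers it together with two arcs through `0` -/
structure Model.Normal (M : Model V) : Prop where
  two : ∀ a b, M.IsA a → M.IsA b → M.c a < M.o b
  three : ∀ h a b, M.IsH h → M.IsA a → M.IsA b → ¬ (M.o h < M.c a ∧ M.o b < M.c h)

section fin
variable [Fintype V]
open Classical in
/-- the arcs through position `0` -/
noncomputable def Model.A (M : Model V) : Finset V := univ.filter (fun v => M.IsA v)

open Classical in
/-- the arcs missing position `0` -/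
noncomputable def Model.HH (M : Model V) : Finset V := univ.filter (fun v => M.IsH v)

open Classical in
/-- the arcs through position `t` which miss position `0` -/
noncomputable def Model.H (M : Model V) (t : ℕ) : Finset V :=
  univ.filter (fun v => M.IsH v ∧ M.o v < t ∧ t ≤ M.c v)

open Classical in
/-- no position lies in more arcs than position `0` -/
def Model.MaxAtZero (M : Model V) : Prop :=
  ∀ t, (univ.filter (fun v => M.Mem v t)).card ≤ M.A.card
end fin

/-- `S` can be properly coloured with the colours `0, …, k-1` -/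
def ColOn (G : SimpleGraph V) (S : Finset V) (k : ℕ) : Prop :=
  ∃ φ : V → ℕ, (∀ v ∈ S, φ v < k) ∧ ∀ u ∈ S, ∀ v ∈ S, G.Adj u v → φ u ≠ φ v

/-- `G` has no proper `k`-colouring but every proper subset of the vertices has one -/
def Crit [Fintype V] (G : SimpleGraph V) (k : ℕ) : Prop :=
  ¬ ColOn G univ k ∧ ∀ S : Finset V, S ≠ univ → ColOn G S k

/-- `K_m` is a minor of `G` -/
def HasMinor (G : SimpleGraph V) (m : ℕ) : Prop :=
  ∃ f : Fin m → Set V, (∀ i, (G.induce (f i)).Connected) ∧
    (∀ i j, i ≠ j → Disjoint (f i) (f j)) ∧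
    (∀ i j, i ≠ j → ∃ u ∈ f i, ∃ v ∈ f j, G.Adj u v)

/-! ## Elementary facts -/

namespace Model
variable (M : Model V)

theorem isH_or_isA (v : V) : M.IsH v ∨ M.IsA v := by
  have := M.o_ne_c v v
  unfold IsH IsA; omega

theorem mem_of_isH {v : V} (h : M.IsH v) (t : ℕ) : M.Mem v t ↔ M.o v < t ∧ t ≤ M.c v := by
  unfold Mem IsH at *; omega

theorem mem_of_isA {v : V} (h : M.IsA v) (t : ℕ) : M.Mem v t ↔ t ≤ M.c v ∨ M.o v < t := by
  unfold Mem IsA at *; omega

theorem mem_zero (v : V) : M.Mem v 0 ↔ M.IsA v := by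
  unfold Mem IsA; omega

theorem not_isA {v : V} : ¬ M.IsA v ↔ M.IsH v := by
  have := M.o_ne_c v v
  unfold IsH IsA; omega

theorem not_isH {v : V} : ¬ M.IsH v ↔ M.IsA v := by
  have := M.o_ne_c v v
  unfold IsH IsA; omega

variable {M} {G : SimpleGraph V}

/-- two H-arcs meet iff each opens before the other closes -/
theorem adj_HH (hG : M.IsModelOf G) {u v : V} (hu : M.IsH u) (hv : M.IsH v) :
    G.Adj u v ↔ u ≠ v ∧ M.o u < M.c v ∧ M.o v < M.c u := by
  rw [hG u v]
  constructor
  · rintro ⟨h1, t, h2, h3⟩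
    rw [M.mem_of_isH hu] at h2; rw [M.mem_of_isH hv] at h3
    exact ⟨h1, by omega, by omega⟩
  · rintro ⟨h1, h2, h3⟩
    refine ⟨h1, max (M.o u) (M.o v) + 1, ?_, ?_⟩
    · rw [M.mem_of_isH hu]; unfold IsH at hu; omega
    · rw [M.mem_of_isH hv]; unfold IsH at hv; omega

/-- two A-arcs always meet -/
theorem adj_AA (hG : M.IsModelOf G) {u v : V} (hu : M.IsA u) (hv : M.IsA v) :
    G.Adj u v ↔ u ≠ v := by
  rw [hG u v]
  constructor
  · rintro ⟨h1, -⟩; exact h1
  · intro h1
    exact ⟨h1, 0, (M.mem_zero u).2 hu, (M.mem_zero v).2 hv⟩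

/-- an A-arc and an H-arc meet iff the H-arc opens before the A-arc closes or the A-arc opens before the H-arc closes -/
theorem adj_AH (hG : M.IsModelOf G) {a h : V} (ha : M.IsA a) (hh : M.IsH h) :
    G.Adj a h ↔ M.o h < M.c a ∨ M.o a < M.c h := by
  rw [hG a h]
  constructor
  · rintro ⟨-, t, h2, h3⟩
    rw [M.mem_of_isA ha] at h2; rw [M.mem_of_isH hh] at h3
    omega
  · intro h1
    refine ⟨?_, ?_⟩
    · rintro rfl
      unfold IsA at ha; unfold IsH at hh; omega
    · rcases h1 with h1 | h1
      · refine ⟨M.o h + 1, ?_, ?_⟩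
        · rw [M.mem_of_isA ha]; left; omega
        · rw [M.mem_of_isH hh]; unfold IsH at hh; omega
      · refine ⟨M.c h, ?_, ?_⟩
        · rw [M.mem_of_isA ha]; right; omega
        · rw [M.mem_of_isH hh]; unfold IsH at hh; omega

/-- arcs through a common position are adjacent -/
theorem adj_of_mem (hG : M.IsModelOf G) {u v : V} {t : ℕ} (huv : u ≠ v) (hu : M.Mem u t) (hv : M.Mem v t) :
    G.Adj u v := (hG u v).2 ⟨huv, t, hu, hv⟩

section fin
variable [Fintype V]

theorem mem_A {v : V} : v ∈ M.A ↔ M.IsA v := by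
  classical
  simp [Model.A]

theorem mem_HH {v : V} : v ∈ M.HH ↔ M.IsH v := by
  classical
  simp [Model.HH]

theorem mem_H {v : V} {t : ℕ} : v ∈ M.H t ↔ M.IsH v ∧ M.o v < t ∧ t ≤ M.c v := by
  classical
  simp [Model.H]

theorem mem_of_mem_H {v : V} {t : ℕ} (h : v ∈ M.H t) : M.Mem v t := by
  rw [mem_H] at h
  rw [M.mem_of_isH h.1]; exact h.2

theorem card_A_add_card_HH [Fintype V] : M.A.card + M.HH.card = Fintype.card V := by
  classical
  have h : M.HH = M.Aᶜ := by
    ext v; simp [mem_HH, mem_A, M.not_isA]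
  rw [h, Finset.card_add_card_compl]

open Classical in
/-- the number of H-arcs through `t` is at most the number of A-arcs missing `t` -/
theorem card_H_le (hM : M.MaxAtZero) (t : ℕ) :
    (M.H t).card ≤ (M.A.filter (fun a => M.c a < t ∧ t ≤ M.o a)).card := by
  have h1 := hM t
  have h2 : (univ.filter (fun v => M.Mem v t)) = M.H t ∪ M.A.filter (fun a => t ≤ M.c a ∨ M.o a < t) := by
    ext v
    simp only [mem_filter, mem_univ, true_and, mem_union, mem_H, mem_A]
    rcases M.isH_or_isA v with h | h
    · rw [M.mem_of_isH h]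
      have : ¬ M.IsA v := by rw [M.not_isA]; exact h
      simp [h, this]
    · rw [M.mem_of_isA h]
      have : ¬ M.IsH v := by rw [M.not_isH]; exact h
      simp [h, this]
  have h3 : Disjoint (M.H t) (M.A.filter (fun a => t ≤ M.c a ∨ M.o a < t)) := by
    rw [Finset.disjoint_left]
    intro v hv hv'
    rw [mem_H] at hv; rw [mem_filter, mem_A] at hv'
    exact (M.not_isA.2 hv.1) hv'.1
  rw [h2, card_union_of_disjoint h3] at h1
  have h4 : (M.A.filter (fun a => t ≤ M.c a ∨ M.o a < t)).card + (M.A.filter (fun a => ¬ (t ≤ M.c a ∨ M.o a < t))).card = M.A.card :=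
    Finset.card_filter_add_card_filter_not _
  have h5 : M.A.filter (fun a => ¬ (t ≤ M.c a ∨ M.o a < t)) = M.A.filter (fun a => M.c a < t ∧ t ≤ M.o a) := by
    ext v; simp only [mem_filter]; constructor
    · rintro ⟨h, h'⟩; exact ⟨h, by omega⟩
    · rintro ⟨h, h'⟩; exact ⟨h, by omega⟩
  rw [h5] at h4
  omega

end fin
end Model

theorem colOn_univ_iff [Fintype V] (G : SimpleGraph V) (k : ℕ) : ColOn G univ k ↔ G.Colorable k := by
  constructor
  · rintro ⟨φ, h1, h2⟩
    exact ⟨SimpleGraph.Coloring.mk (fun v => (⟨φ v, h1 v (mem_univ v)⟩ : Fin k)) (by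
      intro u v huv he
      exact h2 u (mem_univ u) v (mem_univ v) huv (by simpa using congrArg Fin.val he))⟩
  · rintro ⟨C⟩
    exact ⟨fun v => (C v : ℕ), fun v _ => (C v).2, fun u _ v _ huv he => C.valid huv (Fin.ext he)⟩

theorem ColOn.mono {G : SimpleGraph V} {S : Finset V} {k l : ℕ} (h : ColOn G S k) (hkl : k ≤ l) : ColOn G S l := by
  obtain ⟨φ, h1, h2⟩ := h
  exact ⟨φ, fun v hv => (h1 v hv).trans_le hkl, h2⟩

theorem ColOn.subset {G : SimpleGraph V} {S S' : Finset V} {k : ℕ} (h : ColOn G S k) (hS : S' ⊆ S) : ColOn G S' k := by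
  obtain ⟨φ, h1, h2⟩ := h
  exact ⟨φ, fun v hv => h1 v (hS hv), fun u hu v hv => h2 u (hS hu) v (hS hv)⟩

end Pool.Agent.CA31
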