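import Mathlib

/-!
# CA31-RNK: ranking finitely many events

`key e := (val e, fl e, index of e)` in `ℝ ×ₗ (ℕ ×ₗ Fin n)` (`toLex`), injective; `r e := #{e' | key e' < key e}`.
`r e < r e'` iff `key e < key e'`; `r e < Fintype.card E`; `r` is injective, hence (by cardinality) onto `{0, …, card E - 1}`.
-/

set_option autoImplicit false

namespace Pool.Agent.CA31

open Finset
open scoped Classical

/-- The rank for an injective key into a linear order. -/
theorem exists_rank_of_key {E : Type} [Fintype E] {K : Type} [LinearOrder K] (key : E → K)
    (hk : Function.Injective key) :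
    ∃ r : E → ℕ, Function.Injective r ∧ (∀ e e', r e < r e' → key e < key e') ∧
      (∀ e, r e < Fintype.card E) := by
  refine ⟨fun e => (Finset.univ.filter fun e' => key e' < key e).card, ?_, ?_, ?_⟩
  · intro e e' h
    by_contra hne
    have hlt : ∀ a b : E, key a < key b →
        (Finset.univ.filter fun x => key x < key a).card
          < (Finset.univ.filter fun x => key x < key b).card := by
      intro a b hab
      apply Finset.card_lt_card
      refine ⟨?_, ?_⟩
      · intro x hx
        simp only [Finset.mem_filter, Finset.mem_univ, true_and] at hx ⊢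
        exact hx.trans hab
      · intro hsub
        have : a ∈ Finset.univ.filter fun x => key x < key a := hsub (by simp [hab])
        simp at this
    rcases lt_trichotomy (key e) (key e') with h1 | h1 | h1
    · exact absurd h (hlt _ _ h1).ne
    · exact hne (hk h1)
    · exact absurd h (hlt _ _ h1).ne'
  · intro e e' h
    by_contra hle
    rw [not_lt] at hle
    have : (Finset.univ.filter fun x => key x < key e').card
        ≤ (Finset.univ.filter fun x => key x < key e).card := by
      apply Finset.card_le_card
      intro x hx
      simp only [Finset.mem_filter, Finset.mem_univ, true_and] at hx ⊢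
      exact hx.trans_le hle
    exact absurd h (not_lt.mpr this)
  · intro e
    have : (Finset.univ.filter fun x => key x < key e).card < (Finset.univ : Finset E).card := by
      apply Finset.card_lt_card
      refine ⟨Finset.subset_univ _, ?_⟩
      intro hsub
      have : e ∈ Finset.univ.filter fun x => key x < key e := hsub (Finset.mem_univ e)
      simp at this
    simpa using this

theorem exists_rank {E : Type} [Fintype E] (val : E → ℝ) (fl : E → ℕ) :
    ∃ r : E → ℕ, Function.Injective r ∧
      (∀ e e', r e < r e' → val e < val e' ∨ (val e = val e' ∧ fl e ≤ fl e')) ∧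
      (∀ e, r e < Fintype.card E) ∧ (∀ n < Fintype.card E, ∃ e, r e = n) := by
  let key : E → ℝ ×ₗ (ℕ ×ₗ Fin (Fintype.card E)) :=
    fun e => toLex (val e, toLex (fl e, Fintype.equivFin E e))
  have hk : Function.Injective key := by
    intro a b h
    have h1 : (val a, toLex (fl a, Fintype.equivFin E a)) = (val b, toLex (fl b, Fintype.equivFin E b)) :=
      toLex.injective h
    have h2 := (Prod.mk.inj h1).2
    have h3 : (fl a, Fintype.equivFin E a) = (fl b, Fintype.equivFin E b) := toLex.injective h2
    exact (Fintype.equivFin E).injective (Prod.mk.inj h3).2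
  obtain ⟨r, hr1, hr2, hr3⟩ := exists_rank_of_key key hk
  refine ⟨r, hr1, ?_, hr3, ?_⟩
  · intro e e' h
    have h1 := hr2 e e' h
    rw [Prod.Lex.toLex_lt_toLex] at h1
    rcases h1 with h1 | ⟨h1, h2⟩
    · exact Or.inl h1
    · refine Or.inr ⟨h1, ?_⟩
      simp only at h2
      rw [Prod.Lex.toLex_lt_toLex] at h2
      rcases h2 with h2 | ⟨h2, _⟩
      · exact h2.le
      · exact h2.le
  · intro n hn
    let f : E → Fin (Fintype.card E) := fun e => ⟨r e, hr3 e⟩
    have hf : Function.Injective f := by
      intro a b h
      exact hr1 (Fin.mk.inj_iff.mp h)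
    have hf2 : Function.Bijective f :=
      (Fintype.bijective_iff_injective_and_card f).mpr ⟨hf, by simp⟩
    obtain ⟨e, he⟩ := hf2.2 ⟨n, hn⟩
    exact ⟨e, by simpa [f] using congrArg Fin.val he⟩

end Pool.Agent.CA31
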