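import Pool.Agent.CA31.Defs
import Pool.Agent.CA31.Rank

/-!
# CA31-RC: from arcs on the circle `ℝ/ℤ` to a cut model

`OnArc v x := ∃ m : ℤ, a v ≤ x + m ∧ x + m ≤ b v`.  Choose `p` with the largest number of arcs `OnArc v p` (the numbers are `≤ Fintype.card V`).
For every `v`, `a' v := a v + ⌊p - a v⌋`, `b' v := b v + ⌊p - a v⌋`: `a' v ≤ p < a' v + 1`, and `b' v < a' v + 1` (otherwise `v` covers the circle, contradicting `hN v v v`),
and `OnArc v x ↔ ∃ m : ℤ, a' v ≤ x + m ≤ b' v`.  `OnArc v p ↔ p ≤ b' v`.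
Values of the events: opening `ov v := a' v + 1`; closing `cv v := b' v` if `p ≤ b' v` ('A'), `cv v := b' v + 1` if `b' v < p` ('H').
All values are in `[p, p+1]`; A: `cv v < ov v`; H: `ov v ≤ cv v`, `p < ov v`, `cv v < p + 1`.
For `x ∈ [p, p+1]`: A: `OnArc v x` if `x ≤ cv v` or `ov v ≤ x`, and for `x ∈ [p,p+1)` conversely; H: `OnArc v x ↔ ov v ≤ x ≤ cv v`.
`E := V × Bool`, `(v, false)` the opening, `(v, true)` the closing, `val`, `fl := 0 / 1` (openings before closings at equal values), `r` from `exists_rank`;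
`M.o v := r (v, false)`, `M.c v := r (v, true)`.  A-arcs satisfy `M.c v < M.o v` (values), H-arcs `M.o v < M.c v` (value, or equal values and flag).
Position `t` ↦ real point `x_t`: `p` if `t = 0` or `t > card E`; otherwise the value of the event of rank `t - 1`.  `M.Mem v t → OnArc v x_t`.
Real point `x ∈ [p, p+1)` ↦ position `t := #{e | val e < x ∨ (val e = x ∧ fl e = 0)}`: these are exactly the events of rank `< t`; `OnArc v x → M.Mem v t`.
So `IsModelOf` and `MaxAtZero` (`IsA v ↔ OnArc v p`) follow.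
`Normal.two`: if `M.o b < M.c a` then `ov b ≤ cv a` and the arcs `a`, `b` cover the circle, contradicting `hN a b b`; `Normal.three` in the same way
(`ov h ≤ cv a`, `ov b ≤ cv h`; the arcs `a`, `h`, `b` cover `[p,p+1]`).
-/

set_option autoImplicit false

namespace Pool.Agent.CA31

open Finset
open scoped Classical

/-- `v` contains the real point `x` (modulo `1`) -/
def OnArc {V : Type} (a b : V → ℝ) (v : V) (x : ℝ) : Prop := ∃ m : ℤ, a v ≤ x + m ∧ x + m ≤ b v

theorem OnArc.shift {V : Type} {a b : V → ℝ} {v : V} {x : ℝ} (n : ℤ) (h : OnArc a b v (x + n)) :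
    OnArc a b v x := by
  obtain ⟨m, h1, h2⟩ := h
  refine ⟨n + m, ?_, ?_⟩ <;> push_cast <;> linarith

theorem onArc_norm {V : Type} (a b : V → ℝ) (k : V → ℤ) (v : V) (x : ℝ) :
    OnArc (fun v => a v + k v) (fun v => b v + k v) v x ↔ OnArc a b v x := by
  constructor
  · rintro ⟨m, h1, h2⟩
    refine ⟨m - k v, ?_, ?_⟩ <;> push_cast <;> linarith
  · rintro ⟨m, h1, h2⟩
    refine ⟨m + k v, ?_, ?_⟩ <;> push_cast <;> linarith

theorem real_cut_core {V : Type} [Fintype V] (a b : V → ℝ) (p : ℝ) (hab : ∀ v, a v ≤ b v)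
    (h1 : ∀ v, a v ≤ p) (h2 : ∀ v, p < a v + 1) (h3 : ∀ v, b v < a v + 1)
    (hmax : ∀ x, (univ.filter fun v => OnArc a b v x).card ≤ (univ.filter fun v => OnArc a b v p).card)
    (hN : ∀ u v w : V, ∃ x : ℝ, ∀ z, z = u ∨ z = v ∨ z = w → ¬ OnArc a b z x) :
    ∃ M : Model V, M.MaxAtZero ∧ M.Normal ∧
      ∀ G : SimpleGraph V, (∀ u v, G.Adj u v ↔ u ≠ v ∧ ∃ x : ℝ, OnArc a b u x ∧ OnArc a b v x) →
        M.IsModelOf G := by
  obtain ⟨val, hval⟩ : ∃ val : V × Bool → ℝ, val = fun e =>
    if e.2 then (if p ≤ b e.1 then b e.1 else b e.1 + 1) else a e.1 + 1 := ⟨_, rfl⟩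
  obtain ⟨fl, hfl⟩ : ∃ fl : V × Bool → ℕ, fl = fun e => if e.2 then 1 else 0 := ⟨_, rfl⟩
  have vo : ∀ v, val (v, false) = a v + 1 := fun v => by rw [hval]; simp
  have vcA : ∀ v, p ≤ b v → val (v, true) = b v := fun v h => by rw [hval]; simp [h]
  have vcH : ∀ v, b v < p → val (v, true) = b v + 1 := fun v h => by
    rw [hval]; simp [not_le.2 h]
  have fo : ∀ v, fl (v, false) = 0 := fun v => by rw [hfl]; simp
  have fc : ∀ v, fl (v, true) = 1 := fun v => by rw [hfl]; simp
  have vlo : ∀ e, p ≤ val e := by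
    rintro ⟨v, _ | _⟩
    · rw [vo]; exact (h2 v).le
    · rcases le_or_gt p (b v) with h | h
      · rw [vcA v h]; exact h
      · rw [vcH v h]; linarith [h2 v, hab v]
  have vhi : ∀ e, val e ≤ p + 1 := by
    rintro ⟨v, _ | _⟩
    · rw [vo]; linarith [h1 v]
    · rcases le_or_gt p (b v) with h | h
      · rw [vcA v h]; linarith [h1 v, h3 v]
      · rw [vcH v h]; linarith
  obtain ⟨r, rinj, rlt, rbd, rsurj⟩ := exists_rank val fl
  have rle : ∀ e e', r e ≤ r e' → val e ≤ val e' := by
    intro e e' h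
    rcases h.lt_or_eq with h | h
    · rcases rlt e e' h with h | h
      · exact h.le
      · exact h.1.le
    · rw [rinj h]
  have R1 : ∀ e e', val e < val e' → r e < r e' := by
    intro e e' h
    by_contra hh
    exact absurd (rle _ _ (not_lt.1 hh)) (not_le.2 h)
  have hA : ∀ v, p ≤ b v → r (v, true) < r (v, false) := by
    intro v h
    apply R1
    rw [vcA v h, vo]; exact h3 v
  have hH : ∀ v, b v < p → r (v, false) < r (v, true) := by
    intro v h
    by_contra hh
    have hne : r (v, true) ≠ r (v, false) := by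
      intro he
      have := rinj he
      simp at this
    have hl : r (v, true) < r (v, false) := lt_of_le_of_ne (not_lt.1 hh) hne
    rcases rlt _ _ hl with h4 | h4
    · rw [vcH v h, vo] at h4; linarith [hab v]
    · rw [fo, fc] at h4; omega
  let M : Model V :=
    { o := fun v => r (v, false)
      c := fun v => r (v, true)
      o_inj := fun u v h => by
        have := rinj h
        simpa using this
      c_inj := fun u v h => by
        have := rinj h
        simpa using this
      o_ne_c := fun u v h => by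
        have := rinj h
        simp at this }
  have hMo : ∀ v, M.o v = r (v, false) := fun v => rfl
  have hMc : ∀ v, M.c v = r (v, true) := fun v => rfl
  have isA_iff : ∀ v, M.IsA v ↔ p ≤ b v := by
    intro v
    unfold Model.IsA
    rw [hMo, hMc]
    constructor
    · intro h
      by_contra hh
      exact absurd (hH v (not_le.1 hh)) (by omega)
    · exact hA v
  have isH_iff : ∀ v, M.IsH v ↔ b v < p := by
    intro v
    rw [← M.not_isA, isA_iff, not_le]
  have C1 : ∀ t, ∃ x, ∀ v, M.Mem v t → OnArc a b v x := by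
    intro t
    by_cases ht : t = 0 ∨ Fintype.card (V × Bool) < t
    · refine ⟨p, fun v hv => ?_⟩
      have hvA : M.IsA v := by
        rcases ht with rfl | ht
        · exact (M.mem_zero v).1 hv
        · rcases M.isH_or_isA v with h | h
          · rw [M.mem_of_isH h, hMc] at hv
            have := rbd (v, true)
            omega
          · exact h
      exact ⟨0, by simpa using h1 v, by simpa using (isA_iff v).1 hvA⟩
    · push Not at ht
      obtain ⟨e, he⟩ := rsurj (t - 1) (by omega)
      refine ⟨val e, fun v hv => ?_⟩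
      rcases M.isH_or_isA v with h | h
      · rw [M.mem_of_isH h, hMc, hMo] at hv
        rw [isH_iff] at h
        have e1 := rle (v, false) e (by omega)
        have e2 := rle e (v, true) (by omega)
        rw [vo] at e1
        rw [vcH v h] at e2
        exact ⟨-1, by push_cast; linarith, by push_cast; linarith⟩
      · rw [M.mem_of_isA h, hMc, hMo] at hv
        rw [isA_iff] at h
        rcases hv with hv | hv
        · have e2 := rle e (v, true) (by omega)
          rw [vcA v h] at e2
          exact ⟨0, by have := vlo e; have := h1 v; push_cast; linarith, by push_cast; linarith⟩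
        · have e1 := rle (v, false) e (by omega)
          rw [vo] at e1
          exact ⟨-1, by push_cast; linarith, by have := vhi e; push_cast; linarith⟩
  have redx : ∀ x : ℝ, ∃ n : ℤ, p ≤ x + n ∧ x + n < p + 1 := by
    intro x
    refine ⟨-⌊x - p⌋, ?_, ?_⟩
    · have := Int.floor_le (x - p); push_cast; linarith
    · have := Int.lt_floor_add_one (x - p); push_cast; linarith
  have mcases : ∀ v x, p ≤ x → x < p + 1 → OnArc a b v x →
      (a v ≤ x ∧ x ≤ b v) ∨ (a v + 1 ≤ x ∧ x ≤ b v + 1) := by
    rintro v x hx1 hx2 ⟨m, m1, m2⟩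
    have hm1 : m < 1 := by
      have : (m : ℝ) < 1 := by linarith [h3 v, h1 v]
      exact_mod_cast this
    have hm2 : -2 < m := by
      have : (-2 : ℝ) < m := by linarith [h2 v]
      exact_mod_cast this
    have : m = 0 ∨ m = -1 := by omega
    rcases this with rfl | rfl
    · left; push_cast at m1 m2; constructor <;> linarith
    · right; push_cast at m1 m2; constructor <;> linarith
  have C2 : ∀ x, ∃ t, ∀ v, OnArc a b v x → M.Mem v t := by
    intro x0
    obtain ⟨n, hx1, hx2⟩ := redx x0
    obtain ⟨x, hx⟩ : ∃ x : ℝ, x = x0 + n := ⟨_, rfl⟩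
    rw [← hx] at hx1 hx2
    have tr : ∀ v, OnArc a b v x0 → OnArc a b v x := by
      intro v hv
      have : x0 = x + (-n : ℤ) := by rw [hx]; push_cast; ring
      rw [this] at hv
      exact hv.shift
    obtain ⟨D, hD⟩ : ∃ D : Finset (V × Bool),
      D = univ.filter fun e => val e < x ∨ (val e = x ∧ fl e = 0) := ⟨_, rfl⟩
    have hDm : ∀ e, e ∈ D ↔ (val e < x ∨ (val e = x ∧ fl e = 0)) := by
      intro e; rw [hD]; simp
    obtain ⟨t, ht⟩ : ∃ t : ℕ, t = D.sup fun e => r e + 1 := ⟨_, rfl⟩
    have key : ∀ e, r e < t ↔ e ∈ D := by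
      intro e
      rw [ht, Finset.lt_sup_iff]
      constructor
      · rintro ⟨e', he', hlt⟩
        have hle : r e ≤ r e' := by omega
        rcases hle.lt_or_eq with hl | hl
        · rw [hDm] at he' ⊢
          rcases rlt _ _ hl with h4 | h4
          · left
            rcases he' with h5 | h5
            · exact h4.trans h5
            · rw [← h5.1]; exact h4
          · rcases he' with h5 | h5
            · left; rw [h4.1]; exact h5
            · right; exact ⟨h4.1.trans h5.1, by omega⟩
        · rw [rinj hl]; exact he'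
      · intro he
        exact ⟨e, he, by omega⟩
    have opn : ∀ v, a v + 1 ≤ x → M.o v < t := by
      intro v hv
      rw [hMo, key, hDm, vo, fo]
      rcases hv.lt_or_eq with h | h
      · exact Or.inl h
      · exact Or.inr ⟨h, rfl⟩
    have cls : ∀ v, x ≤ val (v, true) → t ≤ M.c v := by
      intro v hv
      rw [hMc]
      by_contra hh
      have := (key (v, true)).1 (not_le.1 hh)
      rw [hDm, fc] at this
      rcases this with h | h
      · linarith
      · omega
    refine ⟨t, fun v hv => ?_⟩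
    have hc := mcases v x hx1 hx2 (tr v hv)
    rcases M.isH_or_isA v with h | h
    · rw [M.mem_of_isH h]
      rw [isH_iff] at h
      rcases hc with ⟨c1, c2⟩ | ⟨c1, c2⟩
      · linarith
      · exact ⟨opn v c1, cls v (by rw [vcH v h]; exact c2)⟩
    · rw [M.mem_of_isA h]
      rw [isA_iff] at h
      rcases hc with ⟨c1, c2⟩ | ⟨c1, c2⟩
      · left; exact cls v (by rw [vcA v h]; exact c2)
      · right; exact opn v c1
  refine ⟨M, ?_, ⟨?_, ?_⟩, ?_⟩
  · intro t
    obtain ⟨x, hx⟩ := C1 t
    calc (univ.filter fun v => M.Mem v t).card ≤ (univ.filter fun v => OnArc a b v x).card := by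
          apply card_le_card
          intro v hv
          simp only [mem_filter, mem_univ, true_and] at hv ⊢
          exact hx v hv
      _ ≤ (univ.filter fun v => OnArc a b v p).card := hmax x
      _ ≤ M.A.card := by
          apply card_le_card
          intro v hv
          simp only [mem_filter, mem_univ, true_and] at hv
          rw [Model.mem_A, isA_iff]
          rcases mcases v p le_rfl (by linarith) hv with h | h
          · exact h.2
          · have := h2 v; linarith [h.1]
  · intro u v hu hv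
    by_contra hh
    rw [hMo, hMc] at hh
    have e1 := rle _ _ (not_lt.1 hh)
    rw [isA_iff] at hu hv
    rw [vo, vcA u hu] at e1
    obtain ⟨x0, hx0⟩ := hN u v v
    obtain ⟨n, hx1, hx2⟩ := redx x0
    rcases le_or_gt (x0 + n) (b u) with h | h
    · exact hx0 u (Or.inl rfl) ⟨n, by linarith [h1 u], h⟩
    · exact hx0 v (Or.inr (Or.inl rfl)) ⟨n - 1, by push_cast; linarith, by push_cast; linarith⟩
  · rintro w u v hw hu hv ⟨f1, f2⟩
    rw [hMo, hMc] at f1 f2
    have e1 := rle _ _ f1.le
    have e2 := rle _ _ f2.le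
    rw [isA_iff] at hu hv
    rw [isH_iff] at hw
    rw [vo, vcA u hu] at e1
    rw [vo, vcH w hw] at e2
    obtain ⟨x0, hx0⟩ := hN u w v
    obtain ⟨n, hx1, hx2⟩ := redx x0
    rcases le_or_gt (x0 + n) (b u) with h | h
    · exact hx0 u (Or.inl rfl) ⟨n, by linarith [h1 u], h⟩
    · rcases le_or_gt (x0 + n) (b w + 1) with h' | h'
      · exact hx0 w (Or.inr (Or.inl rfl)) ⟨n - 1, by push_cast; linarith, by push_cast; linarith⟩
      · exact hx0 v (Or.inr (Or.inr rfl)) ⟨n - 1, by push_cast; linarith, by push_cast; linarith⟩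
  · intro G hG u v
    rw [hG u v]
    constructor
    · rintro ⟨hne, x, hu, hv⟩
      obtain ⟨t, ht⟩ := C2 x
      exact ⟨hne, t, ht u hu, ht v hv⟩
    · rintro ⟨hne, t, hu, hv⟩
      obtain ⟨x, hx⟩ := C1 t
      exact ⟨hne, x, hx u hu, hx v hv⟩

theorem real_cut {V : Type} [Fintype V] (a b : V → ℝ) (hab : ∀ v, a v ≤ b v)
    (hN : ∀ u v w : V, ∃ x : ℝ, ∀ z, z = u ∨ z = v ∨ z = w → ¬ ∃ m : ℤ, a z ≤ x + m ∧ x + m ≤ b z) :
    ∃ M : Model V, M.MaxAtZero ∧ M.Normal ∧
      ∀ G : SimpleGraph V, (∀ u v, G.Adj u v ↔ u ≠ v ∧ ∃ x : ℝ, (∃ m : ℤ, a u ≤ x + m ∧ x + m ≤ b u) ∧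
        (∃ m : ℤ, a v ≤ x + m ∧ x + m ≤ b v)) → M.IsModelOf G := by
  have h3 : ∀ v, b v < a v + 1 := by
    intro v
    by_contra hh
    obtain ⟨x, hx⟩ := hN v v v
    refine hx v (Or.inl rfl) ⟨⌈a v - x⌉, ?_, ?_⟩
    · have := Int.le_ceil (a v - x); linarith
    · have := Int.ceil_lt_add_one (a v - x); linarith
  obtain ⟨p, hp⟩ : ∃ p, ∀ x, (univ.filter fun v => OnArc a b v x).card ≤
      (univ.filter fun v => OnArc a b v p).card := by
    have hbd : BddAbove (Set.range fun x => (univ.filter fun v => OnArc a b v x).card) := by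
      refine ⟨Fintype.card V, ?_⟩
      rintro _ ⟨x, rfl⟩
      exact card_le_univ _
    obtain ⟨p, hp⟩ := Nat.sSup_mem (Set.range_nonempty _) hbd
    refine ⟨p, fun x => ?_⟩
    simp only at hp
    rw [hp]
    exact le_csSup hbd ⟨x, rfl⟩
  obtain ⟨k, hk⟩ : ∃ k : V → ℤ, k = fun v => ⌊p - a v⌋ := ⟨_, rfl⟩
  have hk1 : ∀ v, (k v : ℝ) ≤ p - a v := fun v => by rw [hk]; exact Int.floor_le _
  have hk2 : ∀ v, p - a v < (k v : ℝ) + 1 := fun v => by rw [hk]; exact Int.lt_floor_add_one _
  obtain ⟨M, hM1, hM2, hM3⟩ := real_cut_core (fun v => a v + k v) (fun v => b v + k v) p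
    (fun v => by linarith [hab v])
    (fun v => by linarith [hk1 v])
    (fun v => by linarith [hk2 v])
    (fun v => by linarith [h3 v])
    (by simpa only [onArc_norm] using hp)
    (by
      intro u v w
      obtain ⟨x, hx⟩ := hN u v w
      refine ⟨x, fun z hz => ?_⟩
      rw [onArc_norm]
      exact hx z hz)
  refine ⟨M, hM1, hM2, fun G hG => hM3 G fun u v => ?_⟩
  rw [hG u v]
  simp only [onArc_norm]
  rfl

end Pool.Agent.CA31
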