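import Pool.Agent.CA31.Cut
import Pool.Agent.CA31.RealCut

/-!
# CA31: Hadwiger's conjecture for circular-arc graphs with a model in which no three arcs cover the circle
-/

set_option autoImplicit false

namespace Pool.Agent.CA31

open Finset
open scoped Classical

/-- a minimal non-`k`-colourable induced subgraph is critical -/
theorem exists_crit {V : Type} [Fintype V] (G : SimpleGraph V) (k : ℕ) (h : ¬ G.Colorable k) :
    ∃ S : Finset V, Crit (G.induce (S : Set V)) k := by
  have h0 : ¬ ColOn G univ k := by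
    rintro ⟨φ, h1, h2⟩
    apply h
    exact ⟨SimpleGraph.Coloring.mk (fun v => (⟨φ v, h1 v (mem_univ v)⟩ : Fin k)) (by
      intro u v huv heq
      exact h2 u (mem_univ u) v (mem_univ v) huv (congrArg Fin.val heq))⟩
  have hmin : ∀ n : ℕ, ∀ S : Finset V, S.card = n → ¬ ColOn G S k →
      ∃ T : Finset V, ¬ ColOn G T k ∧ ∀ T' : Finset V, T' ⊂ T → ColOn G T' k := by
    intro n
    induction n using Nat.strong_induction_on with
    | _ n ih =>
      intro S hS hcol
      by_cases hex : ∃ T' : Finset V, T' ⊂ S ∧ ¬ ColOn G T' k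
      · obtain ⟨T', hT', hcol'⟩ := hex
        exact ih T'.card (hS ▸ card_lt_card hT') T' rfl hcol'
      · push Not at hex
        exact ⟨S, hcol, hex⟩
  obtain ⟨T, hT, hTm⟩ := hmin _ univ rfl h0
  refine ⟨T, ?_, ?_⟩
  · rintro ⟨φ, h1, h2⟩
    apply hT
    refine ⟨fun v => if hv : v ∈ T then φ ⟨v, hv⟩ else 0, ?_, ?_⟩
    · intro v hv
      simp only [dif_pos hv]
      exact h1 _ (mem_univ _)
    · intro u hu v hv huv
      simp only [dif_pos hu, dif_pos hv]
      exact h2 _ (mem_univ _) _ (mem_univ _) huv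
  · intro S hS
    have hsub : S.map (Function.Embedding.subtype _) ⊂ T := by
      rw [ssubset_iff_subset_ne]
      constructor
      · intro v hv
        rw [mem_map] at hv
        obtain ⟨w, -, rfl⟩ := hv
        exact w.2
      · intro heq
        apply hS
        ext w
        simp only [mem_univ, iff_true]
        have hw : w.1 ∈ S.map (Function.Embedding.subtype _) := by
          rw [heq]; exact w.2
        rw [mem_map] at hw
        obtain ⟨w', hw', h3⟩ := hw
        have : w' = w := Subtype.ext h3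
        exact this ▸ hw'
    obtain ⟨φ, h1, h2⟩ := hTm _ hsub
    have hm : ∀ w ∈ S, w.1 ∈ S.map (Function.Embedding.subtype _) := by
      intro w hw
      rw [mem_map]
      exact ⟨w, hw, rfl⟩
    exact ⟨fun w => φ w.1, fun w hw => h1 _ (hm w hw),
      fun u hu v hv huv => h2 _ (hm u hu) _ (hm v hv) huv⟩

/-- a minor of an induced subgraph is a minor -/
theorem hasMinor_of_induce {V : Type} (G : SimpleGraph V) (S : Set V) {m : ℕ} (h : HasMinor (G.induce S) m) : HasMinor G m := by
  obtain ⟨f, h1, h2, h3⟩ := h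
  refine ⟨fun i => Subtype.val '' f i, ?_, ?_, ?_⟩
  · intro i
    let g : (G.induce S).induce (f i) →g G.induce (Subtype.val '' f i) :=
      { toFun := fun w => ⟨w.1.1, w.1, w.2, rfl⟩
        map_rel' := fun {u v} huv => huv }
    refine SimpleGraph.Connected.map g ?_ (h1 i)
    rintro ⟨_, w, hw, rfl⟩
    exact ⟨⟨w, hw⟩, rfl⟩
  · intro i j hij
    exact (Set.disjoint_image_iff Subtype.val_injective).2 (h2 i j hij)
  · intro i j hij
    obtain ⟨u, hu, v, hv, huv⟩ := h3 i j hij
    exact ⟨u.1, ⟨u, hu, rfl⟩, v.1, ⟨v, hv, rfl⟩, huv⟩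

theorem circular_arc {V : Type} [Fintype V] (G : SimpleGraph V) (a b : V → ℝ) (hab : ∀ v, a v ≤ b v)
    (hG : ∀ u v, G.Adj u v ↔ u ≠ v ∧ ∃ x : ℝ, (∃ m : ℤ, a u ≤ x + m ∧ x + m ≤ b u) ∧
        (∃ m : ℤ, a v ≤ x + m ∧ x + m ≤ b v))
    (hN : ∀ u v w : V, ∃ x : ℝ, ∀ z, z = u ∨ z = v ∨ z = w → ¬ ∃ m : ℤ, a z ≤ x + m ∧ x + m ≤ b z)
    (k : ℕ) (h : ¬ G.Colorable k) : HasMinor G (k + 1) := by
  obtain ⟨S, hS⟩ := exists_crit G k h
  obtain ⟨M, h1, h2, h3⟩ := real_cut (V := ((S : Set V) : Type)) (fun v => a v.1) (fun v => b v.1) (fun v => hab v.1) (by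
    intro u v w
    obtain ⟨x, hx⟩ := hN u.1 v.1 w.1
    refine ⟨x, fun z hz => hx z.1 ?_⟩
    rcases hz with rfl | rfl | rfl <;> simp)
  have h4 : M.IsModelOf (G.induce (S : Set V)) := h3 _ (by
    intro u v
    rw [SimpleGraph.comap_adj]
    exact (hG u.1 v.1).trans (and_congr (not_congr Subtype.ext_iff.symm) Iff.rfl))
  exact hasMinor_of_induce G S (cut_hadwiger h4 h1 h2 hS)

end Pool.Agent.CA31
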