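import Mathlib

/-!
# CA31-CL: half of the chains get two windows each

Induction on `J.card`.  If some `j ∈ J` has `b (lam j) ≤ b (mu j)`: keep `j` with the single window `lam j`, delete this window, `j` and the
chain `j'` with `mu j' = lam j` (if there is one, otherwise any other chain).  Otherwise `b (mu j) < b (lam j)` for all `j ∈ J`; take `j₁`
with `b (lam j₁)` maximal: no `mu j` equals `lam j₁`.  Keep `j₁` with the windows `lam j₁`, `mu j₁`, delete these windows, `j₁` and the chain
`j₂` with `lam j₂ = mu j₁` (if there is one, otherwise any other chain).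
-/

set_option autoImplicit false

namespace Pool.Agent.CA31

open Finset
open scoped Classical

/-- removing one given element and (at most) one element satisfying `P`, where `P` has at most one element in `J` -/
theorem cl_remove {ι : Type} (J : Finset ι) (j : ι) (hj : j ∈ J) (P : ι → Prop)
    (hP : ∀ a ∈ J, ∀ a' ∈ J, P a → P a' → a = a') :
    ∃ J' : Finset ι, J' ⊆ J ∧ j ∉ J' ∧ (∀ a ∈ J', ¬ P a) ∧ J.card ≤ J'.card + 2 := by
  by_cases h : ∃ a ∈ J, P a
  · obtain ⟨a, ha, hPa⟩ := h
    refine ⟨(J.erase j).erase a, ?_, ?_, ?_, ?_⟩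
    · exact (erase_subset _ _).trans (erase_subset _ _)
    · simp
    · intro x hx hPx
      rw [mem_erase, mem_erase] at hx
      exact hx.1 (hP x hx.2.2 a ha hPx hPa)
    · have h1 := card_erase_add_one hj
      have h2 := pred_card_le_card_erase (s := J.erase j) (a := a)
      omega
  · push Not at h
    refine ⟨J.erase j, erase_subset _ _, by simp, ?_, ?_⟩
    · intro x hx
      exact h x (mem_of_mem_erase hx)
    · have h1 := card_erase_add_one hj
      omega

theorem cl {ι V : Type} (J : Finset ι) (U : Finset V) (b : V → ℤ) (hb : Set.InjOn b U)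
    (R : ι → V → Prop) (hR : ∀ j ∈ J, ∀ u ∈ U, ∀ u' ∈ U, R j u → b u' ≤ b u → R j u')
    (lam : ι → V) (hl : ∀ j ∈ J, lam j ∈ U) (hli : Set.InjOn lam J)
    (mu : ι → V) (hm : ∀ j ∈ J, mu j ∈ U ∧ R j (mu j)) (hmi : Set.InjOn mu J) :
    ∃ (W : Finset ι) (rho : ι → V), W ⊆ J ∧ J.card ≤ 2 * W.card ∧
      (∀ j ∈ W, rho j ∈ U ∧ R j (rho j)) ∧
      ∀ i ∈ W, ∀ j ∈ W, i ≠ j → rho i ≠ rho j ∧ lam i ≠ rho j := by
  clear hb
  induction' hn : J.card using Nat.strong_induction_on with n ih generalizing J U
  subst hn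
  by_cases hJ : J = ∅
  · subst hJ
    exact ⟨∅, lam, by simp, by simp, by simp, by simp⟩
  by_cases hA : ∃ j ∈ J, b (lam j) ≤ b (mu j)
  · obtain ⟨j, hj, hbj⟩ := hA
    obtain ⟨J', hJ'J, hjJ', hPJ', hcard⟩ := cl_remove J j hj (fun a => mu a = lam j)
      (fun a ha a' ha' h1 h2 => hmi ha ha' (h1.trans h2.symm))
    have hlt : J'.card < J.card := card_lt_card
      ((ssubset_iff_of_subset hJ'J).2 ⟨j, hj, hjJ'⟩)
    obtain ⟨W', rho', hW'J', hc', hr', hd'⟩ := ih J'.card hlt J' (U.erase (lam j))
      (fun i hi u hu u' hu' => hR i (hJ'J hi) u (mem_of_mem_erase hu) u' (mem_of_mem_erase hu'))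
      (fun i hi => mem_erase.2 ⟨fun h => hjJ' ((hli (hJ'J hi) hj h) ▸ hi), hl i (hJ'J hi)⟩)
      (hli.mono (by exact_mod_cast hJ'J))
      (fun i hi => ⟨mem_erase.2 ⟨hPJ' i hi, (hm i (hJ'J hi)).1⟩, (hm i (hJ'J hi)).2⟩)
      (hmi.mono (by exact_mod_cast hJ'J)) rfl
    have hjW' : j ∉ W' := fun h => hjJ' (hW'J' h)
    have hRj : R j (lam j) := hR j hj (mu j) (hm j hj).1 (lam j) (hl j hj) (hm j hj).2 hbj
    refine ⟨insert j W', Function.update rho' j (lam j), ?_, ?_, ?_, ?_⟩
    · intro x hx
      rcases mem_insert.1 hx with rfl | hx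
      · exact hj
      · exact hJ'J (hW'J' hx)
    · rw [card_insert_of_notMem hjW']
      omega
    · intro x hx
      rcases mem_insert.1 hx with rfl | hx
      · rw [Function.update_self]
        exact ⟨hl _ hj, hRj⟩
      · have hxj : x ≠ j := fun h => hjW' (h ▸ hx)
        rw [Function.update_of_ne hxj]
        exact ⟨mem_of_mem_erase (hr' x hx).1, (hr' x hx).2⟩
    · intro x hx0 y hy0 hxy
      rcases mem_insert.1 hx0 with rfl | hx
      · rcases mem_insert.1 hy0 with rfl | hy
        · exact absurd rfl hxy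
        · have hyj : y ≠ x := fun h => hxy h.symm
          rw [Function.update_self, Function.update_of_ne hyj]
          have := (mem_erase.1 (hr' y hy).1).1
          exact ⟨fun h => this h.symm, fun h => this h.symm⟩
      · have hxj : x ≠ j := fun h => hjW' (h ▸ hx)
        rcases mem_insert.1 hy0 with rfl | hy
        · rw [Function.update_self, Function.update_of_ne hxj]
          refine ⟨(mem_erase.1 (hr' x hx).1).1, fun h => hxj (hli (hJ'J (hW'J' hx)) hj h)⟩
        · have hyj : y ≠ j := fun h => hjW' (h ▸ hy)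
          rw [Function.update_of_ne hyj, Function.update_of_ne hxj]
          exact hd' x hx y hy hxy
  · push Not at hA
    obtain ⟨j, hj, hmax⟩ := exists_max_image J (fun i => b (lam i)) (nonempty_iff_ne_empty.2 hJ)
    obtain ⟨J', hJ'J, hjJ', hPJ', hcard⟩ := cl_remove J j hj (fun a => lam a = mu j)
      (fun a ha a' ha' h1 h2 => hli ha ha' (h1.trans h2.symm))
    have hlt : J'.card < J.card := card_lt_card
      ((ssubset_iff_of_subset hJ'J).2 ⟨j, hj, hjJ'⟩)
    obtain ⟨W', rho', hW'J', hc', hr', hd'⟩ := ih J'.card hlt J' ((U.erase (lam j)).erase (mu j))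
      (fun i hi u hu u' hu' => hR i (hJ'J hi) u (mem_of_mem_erase (mem_of_mem_erase hu)) u'
        (mem_of_mem_erase (mem_of_mem_erase hu')))
      (fun i hi => mem_erase.2 ⟨hPJ' i hi, mem_erase.2
        ⟨fun h => hjJ' ((hli (hJ'J hi) hj h) ▸ hi), hl i (hJ'J hi)⟩⟩)
      (hli.mono (by exact_mod_cast hJ'J))
      (fun i hi => ⟨mem_erase.2 ⟨fun h => hjJ' ((hmi (hJ'J hi) hj h) ▸ hi), mem_erase.2
        ⟨fun h => by
          have h1 := hA i (hJ'J hi)
          have h2 := hmax i (hJ'J hi)
          rw [h] at h1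
          exact absurd h1 (not_lt.2 h2), (hm i (hJ'J hi)).1⟩⟩, (hm i (hJ'J hi)).2⟩)
      (hmi.mono (by exact_mod_cast hJ'J)) rfl
    have hjW' : j ∉ W' := fun h => hjJ' (hW'J' h)
    refine ⟨insert j W', Function.update rho' j (mu j), ?_, ?_, ?_, ?_⟩
    · intro x hx
      rcases mem_insert.1 hx with rfl | hx
      · exact hj
      · exact hJ'J (hW'J' hx)
    · rw [card_insert_of_notMem hjW']
      omega
    · intro x hx
      rcases mem_insert.1 hx with rfl | hx
      · rw [Function.update_self]
        exact hm _ hj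
      · have hxj : x ≠ j := fun h => hjW' (h ▸ hx)
        rw [Function.update_of_ne hxj]
        exact ⟨mem_of_mem_erase (mem_of_mem_erase (hr' x hx).1), (hr' x hx).2⟩
    · intro x hx0 y hy0 hxy
      rcases mem_insert.1 hx0 with rfl | hx
      · rcases mem_insert.1 hy0 with rfl | hy
        · exact absurd rfl hxy
        · have hyj : y ≠ x := fun h => hxy h.symm
          rw [Function.update_self, Function.update_of_ne hyj]
          have h1 := mem_erase.1 (hr' y hy).1
          have h2 := mem_erase.1 h1.2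
          exact ⟨fun h => h1.1 h.symm, fun h => h2.1 h.symm⟩
      · have hxj : x ≠ j := fun h => hjW' (h ▸ hx)
        rcases mem_insert.1 hy0 with rfl | hy
        · rw [Function.update_self, Function.update_of_ne hxj]
          exact ⟨(mem_erase.1 (hr' x hx).1).1, hPJ' x (hW'J' hx)⟩
        · have hyj : y ≠ j := fun h => hjW' (h ▸ hy)
          rw [Function.update_of_ne hyj, Function.update_of_ne hxj]
          exact hd' x hx y hy hxy

end Pool.Agent.CA31
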