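import Pool.Agent.CA31.Rev

/-!
# CA31-CHN: disjoint chains of H-arcs

`chains`: let `S := 𝓕 ∩ M.H u` (`q` elements).  Induction on `y` (`Nat.le_induction`), with the invariant:
there are `C : V → Finset V` and `cur : V → V` such that for all `s ∈ S`: `s ∈ C s`, `cur s ∈ C s`, `cur s ∈ M.H y`, `C s ⊆ 𝓕`, `G.induce (C s)` connected,
`∀ x ∈ C s, x ≠ cur s → M.c x < y`; and the sets `C s`, `s ∈ S`, are pairwise disjoint.
Start `y = u`: `C s = {s}`, `cur s = s`.
Step `y → y+1` (`y + 1 ≤` the end): if `M.c (cur s) ≠ y` for all `s ∈ S`, keep everything.  Otherwise there is exactly one `s₀ ∈ S` with `M.c (cur s₀) = y` (`c_inj`, disjointness).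
The elements of `𝓕 ∩ M.H (y+1)` used in some chain are currents `cur s` with `s ≠ s₀`: at most `q - 1`; so there is an unused `t ∈ 𝓕 ∩ M.H (y+1)`.
`M.o t ≤ y`, and `M.o t ≠ y` because event `y` is the closing of `cur s₀`; so `t` contains position `y` as well and is adjacent to `cur s₀` (`adj_HH`).
Update `C s₀ := insert t (C s₀)`, `cur s₀ := t`.  (Connectedness of `insert t C` when `t` is adjacent to an element of the connected set `C`:
e.g. `SimpleGraph.induce_union_connected`-style lemmas / `SimpleGraph.connected_iff_forall_exists_walk_subset`, or directly with `Reachable`.)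

`chains'`: mirror image, by `M.rev N hN` (`Model.exists_bound`; make sure `v ≤ N`, e.g. take a larger `N`: any larger bound works;
`rev_H`, `rev_isH`, `rev_isModelOf`).
-/

set_option autoImplicit false

namespace Pool.Agent.CA31

open Finset
open scoped Classical

variable {V : Type} [Fintype V] {M : Model V} {G : SimpleGraph V}

omit [Fintype V] in
private theorem chn_connected_insert {C : Finset V} (hC : (G.induce (C : Set V)).Connected)
    {t x : V} (hx : x ∈ C) (h : G.Adj x t) :
    (G.induce ((insert t C : Finset V) : Set V)).Connected := by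
  have h1 : ((insert t C : Finset V) : Set V) = (C : Set V) ∪ {t} := by
    ext z
    simp [or_comm]
  rw [h1]
  refine SimpleGraph.connected_induce_union (v := x) (w := t) hC.preconnected ?_ ?_ ?_ h
  · exact SimpleGraph.Preconnected.of_subsingleton
  · exact_mod_cast hx
  · simp

private theorem chn_aux (hG : M.IsModelOf G) (𝓕 : Finset V) (h𝓕 : ∀ h ∈ 𝓕, M.IsH h) {q u : ℕ}
    (hu : (𝓕 ∩ M.H u).card = q) (y : ℕ) (huy : u ≤ y) :
    (∀ x, u ≤ x → x ≤ y → q ≤ (𝓕 ∩ M.H x).card) →
    ∃ (C : V → Finset V) (cur : V → V),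
      (∀ s ∈ 𝓕 ∩ M.H u, s ∈ C s ∧ cur s ∈ C s ∧ cur s ∈ M.H y ∧ C s ⊆ 𝓕 ∧
        (G.induce (C s : Set V)).Connected ∧ ∀ x ∈ C s, x ≠ cur s → M.c x < y) ∧
      (∀ s ∈ 𝓕 ∩ M.H u, ∀ s' ∈ 𝓕 ∩ M.H u, s ≠ s' → Disjoint (C s) (C s')) := by
  induction y, huy using Nat.le_induction with
  | base =>
    intro _
    refine ⟨fun s => {s}, fun s => s, fun s hs => ?_, fun s _ s' _ hne => ?_⟩
    · rw [mem_inter] at hs
      refine ⟨by simp, by simp, hs.2, by simpa using hs.1, ?_, ?_⟩
      · rw [coe_singleton]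
        exact SimpleGraph.Connected.of_subsingleton
      · intro x hx hne
        rw [mem_singleton] at hx
        exact absurd hx hne
    · simpa using hne
  | succ y huy ih =>
    intro hl
    obtain ⟨C, cur, h1, h2⟩ := ih (fun x hx hx' => hl x hx (by omega))
    by_cases hcase : ∃ s₀ ∈ 𝓕 ∩ M.H u, M.c (cur s₀) = y
    · obtain ⟨s₀, hs₀, hc₀⟩ := hcase
      have huniq : ∀ s ∈ 𝓕 ∩ M.H u, M.c (cur s) = y → s = s₀ := by
        intro s hs hc
        by_contra hne
        have := h2 s hs s₀ hs₀ hne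
        have e : cur s = cur s₀ := M.c_inj (by rw [hc, hc₀])
        rw [Finset.disjoint_left] at this
        exact this (h1 s hs).2.1 (e ▸ (h1 s₀ hs₀).2.1)
      -- an unused arc
      have hex : ∃ t ∈ 𝓕 ∩ M.H (y + 1), ∀ s ∈ 𝓕 ∩ M.H u, t ∉ C s := by
        by_contra hcon
        push Not at hcon
        have hsub : 𝓕 ∩ M.H (y + 1) ⊆ ((𝓕 ∩ M.H u).erase s₀).image cur := by
          intro t ht
          obtain ⟨s, hs, hts⟩ := hcon t ht
          rw [mem_image]
          rw [mem_inter, Model.mem_H] at ht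
          have hcur : t = cur s := by
            by_contra hne
            have := (h1 s hs).2.2.2.2.2 t hts hne
            omega
          refine ⟨s, ?_, hcur.symm⟩
          rw [mem_erase]
          refine ⟨?_, hs⟩
          rintro rfl
          rw [hcur] at ht
          omega
        have hcard := (card_le_card hsub).trans card_image_le
        rw [card_erase_of_mem hs₀, hu] at hcard
        have h3 := hl (y + 1) (by omega) le_rfl
        have hpos : 0 < (𝓕 ∩ M.H u).card := card_pos.2 ⟨s₀, hs₀⟩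
        omega
      obtain ⟨t, ht, htun⟩ := hex
      rw [mem_inter, Model.mem_H] at ht
      have hcur₀ := (h1 s₀ hs₀).2.2.1
      rw [Model.mem_H] at hcur₀
      have hne_t : cur s₀ ≠ t := by
        rintro rfl
        exact htun s₀ hs₀ (h1 s₀ hs₀).2.1
      have hot : M.o t ≠ y := by
        intro h
        exact M.o_ne_c t (cur s₀) (by rw [h, hc₀])
      have hadj : G.Adj (cur s₀) t := by
        rw [Model.adj_HH hG hcur₀.1 ht.2.1]
        exact ⟨hne_t, by omega, by omega⟩
      refine ⟨Function.update C s₀ (insert t (C s₀)), Function.update cur s₀ t, ?_, ?_⟩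
      · intro s hs
        by_cases hss : s = s₀
        · subst hss
          rw [Function.update_self, Function.update_self]
          refine ⟨mem_insert_of_mem (h1 s hs).1, mem_insert_self _ _, ?_, ?_, ?_, ?_⟩
          · rw [Model.mem_H]
            exact ht.2
          · exact insert_subset ht.1 (h1 s hs).2.2.2.1
          · exact chn_connected_insert (h1 s hs).2.2.2.2.1 (h1 s hs).2.1 hadj
          · intro x hx hxt
            rw [mem_insert] at hx
            rcases hx with hx | hx
            · exact absurd hx hxt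
            · by_cases hxc : x = cur s
              · rw [hxc]; omega
              · have := (h1 s hs).2.2.2.2.2 x hx hxc
                omega
        · rw [Function.update_of_ne hss, Function.update_of_ne hss]
          refine ⟨(h1 s hs).1, (h1 s hs).2.1, ?_, (h1 s hs).2.2.2.1, (h1 s hs).2.2.2.2.1, ?_⟩
          · have h3 := (h1 s hs).2.2.1
            rw [Model.mem_H] at h3 ⊢
            have h4 : M.c (cur s) ≠ y := fun h => hss (huniq s hs h)
            exact ⟨h3.1, by omega, by omega⟩
          · intro x hx hxc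
            have := (h1 s hs).2.2.2.2.2 x hx hxc
            omega
      · intro s hs s' hs' hne
        by_cases hss : s = s₀
        · subst hss
          rw [Function.update_self, Function.update_of_ne (Ne.symm hne)]
          rw [disjoint_insert_left]
          exact ⟨htun s' hs', h2 s hs s' hs' hne⟩
        · by_cases hss' : s' = s₀
          · subst hss'
            rw [Function.update_self, Function.update_of_ne hss]
            rw [disjoint_insert_right]
            exact ⟨htun s hs, h2 s hs s' hs' hne⟩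
          · rw [Function.update_of_ne hss, Function.update_of_ne hss']
            exact h2 s hs s' hs' hne
    · push Not at hcase
      refine ⟨C, cur, fun s hs => ?_, h2⟩
      refine ⟨(h1 s hs).1, (h1 s hs).2.1, ?_, (h1 s hs).2.2.2.1, (h1 s hs).2.2.2.2.1, ?_⟩
      · have h3 := (h1 s hs).2.2.1
        rw [Model.mem_H] at h3 ⊢
        have h4 := hcase s hs
        exact ⟨h3.1, by omega, by omega⟩
      · intro x hx hxc
        have := (h1 s hs).2.2.2.2.2 x hx hxc
        omega

theorem chains (hG : M.IsModelOf G) (𝓕 : Finset V) (h𝓕 : ∀ h ∈ 𝓕, M.IsH h) {q u y : ℕ} (huy : u ≤ y)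
    (hu : (𝓕 ∩ M.H u).card = q) (hl : ∀ x, u ≤ x → x ≤ y → q ≤ (𝓕 ∩ M.H x).card) :
    ∃ C : V → Finset V,
      (∀ s ∈ 𝓕 ∩ M.H u, s ∈ C s ∧ C s ⊆ 𝓕 ∧ (G.induce (C s : Set V)).Connected ∧ ∃ t ∈ C s, t ∈ M.H y) ∧
      (∀ s ∈ 𝓕 ∩ M.H u, ∀ s' ∈ 𝓕 ∩ M.H u, s ≠ s' → Disjoint (C s) (C s')) := by
  obtain ⟨C, cur, h1, h2⟩ := chn_aux hG 𝓕 h𝓕 hu y huy hl
  exact ⟨C, fun s hs => ⟨(h1 s hs).1, (h1 s hs).2.2.2.1, (h1 s hs).2.2.2.2.1, cur s,
    (h1 s hs).2.1, (h1 s hs).2.2.1⟩, h2⟩

theorem chains' (hG : M.IsModelOf G) (𝓕 : Finset V) (h𝓕 : ∀ h ∈ 𝓕, M.IsH h) {q v y : ℕ} (hyv : y ≤ v)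
    (hv : (𝓕 ∩ M.H v).card = q) (hl : ∀ x, y ≤ x → x ≤ v → q ≤ (𝓕 ∩ M.H x).card) :
    ∃ C : V → Finset V,
      (∀ s ∈ 𝓕 ∩ M.H v, s ∈ C s ∧ C s ⊆ 𝓕 ∧ (G.induce (C s : Set V)).Connected ∧ ∃ t ∈ C s, t ∈ M.H y) ∧
      (∀ s ∈ 𝓕 ∩ M.H v, ∀ s' ∈ 𝓕 ∩ M.H v, s ≠ s' → Disjoint (C s) (C s')) := by
  obtain ⟨N₀, hN₀⟩ := M.exists_bound
  set N := N₀ + v with hNdef
  have hN : ∀ w, M.o w < N ∧ M.c w < N := fun w => by
    have := hN₀ w
    omega
  have hvN : v ≤ N := by omega
  have hyN : y ≤ N := by omega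
  have key := chains (M := M.rev N hN) (G := G) (Model.rev_isModelOf hG) 𝓕
    (fun h hh => Model.rev_isH.2 (h𝓕 h hh)) (q := q) (u := N - v) (y := N - y) (by omega)
    (by rw [Model.rev_H hvN]; exact hv)
    (fun x hx hx' => by
      rw [Model.rev_H' (by omega)]
      exact hl (N - x) (by omega) (by omega))
  rw [Model.rev_H hvN, Model.rev_H hyN] at key
  exact key

end Pool.Agent.CA31
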