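import Mathlib

/-!
# CA31-ENUM: enumeration of a finite set by an injective key, and extension of a partial injection to a permutation

`exists_enum`: `lam j` is the element of `A` with the `j`-th smallest key (`j = 0, 1, …`); transport
`Finset.orderEmbOfFin (A.image key) _` back to `A`.
The third statement: the elements `lam 0, …, lam j` have increasing keys; if `key (lam j) ≥ t` then the filtered set is contained in
`{lam 0, …, lam (j-1)}` (every element of `A` is some `lam i`), which has `j` elements.

`exists_perm`: `S` gives the injective partial map `f v ↦ g v` of `Fin T`; extend it to a permutation (`Equiv.extendSubtype`).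
-/

set_option autoImplicit false

namespace Pool.Agent.CA31

open Finset
open scoped Classical

theorem exists_enum {V : Type} [Nonempty V] (A : Finset V) (key : V → ℤ) (hkey : Set.InjOn key A) :
    ∃ lam : ℕ → V, (∀ j < A.card, lam j ∈ A) ∧
      (∀ i < A.card, ∀ j < A.card, i < j → key (lam i) < key (lam j)) ∧
      (∀ t : ℤ, ∀ j < (A.filter (fun a => key a < t)).card, key (lam j) < t) := by
  have hc : (A.image key).card = A.card := Finset.card_image_of_injOn hkey
  have hpre : ∀ j : Fin A.card, ∃ a, a ∈ A ∧ key a = (A.image key).orderEmbOfFin hc j := by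
    intro j
    have h := Finset.orderEmbOfFin_mem (A.image key) hc j
    rw [Finset.mem_image] at h
    obtain ⟨a, ha, hk⟩ := h
    exact ⟨a, ha, hk⟩
  choose g hg using hpre
  let lam : ℕ → V := fun j => if h : j < A.card then g ⟨j, h⟩ else Classical.arbitrary V
  have hlam : ∀ j (h : j < A.card), lam j = g ⟨j, h⟩ := fun j h => by simp [lam, h]
  refine ⟨lam, ?_, ?_, ?_⟩
  · intro j hj
    rw [hlam j hj]
    exact (hg _).1
  · intro i hi j hj hij
    rw [hlam i hi, hlam j hj, (hg _).2, (hg _).2]
    exact ((A.image key).orderEmbOfFin hc).strictMono (by simpa using hij)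
  · intro t j hj
    by_contra hcon
    push Not at hcon
    have hjA : j < A.card := lt_of_lt_of_le hj (Finset.card_filter_le _ _)
    have hsub : A.filter (fun a => key a < t) ⊆ (Finset.range j).image lam := by
      intro a ha
      rw [Finset.mem_filter] at ha
      have hr : key a ∈ Set.range ((A.image key).orderEmbOfFin hc) := by
        rw [Finset.range_orderEmbOfFin]
        exact Finset.mem_coe.2 (Finset.mem_image_of_mem _ ha.1)
      obtain ⟨i, hi⟩ := hr
      have hai : a = g i := hkey ha.1 (hg i).1 (by rw [(hg i).2, hi])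
      have hij : (i : ℕ) < j := by
        by_contra hle
        push Not at hle
        have h1 : (A.image key).orderEmbOfFin hc ⟨j, hjA⟩ ≤ (A.image key).orderEmbOfFin hc i :=
          ((A.image key).orderEmbOfFin hc).monotone (by simpa [Fin.le_def] using hle)
        rw [hlam j hjA, (hg _).2] at hcon
        rw [hi] at h1
        have := ha.2
        omega
      rw [Finset.mem_image]
      refine ⟨i, Finset.mem_range.2 hij, ?_⟩
      rw [hlam i i.2]
      exact hai.symm
    have h1 := Finset.card_le_card hsub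
    have h2 : ((Finset.range j).image lam).card ≤ j := by
      simpa using Finset.card_image_le (s := Finset.range j) (f := lam)
    omega

theorem exists_perm {V : Type} (T : ℕ) (S : Finset V) (f g : V → ℕ)
    (hf : ∀ v ∈ S, f v < T) (hg : ∀ v ∈ S, g v < T) (hfi : Set.InjOn f S) (hgi : Set.InjOn g S) :
    ∃ θ : ℕ → ℕ, (∀ j < T, θ j < T) ∧ (∀ i < T, ∀ j < T, θ i = θ j → i = j) ∧
      (∀ i < T, ∃ j < T, θ j = i) ∧ ∀ v ∈ S, θ (f v) = g v := by
  let p : Fin T → Prop := fun i => ∃ v, v ∈ S ∧ f v = i
  let q : Fin T → Prop := fun i => ∃ v, v ∈ S ∧ g v = i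
  let φ : {x // p x} → {x // q x} := fun x =>
    ⟨⟨g x.2.choose, hg _ x.2.choose_spec.1⟩, x.2.choose, x.2.choose_spec.1, rfl⟩
  have hφ : Function.Bijective φ := by
    constructor
    · intro x y hxy
      have h1 : g x.2.choose = g y.2.choose := by
        have := congrArg (fun z : {x // q x} => ((z : Fin T) : ℕ)) hxy
        simpa [φ] using this
      have h2 : x.2.choose = y.2.choose := hgi x.2.choose_spec.1 y.2.choose_spec.1 h1
      have h3 := x.2.choose_spec.2
      have h4 := y.2.choose_spec.2
      rw [h2] at h3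
      apply Subtype.ext
      apply Fin.ext
      exact h3.symm.trans h4
    · rintro ⟨y, v, hv, hvy⟩
      have hp : p ⟨f v, hf v hv⟩ := ⟨v, hv, rfl⟩
      refine ⟨⟨⟨f v, hf v hv⟩, hp⟩, ?_⟩
      have h1 : hp.choose = v := hfi hp.choose_spec.1 hv hp.choose_spec.2
      apply Subtype.ext
      apply Fin.ext
      show g hp.choose = (y : ℕ)
      rw [h1, hvy]
  let e : {x // p x} ≃ {x // q x} := Equiv.ofBijective φ hφ
  let E : Equiv.Perm (Fin T) := e.extendSubtype
  have hE : ∀ v (hv : v ∈ S), ((E ⟨f v, hf v hv⟩ : Fin T) : ℕ) = g v := by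
    intro v hv
    have hp : p ⟨f v, hf v hv⟩ := ⟨v, hv, rfl⟩
    have h1 : hp.choose = v := hfi hp.choose_spec.1 hv hp.choose_spec.2
    have h2 : E ⟨f v, hf v hv⟩ = e ⟨⟨f v, hf v hv⟩, hp⟩ := Equiv.extendSubtype_apply_of_mem e _ hp
    rw [h2]
    show g hp.choose = g v
    rw [h1]
  let θ : ℕ → ℕ := fun j => if h : j < T then (E ⟨j, h⟩ : ℕ) else 0
  have hθ : ∀ j (h : j < T), θ j = (E ⟨j, h⟩ : ℕ) := fun j h => by simp [θ, h]
  refine ⟨θ, ?_, ?_, ?_, ?_⟩
  · intro j hj
    rw [hθ j hj]
    exact (E ⟨j, hj⟩).2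
  · intro i hi j hj hij
    rw [hθ i hi, hθ j hj] at hij
    have := E.injective (Fin.ext hij)
    simpa using this
  · intro i hi
    refine ⟨(E.symm ⟨i, hi⟩ : ℕ), (E.symm ⟨i, hi⟩).2, ?_⟩
    rw [hθ _ (E.symm ⟨i, hi⟩).2]
    simp
  · intro v hv
    rw [hθ _ (hf v hv)]
    exact hE v hv

end Pool.Agent.CA31
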