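import Pool.Agent.CA31.Link
import Pool.Agent.CA31.Enum

/-!
# CA31-MIN: the minor from the reversed linking

Branch sets: `{a}` for `a ∈ M.A` (`w` of them), and for `i < q` the set `B i := C (h i) ∪ D (t (q-1-i))`, where `h` enumerates `M.H u` by increasing `M.o`
(`exists_enum (M.H u) (fun x => M.o x)`) and `t` enumerates `M.H v` by decreasing `M.c` (`exists_enum (M.H v) (fun x => - M.c x)`).
`B i` is connected: both parts are connected and contain arcs of `M.H y`, which are adjacent (`adj_of_mem`; they are distinct as the parts are disjoint); `B i`, `B j` are disjoint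
and adjacent for the same reason.  The `a`s are pairwise adjacent (`adj_AA`), not in any `B i` (whose elements are H-arcs).
`a` meets `B i`: if `u ≤ M.c a` then `a` is adjacent to `h i` (`adj_AH`: `M.o (h i) < u ≤ M.c a`).  If `M.o a < v` then `a` is adjacent to `t (q-1-i)` (`M.o a < v ≤ M.c`).
Otherwise `M.c a < u`, `v ≤ M.o a`, and `hdeg` gives `q ≤ R + L`, `R = #{x ∈ H u | o x < c a}`, `L = #{x ∈ H v | o a < c x}`.
If `i < R` then `M.o (h i) < M.c a` (third property of `exists_enum`); otherwise `q-1-i < L` and `M.o a < M.c (t (q-1-i))`.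
If `q = 0` there are no sets `B i`; `Nonempty V` (needed for `exists_enum`) follows from `0 < w + q` (if `w + q = 0` the statement is trivial).
Index the branch sets by `Fin (w + q)` with `Fin.addCases`/`Fin.append`, or by `if i < w`.
-/

set_option autoImplicit false

namespace Pool.Agent.CA31

open Finset
open scoped Classical

variable {V : Type} [Fintype V] {M : Model V} {G : SimpleGraph V}

omit [Fintype V] in
theorem conn_singleton (a : V) : (G.induce ({a} : Set V)).Connected := by
  have : Nonempty ({a} : Set V) := ⟨⟨a, rfl⟩⟩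
  refine SimpleGraph.Connected.mk ?_
  intro x y
  have : x = y := Subtype.ext (by
    have h1 := x.2; have h2 := y.2
    simp only [Set.mem_singleton_iff] at h1 h2
    rw [h1, h2])
  rw [this]

/-- the A-arcs form a clique -/
theorem minor_of_le (hG : M.IsModelOf G) {n : ℕ} (hn : n ≤ M.A.card) : HasMinor G n := by
  let e : Fin M.A.card ≃ M.A := M.A.equivFin.symm
  have he : ∀ i, M.IsA (e i : V) := fun i => Model.mem_A.1 (e i).2
  have hne : ∀ i j : Fin n, i ≠ j → ((e (Fin.castLE hn i) : V) ≠ (e (Fin.castLE hn j) : V)) := by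
    intro i j hij hh
    apply hij
    have h1 := e.injective (Subtype.ext hh)
    have h2 := congrArg Fin.val h1
    exact Fin.ext (by simpa using h2)
  refine ⟨fun i => {(e (Fin.castLE hn i) : V)}, fun i => conn_singleton _, ?_, ?_⟩
  · intro i j hij
    rw [Set.disjoint_singleton]
    exact hne i j hij
  · intro i j hij
    exact ⟨_, rfl, _, rfl, (Model.adj_AA hG (he _) (he _)).2 (hne i j hij)⟩

theorem minor_of_link (hG : M.IsModelOf G) {q u y v : ℕ}
    (hu : (M.H u).card = q) (hv : (M.H v).card = q)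
    (hdeg : ∀ a, M.IsA a → M.c a < u → v ≤ M.o a →
      q ≤ ((M.H u).filter (fun h => M.o h < M.c a)).card + ((M.H v).filter (fun h => M.o a < M.c h)).card)
    (C D : V → Finset V)
    (hC : ∀ s ∈ M.H u, s ∈ C s ∧ (G.induce (C s : Set V)).Connected ∧ (∃ t ∈ C s, t ∈ M.H y) ∧ ∀ x ∈ C s, M.IsH x)
    (hCC : ∀ s ∈ M.H u, ∀ s' ∈ M.H u, s ≠ s' → Disjoint (C s) (C s'))
    (hD : ∀ s ∈ M.H v, s ∈ D s ∧ (G.induce (D s : Set V)).Connected ∧ (∃ t ∈ D s, t ∈ M.H y) ∧ ∀ x ∈ D s, M.IsH x)
    (hDD : ∀ s ∈ M.H v, ∀ s' ∈ M.H v, s ≠ s' → Disjoint (D s) (D s'))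
    (hCD : ∀ s ∈ M.H u, ∀ s' ∈ M.H v, Disjoint (C s) (D s')) :
    HasMinor G (M.A.card + q) := by
  rcases Nat.eq_zero_or_pos q with hq0 | hqpos
  · subst hq0
    exact minor_of_le hG (le_of_eq (by simp))
  have hne : Nonempty V := by
    have : (M.H u).Nonempty := by
      rw [← Finset.card_pos, hu]; exact hqpos
    obtain ⟨x, -⟩ := this
    exact ⟨x⟩
  obtain ⟨h, hh1, hh2, hh3⟩ := exists_enum (M.H u) (fun x => (M.o x : ℤ))
    (by intro x _ x' _ hxx; exact M.o_inj (by simpa using hxx))
  obtain ⟨t, ht1, ht2, ht3⟩ := exists_enum (M.H v) (fun x => - (M.c x : ℤ))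
    (by intro x _ x' _ hxx; exact M.c_inj (by simpa using hxx))
  rw [hu] at hh1 hh2
  rw [hv] at ht1 ht2
  have hhinj : ∀ i < q, ∀ j < q, i ≠ j → h i ≠ h j := by
    intro i hi j hj hij he
    rcases lt_or_gt_of_ne hij with hl | hl
    · have := hh2 i hi j hj hl
      rw [he] at this; exact lt_irrefl _ this
    · have := hh2 j hj i hi hl
      rw [he] at this; exact lt_irrefl _ this
  have htinj : ∀ i < q, ∀ j < q, i ≠ j → t i ≠ t j := by
    intro i hi j hj hij he
    rcases lt_or_gt_of_ne hij with hl | hl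
    · have := ht2 i hi j hj hl
      rw [he] at this; exact lt_irrefl _ this
    · have := ht2 j hj i hi hl
      rw [he] at this; exact lt_irrefl _ this
  let e : Fin M.A.card ≃ M.A := M.A.equivFin.symm
  have he : ∀ i, M.IsA (e i : V) := fun i => Model.mem_A.1 (e i).2
  have hene : ∀ i j : Fin M.A.card, i ≠ j → ((e i : V) ≠ (e j : V)) := by
    intro i j hij hh
    exact hij (e.injective (Subtype.ext hh))
  let B : Fin q → Set V := fun i => (C (h i) : Set V) ∪ (D (t (q - 1 - i)) : Set V)
  have hr : ∀ i : Fin q, q - 1 - (i : ℕ) < q := fun i => by have := i.2; omega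
  have hBconn : ∀ i, (G.induce (B i)).Connected := by
    intro i
    obtain ⟨hC1, hC2, ⟨x, hx, hxy⟩, hC4⟩ := hC (h i) (hh1 i i.2)
    obtain ⟨hD1, hD2, ⟨x', hx', hxy'⟩, hD4⟩ := hD (t (q - 1 - i)) (ht1 _ (hr i))
    have hdis := hCD (h i) (hh1 i i.2) (t (q - 1 - i)) (ht1 _ (hr i))
    have hxx : x ≠ x' := by
      rintro rfl
      exact (Finset.disjoint_left.1 hdis) hx hx'
    exact SimpleGraph.connected_induce_union hC2.preconnected hD2.preconnected (by exact_mod_cast hx) (by exact_mod_cast hx')
      (Model.adj_of_mem hG hxx (Model.mem_of_mem_H hxy) (Model.mem_of_mem_H hxy'))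
  have hBH : ∀ i, ∀ x ∈ B i, M.IsH x := by
    intro i x hx
    rcases hx with hx | hx
    · exact (hC (h i) (hh1 i i.2)).2.2.2 x (by exact_mod_cast hx)
    · exact (hD (t (q - 1 - i)) (ht1 _ (hr i))).2.2.2 x (by exact_mod_cast hx)
  have hBB : ∀ i j, i ≠ j → Disjoint (B i) (B j) := by
    intro i j hij
    have hij' : (i : ℕ) ≠ j := fun hh => hij (Fin.ext hh)
    have h1 := hCC (h i) (hh1 i i.2) (h j) (hh1 j j.2) (hhinj i i.2 j j.2 hij')
    have h2 := hCD (h i) (hh1 i i.2) (t (q - 1 - j)) (ht1 _ (hr j))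
    have h3 := hCD (h j) (hh1 j j.2) (t (q - 1 - i)) (ht1 _ (hr i))
    have h4 := hDD (t (q - 1 - i)) (ht1 _ (hr i)) (t (q - 1 - j)) (ht1 _ (hr j))
      (htinj _ (hr i) _ (hr j) (by have := i.2; have := j.2; omega))
    rw [Finset.disjoint_left] at h1 h2 h3 h4
    rw [Set.disjoint_left]
    rintro x (hx | hx) (hx' | hx')
    · exact h1 (by exact_mod_cast hx) (by exact_mod_cast hx')
    · exact h2 (by exact_mod_cast hx) (by exact_mod_cast hx')
    · exact h3 (by exact_mod_cast hx') (by exact_mod_cast hx)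
    · exact h4 (by exact_mod_cast hx) (by exact_mod_cast hx')
  have hBBadj : ∀ i j, i ≠ j → ∃ x ∈ B i, ∃ x' ∈ B j, G.Adj x x' := by
    intro i j hij
    obtain ⟨hC1, hC2, ⟨x, hx, hxy⟩, hC4⟩ := hC (h i) (hh1 i i.2)
    obtain ⟨hC1', hC2', ⟨x', hx', hxy'⟩, hC4'⟩ := hC (h j) (hh1 j j.2)
    refine ⟨x, Or.inl (by exact_mod_cast hx), x', Or.inl (by exact_mod_cast hx'), ?_⟩
    have hxx : x ≠ x' := by
      rintro rfl
      have := hCC (h i) (hh1 i i.2) (h j) (hh1 j j.2) (hhinj i i.2 j j.2 (fun hh => hij (Fin.ext hh)))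
      exact (Finset.disjoint_left.1 this) hx hx'
    exact Model.adj_of_mem hG hxx (Model.mem_of_mem_H hxy) (Model.mem_of_mem_H hxy')
  have haB : ∀ a, M.IsA a → ∀ i, ∃ x ∈ B i, G.Adj a x := by
    intro a ha i
    have hhi := hh1 i i.2
    have hti := ht1 _ (hr i)
    have hhiB : h i ∈ B i := Or.inl (by exact_mod_cast (hC (h i) hhi).1)
    have htiB : t (q - 1 - i) ∈ B i := Or.inr (by exact_mod_cast (hD _ hti).1)
    rw [Model.mem_H] at hhi hti
    by_cases c1 : u ≤ M.c a
    · exact ⟨h i, hhiB, (Model.adj_AH hG ha hhi.1).2 (Or.inl (by omega))⟩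
    by_cases c2 : M.o a < v
    · exact ⟨t (q - 1 - i), htiB, (Model.adj_AH hG ha hti.1).2 (Or.inr (by omega))⟩
    have hd := hdeg a ha (by omega) (by omega)
    by_cases hR : (i : ℕ) < ((M.H u).filter (fun h => M.o h < M.c a)).card
    · refine ⟨h i, hhiB, (Model.adj_AH hG ha hhi.1).2 (Or.inl ?_)⟩
      have h3 := hh3 (M.c a : ℤ) i (by
        have : (M.H u).filter (fun x => (M.o x : ℤ) < (M.c a : ℤ)) = (M.H u).filter (fun h => M.o h < M.c a) := by
          apply Finset.filter_congr; intro x _; exact Nat.cast_lt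
        rw [this]; exact hR)
      exact_mod_cast h3
    · refine ⟨t (q - 1 - i), htiB, (Model.adj_AH hG ha hti.1).2 (Or.inr ?_)⟩
      have h3 := ht3 (- (M.o a : ℤ)) (q - 1 - i) (by
        have : (M.H v).filter (fun x => - (M.c x : ℤ) < - (M.o a : ℤ)) = (M.H v).filter (fun h => M.o a < M.c h) := by
          apply Finset.filter_congr; intro x _; rw [neg_lt_neg_iff]; exact Nat.cast_lt
        rw [this]
        have := i.2
        omega)
      have h4 : (M.o a : ℤ) < (M.c (t (q - 1 - i)) : ℤ) := by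
        have h5 : - (M.c (t (q - 1 - (i : ℕ))) : ℤ) < - (M.o a : ℤ) := h3
        omega
      exact_mod_cast h4
  refine ⟨Fin.append (fun i => {(e i : V)}) B, ?_, ?_, ?_⟩
  · intro i
    refine Fin.addCases (fun i => ?_) (fun i => ?_) i
    · rw [Fin.append_left]; exact conn_singleton _
    · rw [Fin.append_right]; exact hBconn i
  · intro i j
    refine Fin.addCases (fun i => ?_) (fun i => ?_) i
    · refine Fin.addCases (fun j => ?_) (fun j => ?_) j
      · intro hij
        rw [Fin.append_left, Fin.append_left, Set.disjoint_singleton]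
        exact hene i j (fun hh => hij (by rw [hh]))
      · intro _
        rw [Fin.append_left, Fin.append_right, Set.disjoint_singleton_left]
        intro hx
        exact (M.not_isA.2 (hBH j _ hx)) (he i)
    · refine Fin.addCases (fun j => ?_) (fun j => ?_) j
      · intro _
        rw [Fin.append_left, Fin.append_right, Set.disjoint_singleton_right]
        intro hx
        exact (M.not_isA.2 (hBH i _ hx)) (he j)
      · intro hij
        rw [Fin.append_right, Fin.append_right]
        exact hBB i j (fun hh => hij (by rw [hh]))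
  · intro i j
    refine Fin.addCases (fun i => ?_) (fun i => ?_) i
    · refine Fin.addCases (fun j => ?_) (fun j => ?_) j
      · intro hij
        rw [Fin.append_left, Fin.append_left]
        exact ⟨_, rfl, _, rfl, (Model.adj_AA hG (he _) (he _)).2 (hene i j (fun hh => hij (by rw [hh])))⟩
      · intro _
        rw [Fin.append_left, Fin.append_right]
        obtain ⟨x, hx, hx'⟩ := haB _ (he i) j
        exact ⟨_, rfl, x, hx, hx'⟩
    · refine Fin.addCases (fun j => ?_) (fun j => ?_) j
      · intro _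
        rw [Fin.append_left, Fin.append_right]
        obtain ⟨x, hx, hx'⟩ := haB _ (he j) i
        exact ⟨x, hx, _, rfl, hx'.symm⟩
      · intro hij
        rw [Fin.append_right, Fin.append_right]
        exact hBBadj i j (fun hh => hij (by rw [hh]))

end Pool.Agent.CA31
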