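import Mathlib
import Pool.Agent.CA72.MinCE

/-!
# Closure of a class of graphs under clique-sums, joins and substitution

The graphs built from circular-arc graphs and graphs with `chi = omega` by clique-sums, joins and
substitution satisfy Hadwiger's conjecture as soon as circular-arc graphs do.
-/

set_option autoImplicit false

namespace Pool.Agent.CA31C

open Finset Pool.Agent.CA31 Pool.Agent.CA72
open scoped Classical

/-- `G` with the vertex set `M` replaced by a clique with vertex set `Fin r`; a vertex outside `M`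
is joined to this clique if and only if it has a neighbour in `M` -/
def repl {V : Type} (G : SimpleGraph V) (M : Set V) (r : ℕ) : SimpleGraph ({v : V // v ∉ M} ⊕ Fin r) where
  Adj x y := (∃ u v, x = Sum.inl u ∧ y = Sum.inl v ∧ G.Adj u.1 v.1) ∨
    (∃ u i, x = Sum.inl u ∧ y = Sum.inr i ∧ ∃ m ∈ M, G.Adj u.1 m) ∨
    (∃ u i, y = Sum.inl u ∧ x = Sum.inr i ∧ ∃ m ∈ M, G.Adj u.1 m) ∨
    (∃ i j, x = Sum.inr i ∧ y = Sum.inr j ∧ i ≠ j)
  symm := ⟨by
    rintro x y (⟨u, v, h1, h2, h3⟩ | ⟨u, i, h1, h2, h3⟩ | ⟨u, i, h1, h2, h3⟩ | ⟨i, j, h1, h2, h3⟩)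
    · exact Or.inl ⟨v, u, h2, h1, h3.symm⟩
    · exact Or.inr (Or.inr (Or.inl ⟨u, i, h1, h2, h3⟩))
    · exact Or.inr (Or.inl ⟨u, i, h1, h2, h3⟩)
    · exact Or.inr (Or.inr (Or.inr ⟨j, i, h2, h1, h3.symm⟩))⟩
  loopless := ⟨by
    rintro x (⟨u, v, h1, h2, h3⟩ | ⟨u, i, h1, h2, h3⟩ | ⟨u, i, h1, h2, h3⟩ | ⟨i, j, h1, h2, h3⟩)
    · rw [h1] at h2
      exact h3.ne (Subtype.ext_iff.1 (Sum.inl.inj h2))
    · rw [h1] at h2; cases h2
    · rw [h1] at h2; cases h2
    · rw [h1] at h2; exact h3 (Sum.inr.inj h2)⟩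

/-- the smallest class of graphs which contains all circular-arc graphs and all graphs with
`chi = omega` and is closed under clique-sums, joins and substitution -/
inductive Cls : (V : Type) → SimpleGraph V → Prop
  /-- circular-arc graphs -/
  | arc (V : Type) (G : SimpleGraph V) (h : RA G) : Cls V G
  /-- graphs whose chromatic number is their clique number -/
  | chiOmega (V : Type) (G : SimpleGraph V) (h : ∀ k, G.CliqueFree (k + 1) → G.Colorable k) : Cls V G
  /-- `G` is the union of its induced subgraphs on `A` and `B`, and `A ∩ B` is a clique -/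
  | cliqueSum (V : Type) (G : SimpleGraph V) (A B : Set V) (hAB : A ∪ B = Set.univ)
      (hc : G.IsClique (A ∩ B)) (hn : ∀ a ∈ A \ B, ∀ b ∈ B \ A, ¬ G.Adj a b)
      (hA : Cls A (G.induce A)) (hB : Cls B (G.induce B)) : Cls V G
  /-- `G` is the join of its induced subgraphs on `A` and on the complement of `A` -/
  | join (V : Type) (G : SimpleGraph V) (A : Set V) (hj : ∀ a ∈ A, ∀ b ∈ Aᶜ, G.Adj a b)
      (hA : Cls A (G.induce A)) (hB : Cls (Aᶜ : Set V) (G.induce Aᶜ)) : Cls V G
  /-- `M` is a homogeneous set of `G` (each vertex outside `M` is adjacent to all vertices of `M` or to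
  none), the chromatic number of `G[M]` is `r`, and `G[M]` and `G` with `M` replaced by a clique on `r`
  vertices are in the class -/
  | subst (V : Type) (G : SimpleGraph V) (M : Set V) (r : ℕ)
      (hM : ∀ v ∉ M, (∀ m ∈ M, G.Adj v m) ∨ (∀ m ∈ M, ¬ G.Adj v m))
      (hr : (G.induce M).Colorable r) (hr' : ∀ s < r, ¬ (G.induce M).Colorable s)
      (hA : Cls M (G.induce M)) (hB : Cls ({v : V // v ∉ M} ⊕ Fin r) (repl G M r)) : Cls V G

section lemmas
variable {V : Type} {G : SimpleGraph V}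

theorem hasMinor_mono {m n : ℕ} (h : m ≤ n) (hn : HasMinor G n) : HasMinor G m := by
  obtain ⟨f, h1, h2, h3⟩ := hn
  refine ⟨fun i => f (Fin.castLE h i), fun i => h1 _, fun i j hij => h2 _ _ ?_, fun i j hij => h3 _ _ ?_⟩
  · exact fun e => hij (Fin.castLE_injective h e)
  · exact fun e => hij (Fin.castLE_injective h e)

theorem hasMinor_zero : HasMinor G 0 := ⟨fun _ => Set.univ, fun i => i.elim0, fun i => i.elim0, fun i => i.elim0⟩

theorem hasMinor_of_induce {A : Set V} {m : ℕ} (h : HasMinor (G.induce A) m) : HasMinor G m := by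
  have e : QG G (fun a : A => ({a.1} : Set V)) = G.induce A := by
    ext x y
    rw [QG_adj]
    constructor
    · rintro ⟨-, u, hu, v, hv, huv⟩
      rw [Set.mem_singleton_iff] at hu hv
      rw [hu, hv] at huv
      exact huv
    · intro hxy
      exact ⟨hxy.ne, x.1, rfl, y.1, rfl, hxy⟩
  refine hasMinor_of_quot (f := fun a : A => ({a.1} : Set V)) (fun i => singleton_conn G i.1) ?_ (e ▸ h)
  intro i j hij
  rw [Set.disjoint_singleton]
  exact fun e => hij (Subtype.ext e)

/-- colourings of two parts which overlap in a clique -/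
theorem colorable_cliqueSum {A B : Set V} (hAB : A ∪ B = Set.univ) (hc : G.IsClique (A ∩ B))
    (hn : ∀ a ∈ A \ B, ∀ b ∈ B \ A, ¬ G.Adj a b) {k : ℕ} (hA : (G.induce A).Colorable k)
    (hB : (G.induce B).Colorable k) : G.Colorable k := by
  obtain ⟨a⟩ := hA
  obtain ⟨b⟩ := hB
  let C : Set V := A ∩ B
  let fA : C → Fin k := fun v => a ⟨v.1, v.2.1⟩
  let fB : C → Fin k := fun v => b ⟨v.1, v.2.2⟩
  have iA : Function.Injective fA := by
    intro u v huv
    by_contra hne
    have hadj : (G.induce A).Adj ⟨u.1, u.2.1⟩ ⟨v.1, v.2.1⟩ :=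
      hc u.2 v.2 (fun e => hne (Subtype.ext e))
    exact a.valid hadj huv
  have iB : Function.Injective fB := by
    intro u v huv
    by_contra hne
    have hadj : (G.induce B).Adj ⟨u.1, u.2.2⟩ ⟨v.1, v.2.2⟩ :=
      hc u.2 v.2 (fun e => hne (Subtype.ext e))
    exact b.valid hadj huv
  let e : {x // x ∈ Set.range fB} ≃ {x // x ∈ Set.range fA} :=
    (Equiv.ofInjective fB iB).symm.trans (Equiv.ofInjective fA iA)
  let σ : Equiv.Perm (Fin k) := e.extendSubtype
  have hσ : ∀ v : C, σ (fB v) = fA v := by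
    intro v
    have h1 : σ (fB v) = e ⟨fB v, v, rfl⟩ :=
      Equiv.extendSubtype_apply_of_mem e (fB v) ⟨v, rfl⟩
    rw [h1]
    have h2 : (⟨fB v, v, rfl⟩ : {x // x ∈ Set.range fB}) = Equiv.ofInjective fB iB v := rfl
    show ((Equiv.ofInjective fA iA) ((Equiv.ofInjective fB iB).symm ⟨fB v, v, rfl⟩)).1 = fA v
    rw [h2, Equiv.symm_apply_apply]
    rfl
  have hmem : ∀ v, v ∉ A → v ∈ B := by
    intro v hv
    have : v ∈ A ∪ B := by rw [hAB]; trivial
    exact this.resolve_left hv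
  refine ⟨SimpleGraph.Coloring.mk (fun v => if h : v ∈ A then a ⟨v, h⟩ else σ (b ⟨v, hmem v h⟩)) ?_⟩
  have hB' : ∀ (v : V) (h : v ∈ B), (if h : v ∈ A then a ⟨v, h⟩ else σ (b ⟨v, hmem v h⟩)) = σ (b ⟨v, h⟩) := by
    intro v h
    by_cases h' : v ∈ A
    · rw [dif_pos h']
      exact (hσ ⟨v, h', h⟩).symm
    · rw [dif_neg h']
  intro u v huv
  by_cases hu : u ∈ A
  · by_cases hv : v ∈ A
    · rw [dif_pos hu, dif_pos hv]
      exact a.valid (show (G.induce A).Adj ⟨u, hu⟩ ⟨v, hv⟩ from huv)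
    · have hvB := hmem v hv
      have huB : u ∈ B := by
        by_contra huB
        exact hn u ⟨hu, huB⟩ v ⟨hvB, hv⟩ huv
      rw [hB' u huB, hB' v hvB]
      intro h
      exact b.valid (show (G.induce B).Adj ⟨u, huB⟩ ⟨v, hvB⟩ from huv) (σ.injective h)
  · have huB := hmem u hu
    have hvB : v ∈ B := by
      by_contra hvB
      have hvA : v ∈ A := by
        by_contra hvA
        exact hvB (hmem v hvA)
      exact hn v ⟨hvA, hvB⟩ u ⟨huB, hu⟩ huv.symm
    rw [hB' u huB, hB' v hvB]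
    intro h
    exact b.valid (show (G.induce B).Adj ⟨u, huB⟩ ⟨v, hvB⟩ from huv) (σ.injective h)

theorem colorable_join {A : Set V} {a b : ℕ} (hA : (G.induce A).Colorable a)
    (hB : (G.induce Aᶜ).Colorable b) : G.Colorable (a + b) := by
  obtain ⟨c⟩ := hA
  obtain ⟨d⟩ := hB
  refine ⟨SimpleGraph.Coloring.mk (fun v => if h : v ∈ A then Fin.castAdd b (c ⟨v, h⟩)
    else Fin.natAdd a (d ⟨v, h⟩)) ?_⟩
  intro u v huv
  by_cases hu : u ∈ A
  · by_cases hv : v ∈ A
    · rw [dif_pos hu, dif_pos hv]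
      intro h
      exact c.valid (show (G.induce A).Adj ⟨u, hu⟩ ⟨v, hv⟩ from huv) (Fin.castAdd_injective _ _ h)
    · rw [dif_pos hu, dif_neg hv]
      intro h
      have := congrArg Fin.val h
      simp only [Fin.val_castAdd, Fin.val_natAdd] at this
      have h2 := (c ⟨u, hu⟩).2
      omega
  · by_cases hv : v ∈ A
    · rw [dif_neg hu, dif_pos hv]
      intro h
      have := congrArg Fin.val h
      simp only [Fin.val_castAdd, Fin.val_natAdd] at this
      have h2 := (c ⟨v, hv⟩).2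
      omega
    · rw [dif_neg hu, dif_neg hv]
      intro h
      exact d.valid (show (G.induce Aᶜ).Adj ⟨u, hu⟩ ⟨v, hv⟩ from huv) (Fin.natAdd_injective _ _ h)

theorem image_conn {A : Set V} {S : Set A} (h : ((G.induce A).induce S).Connected) :
    (G.induce (Subtype.val '' S)).Connected := by
  let e : ((G.induce A).induce S) →g (G.induce (Subtype.val '' S)) :=
    { toFun := fun x => ⟨x.1.1, x.1, x.2, rfl⟩
      map_rel' := fun {x y} hxy => hxy }
  refine SimpleGraph.Connected.map e ?_ h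
  rintro ⟨_, w, hw, rfl⟩
  exact ⟨⟨w, hw⟩, rfl⟩

theorem hasMinor_join {A : Set V} (hj : ∀ a ∈ A, ∀ b ∈ Aᶜ, G.Adj a b) {a b : ℕ}
    (hA : HasMinor (G.induce A) a) (hB : HasMinor (G.induce Aᶜ) b) : HasMinor G (a + b) := by
  obtain ⟨f, f1, f2, f3⟩ := hA
  obtain ⟨g, g1, g2, g3⟩ := hB
  have hdis : ∀ i j, Disjoint (Subtype.val '' f i) (Subtype.val '' g j) := by
    intro i j
    rw [Set.disjoint_left]
    rintro _ ⟨x, -, rfl⟩ ⟨y, -, hxy⟩
    exact y.2 (hxy ▸ x.2)
  have hadj : ∀ i j, ∃ u ∈ Subtype.val '' f i, ∃ v ∈ Subtype.val '' g j, G.Adj u v := by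
    intro i j
    obtain ⟨x, hx⟩ := (f1 i).nonempty
    obtain ⟨y, hy⟩ := (g1 j).nonempty
    exact ⟨x.1, ⟨x, hx, rfl⟩, y.1, ⟨y, hy, rfl⟩, hj _ x.2 _ y.2⟩
  let F : Fin a ⊕ Fin b → Set V := fun x => match x with
    | Sum.inl i => Subtype.val '' f i
    | Sum.inr j => Subtype.val '' g j
  have F1 : ∀ x, (G.induce (F x)).Connected := by
    rintro (i | j)
    · exact image_conn (f1 i)
    · exact image_conn (g1 j)
  have F2 : ∀ x y, x ≠ y → Disjoint (F x) (F y) := by
    rintro (i | i) (j | j) h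
    · exact (Set.disjoint_image_iff Subtype.val_injective).2 (f2 i j (fun e => h (by rw [e])))
    · exact hdis i j
    · exact (hdis j i).symm
    · exact (Set.disjoint_image_iff Subtype.val_injective).2 (g2 i j (fun e => h (by rw [e])))
  have F3 : ∀ x y, x ≠ y → ∃ u ∈ F x, ∃ v ∈ F y, G.Adj u v := by
    rintro (i | i) (j | j) h
    · obtain ⟨u, hu, v, hv, huv⟩ := f3 i j (fun e => h (by rw [e]))
      exact ⟨u.1, ⟨u, hu, rfl⟩, v.1, ⟨v, hv, rfl⟩, huv⟩
    · exact hadj i j
    · obtain ⟨u, hu, v, hv, huv⟩ := hadj j i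
      exact ⟨v, hv, u, hu, huv.symm⟩
    · obtain ⟨u, hu, v, hv, huv⟩ := g3 i j (fun e => h (by rw [e]))
      exact ⟨u.1, ⟨u, hu, rfl⟩, v.1, ⟨v, hv, rfl⟩, huv⟩
  exact ⟨fun i => F (finSumFinEquiv.symm i), fun i => F1 _,
    fun i j hij => F2 _ _ (fun e => hij (finSumFinEquiv.symm.injective e)),
    fun i j hij => F3 _ _ (fun e => hij (finSumFinEquiv.symm.injective e))⟩

theorem colorable_subst {M : Set V} {r k : ℕ}
    (hr : (G.induce M).Colorable r) (hk : (repl G M r).Colorable k) : G.Colorable k := by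
  obtain ⟨c⟩ := hr
  obtain ⟨d⟩ := hk
  refine ⟨SimpleGraph.Coloring.mk (fun v => if h : v ∈ M then d (Sum.inr (c ⟨v, h⟩))
    else d (Sum.inl ⟨v, h⟩)) ?_⟩
  intro u v huv
  by_cases hu : u ∈ M
  · by_cases hv : v ∈ M
    · rw [dif_pos hu, dif_pos hv]
      refine d.valid (Or.inr (Or.inr (Or.inr ⟨_, _, rfl, rfl, ?_⟩)))
      exact c.valid (show (G.induce M).Adj ⟨u, hu⟩ ⟨v, hv⟩ from huv)
    · rw [dif_pos hu, dif_neg hv]
      exact d.valid (Or.inr (Or.inr (Or.inl ⟨_, _, rfl, rfl, u, hu, huv.symm⟩)))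
  · by_cases hv : v ∈ M
    · rw [dif_neg hu, dif_pos hv]
      exact d.valid (Or.inr (Or.inl ⟨_, _, rfl, rfl, v, hv, huv⟩))
    · rw [dif_neg hu, dif_neg hv]
      exact d.valid (Or.inl ⟨_, _, rfl, rfl, huv⟩)

theorem hasMinor_subst {M : Set V} {r k : ℕ} (hM : ∀ v ∉ M, (∀ m ∈ M, G.Adj v m) ∨ (∀ m ∈ M, ¬ G.Adj v m))
    (hr : HasMinor (G.induce M) r) (hk : HasMinor (repl G M r) k) : HasMinor G k := by
  obtain ⟨f, f1, f2, f3⟩ := hr
  let g : ({v : V // v ∉ M} ⊕ Fin r) → Set V := fun x => match x with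
    | Sum.inl v => {v.1}
    | Sum.inr i => Subtype.val '' f i
  have hgM : ∀ i, ∀ v ∈ g (Sum.inr i), v ∈ M := by
    rintro i _ ⟨x, -, rfl⟩
    exact x.2
  have hd : ∀ x y, x ≠ y → Disjoint (g x) (g y) := by
    intro x y hxy
    rw [Set.disjoint_left]
    intro v hx hy
    rcases x with x | i <;> rcases y with y | j
    · have h1 : v = x.1 := hx
      have h2 : v = y.1 := hy
      exact hxy (by rw [show x = y from Subtype.ext (h1.symm.trans h2)])
    · have h1 : v = x.1 := hx
      exact x.2 (h1 ▸ hgM j v hy)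
    · have h1 : v = y.1 := hy
      exact y.2 (h1 ▸ hgM i v hx)
    · exact Set.disjoint_left.1 ((Set.disjoint_image_iff Subtype.val_injective).2
        (f2 i j (fun e => hxy (by rw [e])))) hx hy
  have hc : ∀ x, (G.induce (g x)).Connected := by
    rintro (x | i)
    · exact singleton_conn G x.1
    · exact image_conn (f1 i)
  have he : QG G g = repl G M r := by
    ext x y
    rw [QG_adj]
    constructor
    · rintro ⟨hne, u, hu, v, hv, huv⟩
      rcases x with x | i <;> rcases y with y | j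
      · have h1 : u = x.1 := hu
        have h2 : v = y.1 := hv
        exact Or.inl ⟨x, y, rfl, rfl, h1 ▸ h2 ▸ huv⟩
      · have h1 : u = x.1 := hu
        exact Or.inr (Or.inl ⟨x, j, rfl, rfl, v, hgM j v hv, h1 ▸ huv⟩)
      · have h2 : v = y.1 := hv
        exact Or.inr (Or.inr (Or.inl ⟨y, i, rfl, rfl, u, hgM i u hu, h2 ▸ huv.symm⟩))
      · exact Or.inr (Or.inr (Or.inr ⟨i, j, rfl, rfl, fun e => hne (by rw [e])⟩))
    · have key : ∀ (x : {v : V // v ∉ M}) (i : Fin r), (∃ m ∈ M, G.Adj x.1 m) →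
          ∃ v ∈ g (Sum.inr i), G.Adj x.1 v := by
        rintro x i ⟨m, hm, hxm⟩
        obtain ⟨z, hz⟩ := (f1 i).nonempty
        refine ⟨z.1, ⟨z, hz, rfl⟩, ?_⟩
        rcases hM x.1 x.2 with h | h
        · exact h _ z.2
        · exact absurd hxm (h m hm)
      intro hxy
      refine ⟨hxy.ne, ?_⟩
      rcases hxy with ⟨u, v, rfl, rfl, h⟩ | ⟨u, i, rfl, rfl, h⟩ | ⟨u, i, rfl, rfl, h⟩ | ⟨i, j, rfl, rfl, h⟩
      · exact ⟨u.1, rfl, v.1, rfl, h⟩
      · obtain ⟨v, hv, huv⟩ := key u i h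
        exact ⟨u.1, rfl, v, hv, huv⟩
      · obtain ⟨v, hv, huv⟩ := key u i h
        exact ⟨v, hv, u.1, rfl, huv.symm⟩
      · obtain ⟨u, hu, v, hv, huv⟩ := f3 i j h
        exact ⟨u.1, ⟨u, hu, rfl⟩, v.1, ⟨v, hv, rfl⟩, huv⟩
  exact hasMinor_of_quot hc hd (he ▸ hk)

end lemmas

/-- a least number of colours -/
theorem exists_chi {V : Type} [Finite V] (G : SimpleGraph V) :
    ∃ r, G.Colorable r ∧ ∀ s < r, ¬ G.Colorable s := by
  have := Fintype.ofFinite V
  have h : ∃ r, G.Colorable r := ⟨_, G.colorable_of_fintype⟩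
  exact ⟨Nat.find h, Nat.find_spec h, fun s hs => Nat.find_min h hs⟩

theorem minor_of_chi {V : Type} {G : SimpleGraph V} (h : ∀ k, ¬ G.Colorable k → HasMinor G (k + 1)) {r : ℕ}
    (hr : ∀ s < r, ¬ G.Colorable s) : HasMinor G r := by
  cases r with
  | zero => exact hasMinor_zero
  | succ r => exact h r (hr r (Nat.lt_succ_self r))

/-- Hadwiger's conjecture for the class `Cls` follows from the case of circular-arc graphs -/
theorem cls_hadwiger
    (H : ∀ (V : Type) [Fintype V] (G : SimpleGraph V) (k : ℕ), RA G → ¬ G.Colorable k → HasMinor G (k + 1))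
    (V : Type) (G : SimpleGraph V) (h : Cls V G) :
    Finite V → ∀ k, ¬ G.Colorable k → HasMinor G (k + 1) := by
  induction h with
  | arc V G h =>
    intro hf k hk
    have := Fintype.ofFinite V
    exact H V G k h hk
  | chiOmega V G h =>
    intro hf k hk
    have h1 : ¬ G.CliqueFree (k + 1) := fun h' => hk (h k h')
    rw [SimpleGraph.CliqueFree] at h1
    push Not at h1
    obtain ⟨t, ht⟩ := h1
    have e : Fin (k + 1) ≃ t := (Fintype.equivFinOfCardEq (by simpa using ht.card_eq)).symm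
    refine ⟨fun i => {(e i).1}, fun i => singleton_conn G _, fun i j hij => ?_, fun i j hij => ?_⟩
    · rw [Set.disjoint_singleton]
      exact fun h => hij (e.injective (Subtype.ext h))
    · exact ⟨_, rfl, _, rfl, ht.isClique (e i).2 (e j).2 (fun h => hij (e.injective (Subtype.ext h)))⟩
  | cliqueSum V G A B hAB hc hn hA hB ihA ihB =>
    intro hf k hk
    by_cases h1 : (G.induce A).Colorable k
    · by_cases h2 : (G.induce B).Colorable k
      · exact absurd (colorable_cliqueSum hAB hc hn h1 h2) hk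
      · exact hasMinor_of_induce (ihB inferInstance k h2)
    · exact hasMinor_of_induce (ihA inferInstance k h1)
  | join V G A hj hA hB ihA ihB =>
    intro hf k hk
    obtain ⟨a, ha, ha'⟩ := exists_chi (G.induce A)
    obtain ⟨b, hb, hb'⟩ := exists_chi (G.induce Aᶜ)
    have h1 := hasMinor_join hj (minor_of_chi (ihA inferInstance) ha') (minor_of_chi (ihB inferInstance) hb')
    refine hasMinor_mono ?_ h1
    by_contra hlt
    push Not at hlt
    exact hk ((colorable_join ha hb).mono (by omega))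
  | subst V G M r hM hr hr' hA hB ihA ihB =>
    intro hf k hk
    refine hasMinor_subst hM (minor_of_chi (ihA inferInstance) hr') (ihB inferInstance k ?_)
    exact fun h => hk (colorable_subst hr h)

end Pool.Agent.CA31C
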