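import Pool.Agent.CA31.FirstFit
import Pool.Agent.CA31.Enum

set_option autoImplicit false

namespace Pool.Agent.CA31

open Finset
open scoped Classical

theorem exists_idx {α : Type} (S : Finset α) : ∃ f : α → ℕ, (∀ x ∈ S, f x < S.card) ∧ Set.InjOn f S := by
  refine ⟨fun x => if h : x ∈ S then (S.equivFin ⟨x, h⟩ : ℕ) else 0, ?_, ?_⟩
  · intro x hx
    simp only [hx, dif_pos]
    exact (S.equivFin ⟨x, hx⟩).2
  · intro x hx y hy hxy
    have hx' : x ∈ S := hx
    have hy' : y ∈ S := hy
    simp only [hx', hy', dif_pos] at hxy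
    have := S.equivFin.injective (Fin.ext hxy)
    simpa using this

theorem colour_abs {V : Type} [Fintype V] (G : SimpleGraph V) (A : Finset V) (ch : V → ℕ) (T : ℕ) (W : Finset ℕ)
    (hW : W ⊆ range T) (hWT : T ≤ 2 * W.card)
    (hch : ∀ h ∉ A, ch h < T) (hadj : ∀ h ∉ A, ∀ h' ∉ A, G.Adj h h' → ch h ≠ ch h')
    (win : V → V) (hwin : ∀ h ∉ A, ch h ∈ W → win h ∈ A ∧ ¬ G.Adj h (win h))
    (hww : ∀ h ∉ A, ∀ h' ∉ A, ch h ∈ W → ch h' ∈ W → ch h ≠ ch h' → win h ≠ win h') :
    ColOn G univ (A.card + T / 2) := by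
  obtain ⟨idx, hi1, hi2⟩ := exists_idx A
  obtain ⟨idx', hj1, hj2⟩ := exists_idx (range T \ W)
  have hcard : (range T \ W).card ≤ T / 2 := by
    rw [card_sdiff_of_subset hW, card_range]
    omega
  refine ⟨fun v => if v ∈ A then idx v else if ch v ∈ W then idx (win v) else A.card + idx' (ch v), ?_, ?_⟩
  · intro v _
    by_cases hv : v ∈ A
    · simp only [hv, if_true]
      have := hi1 v hv
      omega
    · by_cases hc : ch v ∈ W
      · simp only [hv, hc, if_true, if_false]
        have := hi1 _ (hwin v hv hc).1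
        omega
      · simp only [hv, hc, if_false]
        have := hj1 (ch v) (by rw [mem_sdiff, mem_range]; exact ⟨hch v hv, hc⟩)
        omega
  · intro u _ v _ huv
    by_cases hu : u ∈ A
    · by_cases hv : v ∈ A
      · simp only [hu, hv, if_true]
        intro he
        exact huv.ne (hi2 hu hv he)
      · by_cases hc : ch v ∈ W
        · simp only [hu, hv, hc, if_true, if_false]
          intro he
          have := hi2 hu (hwin v hv hc).1 he
          exact (hwin v hv hc).2 (this ▸ huv.symm)
        · simp only [hu, hv, hc, if_true, if_false]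
          have := hi1 u hu
          omega
    · by_cases hv : v ∈ A
      · by_cases hc : ch u ∈ W
        · simp only [hu, hv, hc, if_true, if_false]
          intro he
          have := hi2 (hwin u hu hc).1 hv he
          exact (hwin u hu hc).2 (this ▸ huv)
        · simp only [hu, hv, hc, if_true, if_false]
          have := hi1 v hv
          omega
      · have hne := hadj u hu v hv huv
        by_cases hcu : ch u ∈ W
        · by_cases hcv : ch v ∈ W
          · simp only [hu, hv, hcu, hcv, if_true, if_false]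
            intro he
            exact hww u hu v hv hcu hcv hne (hi2 (hwin u hu hcu).1 (hwin v hv hcv).1 he)
          · simp only [hu, hv, hcu, hcv, if_true, if_false]
            have := hi1 _ (hwin u hu hcu).1
            omega
        · by_cases hcv : ch v ∈ W
          · simp only [hu, hv, hcu, hcv, if_true, if_false]
            have := hi1 _ (hwin v hv hcv).1
            omega
          · simp only [hu, hv, hcu, hcv, if_false]
            intro he
            have hu' : ch u ∈ (range T \ W : Finset ℕ) := by rw [mem_sdiff, mem_range]; exact ⟨hch u hu, hcu⟩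
            have hv' : ch v ∈ (range T \ W : Finset ℕ) := by rw [mem_sdiff, mem_range]; exact ⟨hch v hv, hcv⟩
            exact hne (hj2 hu' hv' (by omega))

theorem exists_chain {V : Type} [Fintype V] (M : Model V) (T m : ℕ) (hT : ∀ t, (M.H t).card ≤ T) :
    ∃ (ch : V → ℕ) (θ : ℕ → ℕ), (∀ j < T, θ j < T) ∧ (∀ i < T, ∀ j < T, θ i = θ j → i = j) ∧
      (∀ h, M.IsH h → ch h < T) ∧
      (∀ h, M.IsH h → M.o h < m → ch h < (M.H (M.o h + 1)).card) ∧
      (∀ h, M.IsH h → m ≤ M.c h → θ (ch h) < (M.H (M.c h)).card) ∧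
      (∀ h h', M.IsH h → M.IsH h' → h ≠ h' → M.o h < M.c h' → M.o h' < M.c h → ch h ≠ ch h') := by
  obtain ⟨τ, ht1, ht2⟩ := firstFit M
  obtain ⟨τ', hs1, hs2⟩ := firstFit' M
  have hmem : ∀ h ∈ M.H m, M.IsH h ∧ M.o h < m ∧ m ≤ M.c h := fun h hh => Model.mem_H.1 hh
  obtain ⟨θ, h1, h2, h3, h4⟩ := exists_perm T (M.H m) τ τ'
    (fun v hv => (ht1 v (hmem v hv).1).trans_le (hT _)) (fun v hv => (hs1 v (hmem v hv).1).trans_le (hT _))
    (by
      intro x hx y hy hxy
      by_contra hne
      have hx' := hmem x hx; have hy' := hmem y hy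
      exact ht2 x y hx'.1 hy'.1 hne (by omega) (by omega) hxy)
    (by
      intro x hx y hy hxy
      by_contra hne
      have hx' := hmem x hx; have hy' := hmem y hy
      exact hs2 x y hx'.1 hy'.1 hne (by omega) (by omega) hxy)
  -- inverse of θ
  have hinv : ∀ i, ∃ j, i < T → j < T ∧ θ j = i := by
    intro i
    by_cases hi : i < T
    · obtain ⟨j, hj, hj'⟩ := h3 i hi
      exact ⟨j, fun _ => ⟨hj, hj'⟩⟩
    · exact ⟨0, fun h => absurd h hi⟩
  choose inv hinv using hinv
  let ch : V → ℕ := fun h => if M.o h < m then τ h else inv (τ' h)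
  have hchl : ∀ h, M.o h < m → ch h = τ h := fun h hh => if_pos hh
  have hchr : ∀ h, ¬ M.o h < m → ch h = inv (τ' h) := fun h hh => if_neg hh
  have hθ : ∀ h, M.IsH h → m ≤ M.c h → θ (ch h) = τ' h := by
    intro h hh hm
    by_cases ho : M.o h < m
    · rw [hchl h ho]
      exact h4 h (Model.mem_H.2 ⟨hh, ho, hm⟩)
    · rw [hchr h ho]
      exact (hinv _ ((hs1 h hh).trans_le (hT _))).2
  refine ⟨ch, θ, h1, h2, ?_, ?_, ?_, ?_⟩
  · intro h hh
    by_cases ho : M.o h < m
    · rw [hchl h ho]; exact (ht1 h hh).trans_le (hT _)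
    · rw [hchr h ho]; exact (hinv _ ((hs1 h hh).trans_le (hT _))).1
  · intro h hh ho
    rw [hchl h ho]; exact ht1 h hh
  · intro h hh hm
    rw [hθ h hh hm]; exact hs1 h hh
  · intro h h' hh hh' hne ho ho' he
    have hh1 := hh; have hh2 := hh'
    unfold Model.IsH at hh1 hh2
    by_cases hm : M.o h < m ∧ M.o h' < m
    · rw [hchl h hm.1, hchl h' hm.2] at he
      exact ht2 h h' hh hh' hne ho ho' he
    · have hc : m ≤ M.c h ∧ m ≤ M.c h' := by omega
      have := congrArg θ he
      rw [hθ h hh hc.1, hθ h' hh' hc.2] at this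
      exact hs2 h h' hh hh' hne ho ho' this

end Pool.Agent.CA31
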