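import Pool.Agent.CA31.ColAbs
import Pool.Agent.CA31.CL

/-!
# CA31-COL: the colouring lemma

If position `0` has maximum load `w = M.A.card`, the model is normal and every position lies in at most `T` H-arcs, then the graph is
`w + T / 2` colourable.

Proof.  If `M.A = ∅` there is no arc at all (`card_H_le`, `H (o h + 1) ∋ h`).  By `card_H_le` every `(M.H t).card ≤ M.A.card`, so we may replace `T` by
`min T M.A.card` (`ColOn.mono`); assume `T ≤ M.A.card`.  Let `m := (max of M.c over M.A) + 1`; by `Normal.two`: `M.c a < m ≤ M.o a` for all `a ∈ M.A`.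
Take `τ` from `firstFit`, `τ'` from `firstFit'`, both `< T` on H-arcs; they are injective on `M.H m`; `θ` from `exists_perm T (M.H m) τ τ'`.
Chain of an H-arc `h`: `ch h := τ h` if `M.o h < m`, and `ch h :=` the `j < T` with `θ j = τ' h` if `m ≤ M.o h`.  Then `ch h < T`;
`M.o h < m → ch h = τ h`; `m ≤ M.c h → θ (ch h) = τ' h`; and adjacent H-arcs have different `ch`
(both `o < m`: `τ`; both `m ≤ c`: `τ'`; one with `c < m`, one with `m ≤ o`: not adjacent).
Windows: `lam` := `exists_enum M.A (fun a => M.c a)`, `nu` := `exists_enum M.A (fun a => - M.o a)`, `mu j := nu (θ j)`.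
Apply `cl` with `J := range T`, `U := M.A`, `b a := - M.o a`, `R j a := M.o (nu (θ j)) ≤ M.o a`: get `W`, `rho`.
Facts, for an H-arc `h` with `j := ch h ∈ W`:
 (i) if `M.o h < m` then `M.c (lam j) < M.o h`: `j = τ h < (M.H (M.o h + 1)).card ≤ #{a ∈ A | c a < o h + 1 ≤ o a} ≤ #{a ∈ A | c a < o h + 1}` (`card_H_le`), so
     `M.c (lam j) < M.o h + 1` by the third property of `exists_enum`, and `≠` by `o_ne_c`;
 (ii) if `m ≤ M.c h` then `M.c h < M.o (rho j)`: `θ j = τ' h < (M.H (M.c h)).card ≤ #{a ∈ A | c h ≤ o a}`, so `M.c h ≤ M.o (nu (θ j)) ≤ M.o (rho j)`.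
Say `h` is LEFT if `M.o h < m` and `∀ a ∈ A, M.c h < M.o a` (all arcs with `M.c h < m` are of this kind when `o h < c h`), otherwise RIGHT.
A LEFT arc of chain `j` does not meet the A-arc `lam j` (by (i)).  A RIGHT arc does not meet `rho j`: `m ≤ M.c h` (if `o h < m` then some `a` has `o a < c h`, and `m ≤ o a`),
so `M.c h < M.o (rho j)` by (ii), and `M.c (rho j) < M.o h`: clear if `m ≤ M.o h`; otherwise some `a` has `M.o a < M.c h` and `Normal.three` gives it.
Colours: an injection `idx : M.A → range w` (e.g. `Finset.equivFin`), an injection `idx' : range T \ W → range (T - W.card)` (`≤ T/2` values);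
`a ∈ A` gets `idx a`; an H-arc `h` with `ch h = j ∈ W` gets `idx (lam j)` if LEFT, `idx (rho j)` if RIGHT; if `ch h ∉ W` it gets `w + idx' (ch h)`.
Two adjacent H-arcs are in different chains `i ≠ j`; if both are in `W`, the colours differ as `lam i ≠ lam j`, `rho i ≠ rho j`, `lam i ≠ rho j`, `lam j ≠ rho i`.
-/

set_option autoImplicit false

namespace Pool.Agent.CA31

open Finset
open scoped Classical

variable {V : Type} [Fintype V] {M : Model V} {G : SimpleGraph V}

open Model (card_H_le)

theorem colour_aux [Nonempty V] (hG : M.IsModelOf G) (hM : M.MaxAtZero) (hn : M.Normal) (T : ℕ) (hTA : T ≤ M.A.card)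
    (hA : M.A.Nonempty) (hT : ∀ t, (M.H t).card ≤ T) : ColOn G univ (M.A.card + T / 2) := by
  -- the position m
  obtain ⟨a₀, ha₀, hmax⟩ := exists_max_image M.A M.c hA
  obtain ⟨m, hm⟩ : ∃ m, m = M.c a₀ + 1 := ⟨_, rfl⟩
  have hcm : ∀ a ∈ M.A, M.c a < m := fun a ha => by have := hmax a ha; omega
  have hmo : ∀ a ∈ M.A, m ≤ M.o a := fun a ha => by
    have := hn.two a₀ a (Model.mem_A.1 ha₀) (Model.mem_A.1 ha); omega
  obtain ⟨ch, θ, hθ1, hθ2, hch, hchl, hchr, hchadj⟩ := exists_chain M T m hT
  -- windows
  obtain ⟨lam, hl1, hl2, hl3⟩ := exists_enum M.A (fun a => (M.c a : ℤ)) (by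
    intro x _ y _ hxy
    have hxy : (M.c x : ℤ) = (M.c y : ℤ) := hxy
    exact M.c_inj (by omega))
  obtain ⟨nu, hn1, hn2, hn3⟩ := exists_enum M.A (fun a => -(M.o a : ℤ)) (by
    intro x _ y _ hxy
    have hxy : -(M.o x : ℤ) = -(M.o y : ℤ) := hxy
    exact M.o_inj (by omega))
  have hlinj : ∀ i < M.A.card, ∀ j < M.A.card, lam i = lam j → i = j := by
    intro i hi j hj he
    rcases lt_trichotomy i j with h | h | h
    · have := hl2 i hi j hj h; rw [he] at this; exact absurd this (lt_irrefl _)
    · exact h
    · have := hl2 j hj i hi h; rw [he] at this; exact absurd this (lt_irrefl _)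
  have hninj : ∀ i < M.A.card, ∀ j < M.A.card, nu i = nu j → i = j := by
    intro i hi j hj he
    rcases lt_trichotomy i j with h | h | h
    · have := hn2 i hi j hj h; rw [he] at this; exact absurd this (lt_irrefl _)
    · exact h
    · have := hn2 j hj i hi h; rw [he] at this; exact absurd this (lt_irrefl _)
  obtain ⟨W, rho, hW, hWT, hrho, hdis⟩ := cl (range T) M.A (fun a => -(M.o a : ℤ)) (by
    intro x _ y _ hxy
    have hxy : -(M.o x : ℤ) = -(M.o y : ℤ) := hxy
    exact M.o_inj (by omega)) (fun j a => M.o (nu (θ j)) ≤ M.o a)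
    (by
      intro j _ u _ u' _ h1 h2
      have h2 : -(M.o u' : ℤ) ≤ -(M.o u : ℤ) := h2
      have h1 : M.o (nu (θ j)) ≤ M.o u := h1
      show M.o (nu (θ j)) ≤ M.o u'
      omega)
    lam (by
      intro j hj
      rw [mem_range] at hj
      exact hl1 j (by omega))
    (by
      intro i hi j hj he
      have hi : i < T := by simpa using hi
      have hj : j < T := by simpa using hj
      exact hlinj i (by omega) j (by omega) he)
    (fun j => nu (θ j))
    (by
      intro j hj
      rw [mem_range] at hj
      have := hθ1 j hj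
      exact ⟨hn1 _ (by omega), le_rfl⟩)
    (by
      intro i hi j hj he
      have hi : i < T := by simpa using hi
      have hj : j < T := by simpa using hj
      have h1 := hθ1 i hi; have h2 := hθ1 j hj
      exact hθ2 i hi j hj (hninj _ (by omega) _ (by omega) he))
  rw [card_range] at hWT
  -- (i)
  have hI : ∀ h, M.IsH h → M.o h < m → M.c (lam (ch h)) < M.o h := by
    intro h hh ho
    have h1 := hchl h hh ho
    have h2 := card_H_le hM (M.o h + 1)
    have h3 : (M.A.filter (fun a => M.c a < M.o h + 1 ∧ M.o h + 1 ≤ M.o a)).card ≤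
        (M.A.filter (fun a => (M.c a : ℤ) < ((M.o h + 1 : ℕ) : ℤ))).card := by
      apply card_le_card
      intro a ha
      rw [mem_filter] at ha ⊢
      exact ⟨ha.1, by exact_mod_cast ha.2.1⟩
    have h4 := hl3 ((M.o h + 1 : ℕ) : ℤ) (ch h) (by omega)
    have h5 : M.c (lam (ch h)) < M.o h + 1 := by exact_mod_cast h4
    have h6 := M.o_ne_c h (lam (ch h))
    omega
  -- (ii)
  have hII : ∀ h, M.IsH h → m ≤ M.c h → ch h ∈ W → M.c h < M.o (rho (ch h)) := by
    intro h hh ho hw
    have h1 := hchr h hh ho
    have h2 := card_H_le hM (M.c h)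
    have h3 : (M.A.filter (fun a => M.c a < M.c h ∧ M.c h ≤ M.o a)).card ≤
        (M.A.filter (fun a => -(M.o a : ℤ) < -(M.c h : ℤ) + 1)).card := by
      apply card_le_card
      intro a ha
      rw [mem_filter] at ha ⊢
      exact ⟨ha.1, by have := ha.2.2; omega⟩
    have h4 := hn3 (-(M.c h : ℤ) + 1) (θ (ch h)) (by omega)
    have h5 := (hrho _ hw).2
    have h6 := M.o_ne_c (rho (ch h)) h
    omega
  let left : V → Prop := fun h => M.o h < m ∧ ∀ a ∈ M.A, M.c h < M.o a
  refine colour_abs G M.A ch T W hW hWT ?_ ?_ (fun h => if left h then lam (ch h) else rho (ch h)) ?_ ?_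
  · intro h hh
    rw [Model.mem_A, Model.not_isA] at hh
    exact hch h hh
  · intro h hh h' hh' hadj
    rw [Model.mem_A, Model.not_isA] at hh hh'
    rw [Model.adj_HH hG hh hh'] at hadj
    exact hchadj h h' hh hh' hadj.1 hadj.2.1 hadj.2.2
  · intro h hh hw
    rw [Model.mem_A, Model.not_isA] at hh
    have hT' : ch h < M.A.card := by have := hch h hh; omega
    by_cases hL : left h
    · simp only [hL, if_true]
      refine ⟨hl1 _ hT', ?_⟩
      intro hadj
      have hadj := hadj.symm
      rw [Model.adj_AH hG (Model.mem_A.1 (hl1 _ hT')) hh] at hadj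
      have h1 := hI h hh hL.1
      have h2 := hL.2 _ (hl1 _ hT')
      omega
    · simp only [hL, if_false]
      refine ⟨(hrho _ hw).1, ?_⟩
      intro hadj
      have hadj := hadj.symm
      rw [Model.adj_AH hG (Model.mem_A.1 (hrho _ hw).1) hh] at hadj
      have hh1 := hh
      unfold Model.IsH at hh1
      by_cases ho : M.o h < m
      · have : ∃ a ∈ M.A, ¬ M.c h < M.o a := by
          by_contra hcon
          push Not at hcon
          exact hL ⟨ho, hcon⟩
        obtain ⟨a, ha, hca⟩ := this
        have h3 := M.o_ne_c a h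
        have h4 := hmo a ha
        have h5 := hII h hh (by omega) hw
        have h6 := hn.three h (rho (ch h)) a hh (Model.mem_A.1 (hrho _ hw).1) (Model.mem_A.1 ha)
        omega
      · have h5 := hII h hh (by omega) hw
        have h6 := hcm _ (hrho _ hw).1
        omega
  · intro h hh h' hh' hw hw' hne
    have h1 := hdis _ hw _ hw' hne
    have h2 := hdis _ hw' _ hw (Ne.symm hne)
    rw [Model.mem_A, Model.not_isA] at hh hh'
    have hT1 : ch h < M.A.card := by have := hch h hh; omega
    have hT2 : ch h' < M.A.card := by have := hch h' hh'; omega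
    by_cases hL : left h
    · by_cases hL' : left h'
      · simp only [hL, hL', if_true]
        intro he
        exact hne (hlinj _ hT1 _ hT2 he)
      · simp only [hL, hL', if_true, if_false]
        exact h1.2
    · by_cases hL' : left h'
      · simp only [hL, hL', if_true, if_false]
        exact h2.2.symm
      · simp only [hL, hL', if_false]
        exact h1.1

theorem colour (hG : M.IsModelOf G) (hM : M.MaxAtZero) (hn : M.Normal) (T : ℕ)
    (hT : ∀ t, (M.H t).card ≤ T) : ColOn G univ (M.A.card + T / 2) := by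
  rcases M.A.eq_empty_or_nonempty with hA | hA
  · refine ⟨fun _ => 0, ?_, ?_⟩
    · intro v _
      exfalso
      rcases M.isH_or_isA v with h | h
      · have h1 := card_H_le hM (M.o v + 1)
        rw [hA] at h1
        simp only [filter_empty, card_empty, Nat.le_zero, card_eq_zero] at h1
        have h2 : v ∈ M.H (M.o v + 1) := Model.mem_H.2 ⟨h, by omega, by unfold Model.IsH at h; omega⟩
        rw [h1] at h2
        exact absurd h2 (notMem_empty v)
      · have := Model.mem_A.2 h
        rw [hA] at this
        exact absurd this (notMem_empty v)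
    · intro u _ v _ huv
      exfalso
      rcases M.isH_or_isA v with h | h
      · have h1 := card_H_le hM (M.o v + 1)
        rw [hA] at h1
        simp only [filter_empty, card_empty, Nat.le_zero, card_eq_zero] at h1
        have h2 : v ∈ M.H (M.o v + 1) := Model.mem_H.2 ⟨h, by omega, by unfold Model.IsH at h; omega⟩
        rw [h1] at h2
        exact absurd h2 (notMem_empty v)
      · have := Model.mem_A.2 h
        rw [hA] at this
        exact absurd this (notMem_empty v)
  · have : Nonempty V := ⟨hA.choose⟩
    rcases le_total T M.A.card with h | h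
    · exact colour_aux hG hM hn T h hA hT
    · refine (colour_aux hG hM hn M.A.card le_rfl hA (fun t => ?_)).mono (by omega)
      exact (card_H_le hM t).trans (card_le_card (filter_subset _ _))

end Pool.Agent.CA31
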