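import Pool.Agent.CA31.Region

/-!
# CA31-DEG: the degree condition for an A-arc missing `[u,v]`

The degree of `a` is at least `k`: otherwise `ext` with `F = {a}`, `Z = ∅` and any key extends a `k`-colouring of the graph without `a` (`hc.2`),
contradicting `hc.1`.  The neighbours of `a` are: the other `M.A.card - 1` A-arcs, and the H-arcs `h` with `M.o h < M.c a` (these are in `M.H u`, since `M.c a < u ≤ M.c h` by
`hr.hc`) or with `M.o a < M.c h` (these are in `M.H v`, since `M.o h < v ≤ M.o a` by `hr.ho`).
-/

set_option autoImplicit false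

namespace Pool.Agent.CA31

open Finset
open scoped Classical

variable {V : Type} [Fintype V] {M : Model V} {G : SimpleGraph V}

theorem degree (hG : M.IsModelOf G) {k q u v : ℕ} (hc : Crit G k) (hq : M.A.card + q = k + 1)
    (hr : Region M q u v) (a : V) (ha : M.IsA a) (h1 : M.c a < u) (h2 : v ≤ M.o a) :
    q ≤ ((M.H u).filter (fun h => M.o h < M.c a)).card + ((M.H v).filter (fun h => M.o a < M.c h)).card := by
  by_contra hcon
  rw [not_le] at hcon
  apply hc.1
  have haA : a ∈ M.A := Model.mem_A.2 ha
  have hw : 1 ≤ M.A.card := Finset.card_pos.2 ⟨a, haA⟩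
  refine ext G {a} ∅ (fun _ => 0) k (by simp) (by simp) ?_ (hc.2 _ ?_)
  · intro f hf
    rw [mem_singleton] at hf
    subst hf
    have hsub : (univ.filter (fun g => G.Adj f g ∧
        ((g ∉ ({f} : Finset V) ∧ g ∉ (∅ : Finset V)) ∨ (g ∈ ({f} : Finset V) ∧
          (fun _ => (0 : ℤ)) g < (fun _ => (0 : ℤ)) f)))) ⊆
        (M.A.erase f) ∪ (((M.H u).filter (fun h => M.o h < M.c f)) ∪
          ((M.H v).filter (fun h => M.o f < M.c h))) := by
      intro g hg
      rw [mem_filter] at hg
      have hadj := hg.2.1
      rcases M.isH_or_isA g with hg1 | hg1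
      · rw [mem_union, mem_union, mem_filter, mem_filter, Model.mem_H, Model.mem_H]
        right
        rcases (Model.adj_AH hG ha hg1).1 hadj with h3 | h3
        · left
          exact ⟨⟨hg1, h3.trans h1, hr.hc g hg1⟩, h3⟩
        · right
          exact ⟨⟨hg1, hr.ho g hg1, h2.trans h3.le⟩, h3⟩
      · rw [mem_union, mem_erase, Model.mem_A]
        left
        exact ⟨(G.ne_of_adj hadj).symm, hg1⟩
    have h3 := (card_le_card hsub).trans ((card_union_le _ _).trans
      (Nat.add_le_add_left (card_union_le _ _) _))
    rw [card_erase_of_mem haA] at h3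
    rw [card_empty, Nat.add_zero]
    exact lt_of_le_of_lt h3 (by omega)
  · intro h
    have h3 := Finset.mem_univ a
    rw [← h] at h3
    simp at h3

end Pool.Agent.CA31
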