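import Pool.Agent.CA31.Refill

/-!
# CA31-ISL: islands

`|M.H x₂ \ M.H x₁| ≤ q - 1` and `|M.H x₁ \ M.H x₂| ≤ q - 1` (`h`, `h1`, `h2`).
If no A-arc has `x₁ ≤ M.o a < x₂` then `M.β x₁ x₂ ⊆ M.H x₂ \ M.H x₁`, so `M.F x₁ x₂ = ∅` (`F_empty`).
If no A-arc has `x₁ ≤ M.c a < x₂` then `M.β' x₁ x₂ ⊆ M.H x₁ \ M.H x₂`, so `M.F x₁ x₂ = ∅` (`F_empty'`).
Otherwise take `a` with `x₁ ≤ M.o a < x₂` and `a'` with `x₁ ≤ M.c a' < x₂`: an H-arc `x` in `M.H x₁ ∩ M.H x₂` has `M.o x < x₁ ≤ M.c a'`, `M.o a < x₂ ≤ M.c x`,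
contradicting `hn.three`; so `M.H x₁`, `M.H x₂` are disjoint and their union has `≥ 2q` elements, contradiction.
Now `M.F x₁ x₂ = ∅` gives `M.H y ⊆ M.H x₁ ∪ M.H x₂`: if `x ∈ M.H y` is in neither then `x₁ ≤ M.o x` and `M.c x < x₂`.
-/

set_option autoImplicit false

namespace Pool.Agent.CA31

open Finset
open scoped Classical

variable {V : Type} [Fintype V] {M : Model V} {G : SimpleGraph V}

theorem island (hG : M.IsModelOf G) (hM : M.MaxAtZero) (hn : M.Normal) {k q : ℕ} (hc : Crit G k)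
    (hq : M.A.card + q = k + 1) {x₁ x₂ y : ℕ}
    (h1 : q ≤ (M.H x₁).card) (h2 : q ≤ (M.H x₂).card) (hx1 : x₁ ≤ y) (hx2 : y ≤ x₂)
    (h : (M.H x₁ ∪ M.H x₂).card < 2 * q) : (M.H y).card < 2 * q := by
  have e1 : (M.H x₂ \ M.H x₁).card + (M.H x₁).card = (M.H x₁ ∪ M.H x₂).card := by
    rw [Finset.card_sdiff_add_card, Finset.union_comm]
  have e2 : (M.H x₁ \ M.H x₂).card + (M.H x₂).card = (M.H x₁ ∪ M.H x₂).card := by
    rw [Finset.card_sdiff_add_card]
  have hF : M.F x₁ x₂ = ∅ := by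
    by_cases hA : ∃ a, M.IsA a ∧ x₁ ≤ M.o a ∧ M.o a < x₂
    · by_cases hA' : ∃ a, M.IsA a ∧ x₁ ≤ M.c a ∧ M.c a < x₂
      · obtain ⟨a, ha, ha1, ha2⟩ := hA
        obtain ⟨a', ha', ha'1, ha'2⟩ := hA'
        exfalso
        have hdis : Disjoint (M.H x₁) (M.H x₂) := by
          rw [Finset.disjoint_left]
          intro x hx hx'
          rw [Model.mem_H] at hx hx'
          exact hn.three x a' a hx.1 ha' ha ⟨by omega, by omega⟩
        rw [Finset.card_union_of_disjoint hdis] at h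
        omega
      · refine F_empty' hG hM hc ?_
        have hsub : M.β' x₁ x₂ ⊆ M.H x₁ \ M.H x₂ := by
          intro v hv
          rw [mem_β'] at hv
          rw [Finset.mem_sdiff, Model.mem_H, Model.mem_H]
          have hnA : ¬ M.IsA v := fun hh => hA' ⟨v, hh, hv.1, hv.2.1⟩
          have hHv : M.IsH v := M.not_isA.1 hnA
          have h3 := hv.2.2.resolve_left hnA
          exact ⟨⟨hHv, h3, hv.1⟩, fun hh => by omega⟩
        have := Finset.card_le_card hsub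
        omega
    · refine F_empty hG hM hc ?_
      have hsub : M.β x₁ x₂ ⊆ M.H x₂ \ M.H x₁ := by
        intro v hv
        rw [mem_β] at hv
        rw [Finset.mem_sdiff, Model.mem_H, Model.mem_H]
        have hnA : ¬ M.IsA v := fun hh => hA ⟨v, hh, hv.1, hv.2.1⟩
        have hHv : M.IsH v := M.not_isA.1 hnA
        have h3 := hv.2.2.resolve_left hnA
        exact ⟨⟨hHv, hv.2.1, h3⟩, fun hh => by omega⟩
      have := Finset.card_le_card hsub
      omega
  have hsub : M.H y ⊆ M.H x₁ ∪ M.H x₂ := by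
    intro x hx
    rw [Model.mem_H] at hx
    rw [Finset.mem_union, Model.mem_H, Model.mem_H]
    by_contra hcon
    push Not at hcon
    have hxF : x ∈ M.F x₁ x₂ := by
      rw [mem_F]
      have h1 := hcon.1 hx.1
      have h2 := hcon.2 hx.1
      have h3 : x₁ ≤ M.o x := by
        by_contra h4
        have := h1 (by omega)
        omega
      refine ⟨hx.1, h3, h2 (by omega)⟩
    rw [hF] at hxF
    simp at hxF
  exact (Finset.card_le_card hsub).trans_lt h

end Pool.Agent.CA31
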