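import Pool.Agent.CA31.Colour
import Pool.Agent.CA31.Degree
import Pool.Agent.CA31.Minor
import Pool.Agent.CA31.Island

/-!
# CA31: Hadwiger's conjecture for a critical normal family cut at a position of maximum load
-/

set_option autoImplicit false

namespace Pool.Agent.CA31

open Finset
open scoped Classical

variable {V : Type} [Fintype V] {M : Model V} {G : SimpleGraph V}

theorem cut_hadwiger (hG : M.IsModelOf G) (hM : M.MaxAtZero) (hn : M.Normal) {k : ℕ} (hc : Crit G k) :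
    HasMinor G (k + 1) := by
  rcases Nat.lt_or_ge k M.A.card with hk | hk
  · exact minor_of_le hG hk
  obtain ⟨q, hq⟩ : ∃ q, M.A.card + q = k + 1 := ⟨k + 1 - M.A.card, by omega⟩
  have hq1 : 1 ≤ q := by omega
  obtain ⟨u, v, hr, -, -⟩ := exists_region hG hM hn hc hq hq1
  by_cases hy : ∃ y, u ≤ y ∧ y ≤ v ∧ ∀ x₁ x₂, u ≤ x₁ → x₁ ≤ y → y ≤ x₂ → x₂ ≤ v → 2 * q ≤ (M.H x₁ ∪ M.H x₂).card
  · obtain ⟨y, h1, h2, h3⟩ := hy
    obtain ⟨C, D, hC, hCC, hD, hDD, hCD⟩ := link hG h1 h2 hr.card_u hr.card_v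
      (fun x hx hx' => (hr.iff x).2 ⟨hx, hx'⟩) h3
    rw [← hq]
    exact minor_of_link hG hr.card_u hr.card_v (fun a ha h4 h5 => degree hG hc hq hr a ha h4 h5) C D hC hCC hD hDD hCD
  · exfalso
    push Not at hy
    have hT : ∀ t, (M.H t).card ≤ 2 * q - 1 := by
      intro t
      by_cases ht : u ≤ t ∧ t ≤ v
      · obtain ⟨x₁, x₂, h1, h2, h3, h4, h5⟩ := hy t ht.1 ht.2
        have := island hG hM hn hc hq (x₁ := x₁) (x₂ := x₂) (y := t)
          ((hr.iff x₁).2 ⟨h1, by omega⟩) ((hr.iff x₂).2 ⟨by omega, h4⟩) h2 h3 h5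
        omega
      · have := mt (hr.iff t).1 ht
        omega
    have h := colour hG hM hn (2 * q - 1) hT
    exact hc.1 (h.mono (by omega))

end Pool.Agent.CA31
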