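import Pool.Agent.CA31.Defs

/-!
# CA31-EXT: greedy extension of a colouring

`F` = uncoloured vertices, `Z` = vertices (outside `F`) whose colours are forbidden for all of `F`.
Colour the vertices of `F` in increasing order of `key`.  When `f ∈ F` is coloured, it avoids all colours of `Z` and the colours
of its neighbours outside `F ∪ Z` and of its neighbours in `F` with smaller key; by `hdeg` fewer than `k` colours are forbidden.
Proof in Lean: show by induction on `n` that for every `F' ⊆ F` which is downward closed in `F` for `key`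
(`∀ f ∈ F', ∀ g ∈ F, key g < key f → g ∈ F'`) with `F'.card = n` there is `φ : V → ℕ` agreeing with the given colouring `φ₀` outside `F`,
`φ v < k` for `v ∈ (univ \ F) ∪ F'`, proper on `(univ \ F) ∪ F'`, and `φ f ≠ φ₀ z` for `f ∈ F'`, `z ∈ Z`.
Step: remove from `F'` its element `f` of largest key, use the induction hypothesis, choose a colour `< k` outside the image of `φ₀` on `Z` and the image
of `φ` on the filtered set of `hdeg` (use `Finset.exists_mem_notMem_of_card_lt_card` with `range k`), `Function.update`.
-/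

set_option autoImplicit false

namespace Pool.Agent.CA31

open Finset
open scoped Classical

theorem ext {V : Type} [Fintype V] (G : SimpleGraph V) (F Z : Finset V) (key : V → ℤ) (k : ℕ)
    (hkey : Set.InjOn key F) (hFZ : Disjoint F Z)
    (hdeg : ∀ f ∈ F, (univ.filter (fun g => G.Adj f g ∧
      ((g ∉ F ∧ g ∉ Z) ∨ (g ∈ F ∧ key g < key f)))).card + Z.card < k)
    (h : ColOn G (univ \ F) k) : ColOn G univ k := by
  obtain ⟨φ₀, h1, h2⟩ := h
  have key1 : ∀ n : ℕ, ∀ F' : Finset V, F' ⊆ F → F'.card = n →
      (∀ f ∈ F', ∀ g ∈ F, key g < key f → g ∈ F') →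
      ∃ φ : V → ℕ, (∀ v, v ∉ F → φ v = φ₀ v) ∧ (∀ f ∈ F', φ f < k) ∧
        (∀ f ∈ F', ∀ z ∈ Z, φ f ≠ φ₀ z) ∧
        (∀ f ∈ F', ∀ g, (g ∉ F ∨ g ∈ F') → G.Adj f g → φ f ≠ φ g) := by
    intro n
    induction n with
    | zero =>
      intro F' _ hc _
      have hF' : F' = ∅ := Finset.card_eq_zero.1 hc
      subst hF'
      refine ⟨φ₀, fun _ _ => rfl, ?_, ?_, ?_⟩ <;> intro f hf <;> simp at hf
    | succ n ih =>
      intro F' hsub hc hdown
      have hne : F'.Nonempty := by
        rw [← Finset.card_pos]; omega
      obtain ⟨f, hf, hmax⟩ := Finset.exists_max_image F' key hne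
      have hlt : ∀ g ∈ F', g ≠ f → key g < key f := by
        intro g hg hgf
        refine lt_of_le_of_ne (hmax g hg) fun he => hgf ?_
        exact hkey (hsub hg) (hsub hf) he
      obtain ⟨φ, e1, e2, e3, e4⟩ := ih (F'.erase f) ((Finset.erase_subset _ _).trans hsub)
        (by rw [Finset.card_erase_of_mem hf]; omega)
        (by
          intro f' hf' g hg hgf'
          rw [Finset.mem_erase] at hf' ⊢
          refine ⟨?_, hdown f' hf'.2 g hg hgf'⟩
          rintro rfl
          have := hmax f' hf'.2
          omega)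
      obtain ⟨c, hc1, hc2⟩ : ∃ c ∈ range k, c ∉ (univ.filter (fun g => G.Adj f g ∧
          ((g ∉ F ∧ g ∉ Z) ∨ (g ∈ F ∧ key g < key f)))).image φ ∪ Z.image φ₀ := by
        refine Finset.exists_mem_notMem_of_card_lt_card ?_
        rw [card_range]
        refine lt_of_le_of_lt (card_union_le _ _) ?_
        exact lt_of_le_of_lt (add_le_add card_image_le card_image_le) (hdeg f (hsub hf))
      rw [mem_range] at hc1
      rw [mem_union, not_or, mem_image, mem_image] at hc2
      obtain ⟨hc2, hc3⟩ := hc2
      have hN : ∀ g, G.Adj f g → ((g ∉ F ∧ g ∉ Z) ∨ (g ∈ F ∧ key g < key f)) → c ≠ φ g := by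
        intro g hg hg' he
        exact hc2 ⟨g, mem_filter.2 ⟨mem_univ _, hg, hg'⟩, he.symm⟩
      have hZ : ∀ z ∈ Z, c ≠ φ₀ z := fun z hz he => hc3 ⟨z, hz, he.symm⟩
      refine ⟨Function.update φ f c, ?_, ?_, ?_, ?_⟩
      · intro v hv
        rw [Function.update_of_ne (by rintro rfl; exact hv (hsub hf))]
        exact e1 v hv
      · intro f' hf'
        by_cases h : f' = f
        · subst h; rw [Function.update_self]; exact hc1
        · rw [Function.update_of_ne h]; exact e2 f' (mem_erase.2 ⟨h, hf'⟩)
      · intro f' hf'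
        by_cases h : f' = f
        · subst h; rw [Function.update_self]; exact hZ
        · rw [Function.update_of_ne h]; exact e3 f' (mem_erase.2 ⟨h, hf'⟩)
      · intro f' hf' g hg hadj
        by_cases h : f' = f
        · subst h
          have hgf : g ≠ f' := hadj.ne'
          rw [Function.update_self, Function.update_of_ne hgf]
          rcases hg with hg | hg
          · by_cases hz : g ∈ Z
            · rw [e1 g hg]; exact hZ g hz
            · exact hN g hadj (Or.inl ⟨hg, hz⟩)
          · exact hN g hadj (Or.inr ⟨hsub hg, hlt g hg hgf⟩)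
        · rw [Function.update_of_ne h]
          by_cases hgf : g = f
          · subst hgf
            rw [Function.update_self]
            exact (hN f' hadj.symm (Or.inr ⟨hsub hf', hlt f' hf' h⟩)).symm
          · rw [Function.update_of_ne hgf]
            refine e4 f' (mem_erase.2 ⟨h, hf'⟩) g ?_ hadj
            rcases hg with hg | hg
            · exact Or.inl hg
            · exact Or.inr (mem_erase.2 ⟨hgf, hg⟩)
  obtain ⟨φ, e1, e2, _, e4⟩ := key1 _ F (Finset.Subset.refl _) rfl (fun _ _ g hg _ => hg)
  refine ⟨φ, ?_, ?_⟩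
  · intro v _
    by_cases hv : v ∈ F
    · exact e2 v hv
    · rw [e1 v hv]; exact h1 v (mem_sdiff.2 ⟨mem_univ _, hv⟩)
  · intro u _ v _ hadj
    by_cases hu : u ∈ F
    · refine e4 u hu v ?_ hadj
      by_cases hv : v ∈ F
      · exact Or.inr hv
      · exact Or.inl hv
    · by_cases hv : v ∈ F
      · exact (e4 v hv u (Or.inl hu) hadj.symm).symm
      · rw [e1 u hu, e1 v hv]
        exact h2 u (mem_sdiff.2 ⟨mem_univ _, hu⟩) v (mem_sdiff.2 ⟨mem_univ _, hv⟩) hadj

end Pool.Agent.CA31
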