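import Pool.Agent.CA31.Rev

/-!
# CA31-FF: first fit for the H-arcs

`firstFit`: colour the H-arcs in the order of their openings, each with the smallest colour not used by the H-arcs through the position
`M.o h + 1` (just after the opening of `h`) that opened before.  Among those there are `(M.H (M.o h + 1)).card - 1`, so the colour is
`< (M.H (M.o h + 1)).card`.  Proof in Lean: strong induction along `M.o` (e.g. show by induction on `n` that there is `τ : V → ℕ` satisfying both
statements for the H-arcs with `M.o h < n`; step: at most one H-arc `h` has `M.o h = n` (`M.o_inj`); the images under `τ` of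
`(M.H (n+1)).erase h` miss some number `< (M.H (n+1)).card` (pigeonhole); `Function.update`.  If `h'` has `M.o h' < n` and meets `h`
(`M.o h < M.c h'`, `M.o h' < M.c h`) then `h' ∈ (M.H (n+1)).erase h`.  Finally take `n` larger than all events (`Model.exists_bound`).

`firstFit'`: apply `firstFit` to `M.rev N hN` (`Model.exists_bound`, `rev_o`, `rev_c`, `rev_isH`, `rev_H`:
`(M.rev N hN).H ((M.rev N hN).o h + 1) = M.H (M.c h)`).
-/

set_option autoImplicit false

namespace Pool.Agent.CA31

open Finset
open scoped Classical

variable {V : Type} [Fintype V]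

private theorem firstFit_aux (M : Model V) (n : ℕ) : ∃ τ : V → ℕ,
    (∀ h, M.IsH h → M.o h < n → τ h < (M.H (M.o h + 1)).card) ∧
    ∀ h h', M.IsH h → M.IsH h' → M.o h < n → M.o h' < n → h ≠ h' → M.o h < M.c h' →
      M.o h' < M.c h → τ h ≠ τ h' := by
  induction n with
  | zero => exact ⟨fun _ => 0, fun h _ h1 => absurd h1 (Nat.not_lt_zero _),
      fun h h' _ _ h1 => absurd h1 (Nat.not_lt_zero _)⟩
  | succ n ih =>
    obtain ⟨τ, h1, h2⟩ := ih
    by_cases hex : ∃ h0, M.IsH h0 ∧ M.o h0 = n
    · obtain ⟨h0, hH, ho⟩ := hex
      have hmem : h0 ∈ M.H (n + 1) := by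
        rw [Model.mem_H]
        unfold Model.IsH at *
        omega
      have hcard : (((M.H (n + 1)).erase h0).image τ).card < (range (M.H (n + 1)).card).card := by
        rw [card_range]
        refine lt_of_le_of_lt card_image_le ?_
        exact card_erase_lt_of_mem hmem
      obtain ⟨x, hx, hx'⟩ := exists_mem_notMem_of_card_lt_card hcard
      rw [mem_range] at hx
      have hlt : ∀ h, M.o h < n + 1 → h ≠ h0 → M.o h < n := by
        intro h hh hne
        rcases Nat.lt_succ_iff_lt_or_eq.1 hh with h' | h'
        · exact h'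
        · exact absurd (M.o_inj (h'.trans ho.symm)) hne
      have hne : ∀ h, M.IsH h → M.o h < n → M.o h0 < M.c h → h ≠ h0 → τ h ≠ x := by
        intro h hh hn hc hne he
        apply hx'
        rw [← he]
        refine mem_image_of_mem τ (mem_erase.2 ⟨hne, ?_⟩)
        rw [Model.mem_H]
        refine ⟨hh, ?_, ?_⟩ <;> omega
      refine ⟨Function.update τ h0 x, ?_, ?_⟩
      · intro h hh hn
        by_cases he : h = h0
        · subst he
          rw [Function.update_self, ho]
          exact hx
        · rw [Function.update_of_ne he]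
          exact h1 h hh (hlt h hn he)
      · intro h h' hh hh' hn hn' hne' hc hc'
        by_cases he : h = h0
        · subst he
          have he' : h' ≠ h := Ne.symm hne'
          rw [Function.update_self, Function.update_of_ne he']
          exact (hne h' hh' (hlt h' hn' he') hc he').symm
        · by_cases he' : h' = h0
          · subst he'
            rw [Function.update_self, Function.update_of_ne he]
            exact hne h hh (hlt h hn he) hc' he
          · rw [Function.update_of_ne he, Function.update_of_ne he']
            exact h2 h h' hh hh' (hlt h hn he) (hlt h' hn' he') hne' hc hc'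
    · have hlt : ∀ h, M.IsH h → M.o h < n + 1 → M.o h < n := by
        intro h hh hn
        rcases Nat.lt_succ_iff_lt_or_eq.1 hn with h' | h'
        · exact h'
        · exact absurd ⟨h, hh, h'⟩ hex
      exact ⟨τ, fun h hh hn => h1 h hh (hlt h hh hn), fun h h' hh hh' hn hn' =>
        h2 h h' hh hh' (hlt h hh hn) (hlt h' hh' hn')⟩

theorem firstFit (M : Model V) : ∃ τ : V → ℕ,
    (∀ h, M.IsH h → τ h < (M.H (M.o h + 1)).card) ∧
    ∀ h h', M.IsH h → M.IsH h' → h ≠ h' → M.o h < M.c h' → M.o h' < M.c h → τ h ≠ τ h' := by
  obtain ⟨N, hN⟩ := Model.exists_bound M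
  obtain ⟨τ, h1, h2⟩ := firstFit_aux M N
  exact ⟨τ, fun h hh => h1 h hh (hN h).1, fun h h' hh hh' => h2 h h' hh hh' (hN h).1 (hN h').1⟩

theorem firstFit' (M : Model V) : ∃ τ : V → ℕ,
    (∀ h, M.IsH h → τ h < (M.H (M.c h)).card) ∧
    ∀ h h', M.IsH h → M.IsH h' → h ≠ h' → M.o h < M.c h' → M.o h' < M.c h → τ h ≠ τ h' := by
  obtain ⟨N, hN⟩ := Model.exists_bound M
  obtain ⟨τ, h1, h2⟩ := firstFit (M.rev N hN)
  refine ⟨τ, fun h hh => ?_, fun h h' hh hh' hne hc hc' => ?_⟩
  · have h3 := h1 h (Model.rev_isH.2 hh)
    have h4 : (M.rev N hN).o h + 1 = N - M.c h := by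
      have := hN h
      rw [Model.rev_o]
      omega
    rwa [h4, Model.rev_H (hN h).2.le] at h3
  · refine h2 h h' (Model.rev_isH.2 hh) (Model.rev_isH.2 hh') hne ?_ ?_
    · have := hN h
      have := hN h'
      rw [Model.rev_o, Model.rev_c]
      omega
    · have := hN h
      have := hN h'
      rw [Model.rev_o, Model.rev_c]
      omega

end Pool.Agent.CA31
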