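import Pool.Agent.CA31.Defs

/-!
# CA31-SEL: selection of the arcs through `y` by Hall's theorem

For `x` in `[u,v]` let `need x := q - (M.H x \ M.H y).card` (in `ℕ`).  For `i < q` (slot `i`, meaning need ≥ i+1) let
`x_i` := the smallest `x ∈ [u,y]` with `need x ≥ i+1` (exists: `need y = q`), `y_i` := the largest `x ∈ [y,v]` with `need x ≥ i+1`.
Hall's theorem (`Finset.all_card_le_biUnion_card_iff_exists_injective`) for `ι = Fin q ⊕ Fin q`, `N (inl i) = M.H y ∩ M.H x_i`, `N (inr j) = M.H y ∩ M.H y_j`.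
`x_i` is increasing in `i`, so `N (inl i)` is increasing in `i` (an H-arc through `y` contains `x ≤ y` iff `M.o h < x`); the same for `inr`
(an H-arc through `y` contains `x ≥ y` iff `x ≤ M.c h`; `y_j` decreases).
Let `S ⊆ ι`.  If `S` has left slots with maximum `i` and right slots with maximum `j` then `|S| ≤ (i+1) + (j+1)` and the union contains
`M.H y ∩ (M.H x_i ∪ M.H y_j)`, which has at least `2q - |M.H x_i \ M.H y| - |M.H y_j \ M.H y| ≥ 2q - (q-i-1) - (q-j-1)` elements (`hy`).
If `S` has only left slots, maximum `i`: `|M.H y ∩ M.H x_i| ≥ q - (q-i-1) = i+1` (`hr`); the same for only right slots.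
With the injection `e : ι → V`, `e s ∈ N s`, put `P := image (e ∘ inl)`, `Q := image (e ∘ inr)`.
For `x ∈ [u,y]` with `need x = n`: `x_i ≤ x` for all `i < n`, so `e (inl i) ∈ M.H x` for `i < n`: `(P ∩ M.H x).card ≥ n`.  Same on the right.
-/

set_option autoImplicit false

namespace Pool.Agent.CA31

open Finset
open scoped Classical

variable {V : Type} [Fintype V]

private theorem sel_card_fin {q : ℕ} (s : Finset (Fin q)) (i : Fin q) (h : ∀ j ∈ s, j ≤ i) :
    s.card ≤ (i : ℕ) + 1 := by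
  have h1 : s ⊆ Finset.Iic i := fun j hj => Finset.mem_Iic.2 (h j hj)
  have h2 := card_le_card h1
  rwa [Fin.card_Iic] at h2

private theorem sel_image {q n : ℕ} (f : Fin q → V) (hf : Function.Injective f) (hn : n ≤ q)
    (T : Finset V) (h : ∀ i : Fin q, (i : ℕ) < n → f i ∈ T) :
    n ≤ ((univ.image f) ∩ T).card := by
  have h1 : (univ.filter fun i : Fin q => (i : ℕ) < n).image f ⊆ (univ.image f) ∩ T := by
    intro x hx
    rw [mem_image] at hx
    obtain ⟨i, hi, rfl⟩ := hx
    rw [mem_filter] at hi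
    exact mem_inter.2 ⟨mem_image_of_mem f (mem_univ i), h i hi.2⟩
  have h2 := card_le_card h1
  rw [card_image_of_injective _ hf, Fin.card_filter_val_lt] at h2
  omega

theorem select (M : Model V) {q u y v : ℕ} (huy : u ≤ y) (hyv : y ≤ v)
    (hr : ∀ x, u ≤ x → x ≤ v → q ≤ (M.H x).card)
    (hy : ∀ x₁ x₂, u ≤ x₁ → x₁ ≤ y → y ≤ x₂ → x₂ ≤ v → 2 * q ≤ (M.H x₁ ∪ M.H x₂).card) :
    ∃ P Q : Finset V, P ⊆ M.H y ∧ Q ⊆ M.H y ∧ Disjoint P Q ∧
      (∀ x, u ≤ x → x ≤ y → q ≤ (M.H x \ M.H y).card + (P ∩ M.H x).card) ∧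
      (∀ x, y ≤ x → x ≤ v → q ≤ (M.H x \ M.H y).card + (Q ∩ M.H x).card) := by
  have hyy : (M.H y \ M.H y).card = 0 := by rw [sdiff_self]; exact card_empty
  -- the positions of the slots
  have hL : ∀ i : Fin q, ∃ x, (u ≤ x ∧ x ≤ y ∧ (i : ℕ) + 1 + (M.H x \ M.H y).card ≤ q) ∧
      ∀ x', u ≤ x' → x' ≤ y → (i : ℕ) + 1 + (M.H x' \ M.H y).card ≤ q → x ≤ x' := by
    intro i
    have hex : ((Icc u y).filter fun x => (i : ℕ) + 1 + (M.H x \ M.H y).card ≤ q).Nonempty := by
      refine ⟨y, mem_filter.2 ⟨mem_Icc.2 ⟨huy, le_rfl⟩, ?_⟩⟩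
      have := i.2
      omega
    obtain ⟨x, hx, hmin⟩ := exists_min_image _ id hex
    rw [mem_filter, mem_Icc] at hx
    refine ⟨x, ⟨hx.1.1, hx.1.2, hx.2⟩, fun x' h1 h2 h3 => ?_⟩
    exact hmin x' (mem_filter.2 ⟨mem_Icc.2 ⟨h1, h2⟩, h3⟩)
  have hR : ∀ i : Fin q, ∃ x, (y ≤ x ∧ x ≤ v ∧ (i : ℕ) + 1 + (M.H x \ M.H y).card ≤ q) ∧
      ∀ x', y ≤ x' → x' ≤ v → (i : ℕ) + 1 + (M.H x' \ M.H y).card ≤ q → x' ≤ x := by
    intro i
    have hex : ((Icc y v).filter fun x => (i : ℕ) + 1 + (M.H x \ M.H y).card ≤ q).Nonempty := by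
      refine ⟨y, mem_filter.2 ⟨mem_Icc.2 ⟨le_rfl, hyv⟩, ?_⟩⟩
      have := i.2
      omega
    obtain ⟨x, hx, hmax⟩ := exists_max_image _ id hex
    rw [mem_filter, mem_Icc] at hx
    refine ⟨x, ⟨hx.1.1, hx.1.2, hx.2⟩, fun x' h1 h2 h3 => ?_⟩
    exact hmax x' (mem_filter.2 ⟨mem_Icc.2 ⟨h1, h2⟩, h3⟩)
  choose xl hxl hxlmin using hL
  choose xr hxr hxrmax using hR
  set N : Fin q ⊕ Fin q → Finset V :=
    Sum.elim (fun i => M.H y ∩ M.H (xl i)) (fun j => M.H y ∩ M.H (xr j)) with hN
  have hHall : ∀ s : Finset (Fin q ⊕ Fin q), s.card ≤ (s.biUnion N).card := by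
    intro s
    have hs : s.card = s.toLeft.card + s.toRight.card := (card_toLeft_add_card_toRight).symm
    have hsubL : ∀ i ∈ s.toLeft, M.H y ∩ M.H (xl i) ⊆ s.biUnion N := by
      intro i hi
      exact subset_biUnion_of_mem N (mem_toLeft.1 hi)
    have hsubR : ∀ i ∈ s.toRight, M.H y ∩ M.H (xr i) ⊆ s.biUnion N := by
      intro i hi
      exact subset_biUnion_of_mem N (mem_toRight.1 hi)
    have hone : ∀ (x i : ℕ), u ≤ x → x ≤ v → i + 1 + (M.H x \ M.H y).card ≤ q →
        i + 1 ≤ (M.H y ∩ M.H x).card := by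
      intro x i h1 h2 h3
      have h4 := hr x h1 h2
      have h5 := card_sdiff_add_card_inter (M.H x) (M.H y)
      rw [inter_comm] at h5
      omega
    rcases s.toLeft.eq_empty_or_nonempty with hl | hl
    · rcases s.toRight.eq_empty_or_nonempty with hr' | hr'
      · rw [hs, hl, hr']
        simp
      · obtain ⟨j, hj, hjmax⟩ := exists_max_image s.toRight id hr'
        have h1 := sel_card_fin s.toRight j hjmax
        have h2 := hone (xr j) j (huy.trans (hxr j).1) (hxr j).2.1 (hxr j).2.2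
        have h3 := card_le_card (hsubR j hj)
        rw [hs, hl, card_empty]
        omega
    · obtain ⟨i, hi, himax⟩ := exists_max_image s.toLeft id hl
      have h1 := sel_card_fin s.toLeft i himax
      rcases s.toRight.eq_empty_or_nonempty with hr' | hr'
      · have h2 := hone (xl i) i (hxl i).1 ((hxl i).2.1.trans hyv) (hxl i).2.2
        have h3 := card_le_card (hsubL i hi)
        rw [hs, hr', card_empty]
        omega
      · obtain ⟨j, hj, hjmax⟩ := exists_max_image s.toRight id hr'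
        have h1' := sel_card_fin s.toRight j hjmax
        have h2 := hy (xl i) (xr j) (hxl i).1 (hxl i).2.1 (hxr j).1 (hxr j).2.1
        have h3 : M.H (xl i) ∪ M.H (xr j) ⊆ s.biUnion N ∪
            ((M.H (xl i) \ M.H y) ∪ (M.H (xr j) \ M.H y)) := by
          intro w hw
          rw [mem_union] at hw
          by_cases hwy : w ∈ M.H y
          · rcases hw with hw | hw
            · exact mem_union_left _ (hsubL i hi (mem_inter.2 ⟨hwy, hw⟩))
            · exact mem_union_left _ (hsubR j hj (mem_inter.2 ⟨hwy, hw⟩))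
          · rcases hw with hw | hw
            · exact mem_union_right _ (mem_union_left _ (mem_sdiff.2 ⟨hw, hwy⟩))
            · exact mem_union_right _ (mem_union_right _ (mem_sdiff.2 ⟨hw, hwy⟩))
        have h4 := card_le_card h3
        have h5 := card_union_le (s.biUnion N) ((M.H (xl i) \ M.H y) ∪ (M.H (xr j) \ M.H y))
        have h6 := card_union_le (M.H (xl i) \ M.H y) (M.H (xr j) \ M.H y)
        have h7 := (hxl i).2.2
        have h8 := (hxr j).2.2
        rw [hs]
        omega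
  obtain ⟨e, he, heN⟩ := (Finset.all_card_le_biUnion_card_iff_exists_injective N).1 hHall
  have heL : ∀ i, e (Sum.inl i) ∈ M.H y ∩ M.H (xl i) := fun i => heN (Sum.inl i)
  have heR : ∀ i, e (Sum.inr i) ∈ M.H y ∩ M.H (xr i) := fun i => heN (Sum.inr i)
  refine ⟨univ.image (fun i => e (Sum.inl i)), univ.image (fun i => e (Sum.inr i)), ?_, ?_, ?_, ?_, ?_⟩
  · intro w hw
    rw [mem_image] at hw
    obtain ⟨i, -, rfl⟩ := hw
    exact (mem_inter.1 (heL i)).1
  · intro w hw
    rw [mem_image] at hw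
    obtain ⟨i, -, rfl⟩ := hw
    exact (mem_inter.1 (heR i)).1
  · rw [Finset.disjoint_left]
    intro w hw hw'
    rw [mem_image] at hw hw'
    obtain ⟨i, -, rfl⟩ := hw
    obtain ⟨j, -, hj⟩ := hw'
    exact absurd (he hj) (by simp)
  · intro x hx1 hx2
    have h1 := sel_image (q := q) (n := q - (M.H x \ M.H y).card) (fun i => e (Sum.inl i))
      (fun i j hij => Sum.inl_injective (he hij)) (Nat.sub_le _ _) (M.H x) (by
        intro i hi
        have h2 := hxlmin i x hx1 hx2 (by omega)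
        have h3 := mem_inter.1 (heL i)
        rw [Model.mem_H, Model.mem_H] at h3
        rw [Model.mem_H]
        exact ⟨h3.1.1, by omega, by omega⟩)
    omega
  · intro x hx1 hx2
    have h1 := sel_image (q := q) (n := q - (M.H x \ M.H y).card) (fun i => e (Sum.inr i))
      (fun i j hij => Sum.inr_injective (he hij)) (Nat.sub_le _ _) (M.H x) (by
        intro i hi
        have h2 := hxrmax i x hx1 hx2 (by omega)
        have h3 := mem_inter.1 (heR i)
        rw [Model.mem_H, Model.mem_H] at h3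
        rw [Model.mem_H]
        exact ⟨h3.1.1, by omega, by omega⟩)
    omega

end Pool.Agent.CA31
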