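import Pool.Agent.CA31.Chains
import Pool.Agent.CA31.Select

/-!
# CA31-LNK: `2q` disjoint chains from `H u` and `H v` to `H y`

`select` gives `P, Q`.  `𝓕L := {h | IsH h ∧ c h < y} ∪ P`, `𝓕R := {h | IsH h ∧ y ≤ o h} ∪ Q`.  For `x ∈ [u,y]`:
`𝓕L ∩ M.H x ⊇ (M.H x \ M.H y) ∪ (P ∩ M.H x)` (disjoint union, as `P ⊆ M.H y`), so it has `≥ q` elements; `𝓕L ∩ M.H u ⊆ M.H u` has exactly `q` elements, so `𝓕L ∩ M.H u = M.H u`.
Apply `chains` to `𝓕L`, and `chains'` to `𝓕R`.  `𝓕L` and `𝓕R` are disjoint (`c h < y ≤ o h` is impossible for H-arcs; members of `P`, `Q` contain `y`; `P`, `Q` disjoint).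
-/

set_option autoImplicit false

namespace Pool.Agent.CA31

open Finset
open scoped Classical

variable {V : Type} [Fintype V] {M : Model V} {G : SimpleGraph V}

theorem link (hG : M.IsModelOf G) {q u y v : ℕ} (huy : u ≤ y) (hyv : y ≤ v)
    (hu : (M.H u).card = q) (hv : (M.H v).card = q)
    (hr : ∀ x, u ≤ x → x ≤ v → q ≤ (M.H x).card)
    (hy : ∀ x₁ x₂, u ≤ x₁ → x₁ ≤ y → y ≤ x₂ → x₂ ≤ v → 2 * q ≤ (M.H x₁ ∪ M.H x₂).card) :
    ∃ C D : V → Finset V,
      (∀ s ∈ M.H u, s ∈ C s ∧ (G.induce (C s : Set V)).Connected ∧ (∃ t ∈ C s, t ∈ M.H y) ∧ ∀ x ∈ C s, M.IsH x) ∧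
      (∀ s ∈ M.H u, ∀ s' ∈ M.H u, s ≠ s' → Disjoint (C s) (C s')) ∧
      (∀ s ∈ M.H v, s ∈ D s ∧ (G.induce (D s : Set V)).Connected ∧ (∃ t ∈ D s, t ∈ M.H y) ∧ ∀ x ∈ D s, M.IsH x) ∧
      (∀ s ∈ M.H v, ∀ s' ∈ M.H v, s ≠ s' → Disjoint (D s) (D s')) ∧
      (∀ s ∈ M.H u, ∀ s' ∈ M.H v, Disjoint (C s) (D s')) := by
  obtain ⟨P, Q, hP, hQ, hPQ, h1, h2⟩ := select M huy hyv hr hy
  obtain ⟨FL, hFLdef⟩ : ∃ FL : Finset V, FL = (univ.filter fun h => M.IsH h ∧ M.c h < y) ∪ P := ⟨_, rfl⟩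
  obtain ⟨FR, hFRdef⟩ : ∃ FR : Finset V, FR = (univ.filter fun h => M.IsH h ∧ y ≤ M.o h) ∪ Q := ⟨_, rfl⟩
  have memL : ∀ h, h ∈ FL ↔ (M.IsH h ∧ M.c h < y) ∨ h ∈ P := by
    intro h
    rw [hFLdef, mem_union, mem_filter]
    simp
  have memR : ∀ h, h ∈ FR ↔ (M.IsH h ∧ y ≤ M.o h) ∨ h ∈ Q := by
    intro h
    rw [hFRdef, mem_union, mem_filter]
    simp
  have hL : ∀ h ∈ FL, M.IsH h := by
    intro h hh
    rcases (memL h).1 hh with h' | h'
    · exact h'.1
    · exact (Model.mem_H.1 (hP h')).1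
  have hR : ∀ h ∈ FR, M.IsH h := by
    intro h hh
    rcases (memR h).1 hh with h' | h'
    · exact h'.1
    · exact (Model.mem_H.1 (hQ h')).1
  have hdisj : Disjoint FL FR := by
    rw [Finset.disjoint_left]
    intro h ha hb
    rcases (memL h).1 ha with ha' | ha'
    · rcases (memR h).1 hb with hb' | hb'
      · have h3 := ha'.1
        unfold Model.IsH at h3
        omega
      · have h3 := Model.mem_H.1 (hQ hb')
        omega
    · rcases (memR h).1 hb with hb' | hb'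
      · have h3 := Model.mem_H.1 (hP ha')
        omega
      · exact (Finset.disjoint_left.1 hPQ) ha' hb'
  have cL : ∀ x, u ≤ x → x ≤ y → q ≤ (FL ∩ M.H x).card := by
    intro x hux hxy
    have hd : Disjoint (M.H x \ M.H y) (P ∩ M.H x) := by
      rw [Finset.disjoint_left]
      intro h ha hb
      exact (mem_sdiff.1 ha).2 (hP (mem_inter.1 hb).1)
    have hs : (M.H x \ M.H y) ∪ (P ∩ M.H x) ⊆ FL ∩ M.H x := by
      intro h hh
      rcases mem_union.1 hh with hh | hh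
      · rw [mem_sdiff] at hh
        have h3 := Model.mem_H.1 hh.1
        rw [mem_inter, memL]
        refine ⟨Or.inl ⟨h3.1, ?_⟩, hh.1⟩
        by_contra hc
        exact hh.2 (Model.mem_H.2 ⟨h3.1, by omega, by omega⟩)
      · rw [mem_inter] at hh
        rw [mem_inter, memL]
        exact ⟨Or.inr hh.1, hh.2⟩
    have h3 := card_le_card hs
    rw [card_union_of_disjoint hd] at h3
    exact (h1 x hux hxy).trans h3
  have cR : ∀ x, y ≤ x → x ≤ v → q ≤ (FR ∩ M.H x).card := by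
    intro x hyx hxv
    have hd : Disjoint (M.H x \ M.H y) (Q ∩ M.H x) := by
      rw [Finset.disjoint_left]
      intro h ha hb
      exact (mem_sdiff.1 ha).2 (hQ (mem_inter.1 hb).1)
    have hs : (M.H x \ M.H y) ∪ (Q ∩ M.H x) ⊆ FR ∩ M.H x := by
      intro h hh
      rcases mem_union.1 hh with hh | hh
      · rw [mem_sdiff] at hh
        have h3 := Model.mem_H.1 hh.1
        rw [mem_inter, memR]
        refine ⟨Or.inl ⟨h3.1, ?_⟩, hh.1⟩
        by_contra hc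
        exact hh.2 (Model.mem_H.2 ⟨h3.1, by omega, by omega⟩)
      · rw [mem_inter] at hh
        rw [mem_inter, memR]
        exact ⟨Or.inr hh.1, hh.2⟩
    have h3 := card_le_card hs
    rw [card_union_of_disjoint hd] at h3
    exact (h2 x hyx hxv).trans h3
  have eL : FL ∩ M.H u = M.H u := by
    refine Finset.eq_of_subset_of_card_le inter_subset_right ?_
    rw [hu]
    exact cL u le_rfl huy
  have eR : FR ∩ M.H v = M.H v := by
    refine Finset.eq_of_subset_of_card_le inter_subset_right ?_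
    rw [hv]
    exact cR v hyv le_rfl
  obtain ⟨C, hC1, hC2⟩ := chains hG FL hL huy (by rw [eL]; exact hu) cL
  obtain ⟨D, hD1, hD2⟩ := chains' hG FR hR hyv (by rw [eR]; exact hv) cR
  rw [eL] at hC1 hC2
  rw [eR] at hD1 hD2
  refine ⟨C, D, ?_, hC2, ?_, hD2, ?_⟩
  · intro s hs
    obtain ⟨a1, a2, a3, a4⟩ := hC1 s hs
    exact ⟨a1, a3, a4, fun x hx => hL x (a2 hx)⟩
  · intro s hs
    obtain ⟨a1, a2, a3, a4⟩ := hD1 s hs
    exact ⟨a1, a3, a4, fun x hx => hR x (a2 hx)⟩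
  · intro s hs s' hs'
    exact Finset.disjoint_of_subset_left (hC1 s hs).2.1
      (Finset.disjoint_of_subset_right (hD1 s' hs').2.1 hdisj)

end Pool.Agent.CA31
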