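import Pool.Agent.CA31.Ext

/-!
# CA31-REFILL: the refill lemma

`F a b` = H-arcs strictly between the positions `a` and `b`; `β a b` = arcs through `b` which open between `a` and `b`
(arcs through `b` not containing the whole stretch `[a,b]`); `β' a b` = arcs through `a` which close between `a` and `b`.
-/

set_option autoImplicit false

namespace Pool.Agent.CA31

open Finset
open scoped Classical

variable {V : Type} [Fintype V]

/-- H-arcs strictly between the positions `a` and `b` (containing neither) -/
noncomputable def Model.F (M : Model V) (a b : ℕ) : Finset V :=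
  univ.filter (fun v => M.IsH v ∧ a ≤ M.o v ∧ M.c v < b)

noncomputable def Model.β (M : Model V) (a b : ℕ) : Finset V :=
  univ.filter (fun v => a ≤ M.o v ∧ M.o v < b ∧ (M.IsA v ∨ b ≤ M.c v))

noncomputable def Model.β' (M : Model V) (a b : ℕ) : Finset V :=
  univ.filter (fun v => a ≤ M.c v ∧ M.c v < b ∧ (M.IsA v ∨ M.o v < a))

variable {M : Model V} {G : SimpleGraph V}

/-- Apply `ext` with `F = M.F a b`, `Z = M.β a b`, `key = M.o`.  For `f ∈ F` every neighbour `g` counted in `hdeg` contains the
position `M.o f + 1` (so together with `f` there are at most `M.A.card` of them, by `hM`; hence the filtered set has at most `M.A.card - 1` elements):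
`g` and `f` share a position `t`, `M.o f < t ≤ M.c f`.  If `g` does not contain `M.o f + 1` then `M.o f < M.o g < t`
(H-arc: interval; A-arc: `M.c g < M.o f + 1`, so `M.o g < t` and `M.o f + 1 ≤ M.o g`).  If `g ∈ F` this contradicts `key g < key f`; if `g ∉ F`
then `a ≤ M.o g < b` and (`g` is an A-arc, or `b ≤ M.c g` because `g ∉ F`), so `g ∈ β`. -/
theorem refill (hG : M.IsModelOf G) (hM : M.MaxAtZero) {k a b : ℕ}
    (hb : (M.β a b).card + M.A.card ≤ k) (h : ColOn G (univ \ M.F a b) k) : ColOn G univ k := by
  refine ext G (M.F a b) (M.β a b) (fun v => (M.o v : ℤ)) k ?_ ?_ ?_ h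
  · intro u _ v _ huv
    have : (M.o u : ℤ) = (M.o v : ℤ) := huv
    exact M.o_inj (by exact_mod_cast this)
  · rw [Finset.disjoint_left]
    intro v hv hv'
    simp only [Model.F, Model.β, mem_filter, mem_univ, true_and] at hv hv'
    unfold Model.IsH Model.IsA at *
    omega
  · intro f hf
    simp only [Model.F, mem_filter, mem_univ, true_and] at hf
    have hfH : M.o f < M.c f := hf.1
    have hsub : insert f (univ.filter (fun g => G.Adj f g ∧
        ((g ∉ M.F a b ∧ g ∉ M.β a b) ∨ (g ∈ M.F a b ∧ (M.o g : ℤ) < (M.o f : ℤ))))) ⊆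
        univ.filter (fun v => M.Mem v (M.o f + 1)) := by
      intro g hg
      rw [mem_insert] at hg
      simp only [mem_filter, mem_univ, true_and] at hg ⊢
      rcases hg with rfl | ⟨hadj, hg⟩
      · rw [M.mem_of_isH hf.1]
        omega
      · obtain ⟨-, t, hft, hgt⟩ := (hG f g).1 hadj
        rw [M.mem_of_isH hf.1] at hft
        simp only [Model.F, Model.β, mem_filter, mem_univ, true_and, Nat.cast_lt] at hg
        rcases M.isH_or_isA g with hgH | hgA
        · have hgA : ¬ M.IsA g := M.not_isA.2 hgH
          have hgo : M.o g < M.c g := hgH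
          rw [M.mem_of_isH hgH] at hgt ⊢
          by_contra hc
          simp only [hgH, hgA, true_and, false_or] at hg
          omega
        · have hgH : ¬ M.IsH g := M.not_isH.2 hgA
          rw [M.mem_of_isA hgA] at hgt ⊢
          by_contra hc
          simp only [hgH, hgA, false_and, true_or, and_true, or_false, not_false_eq_true,
            true_and] at hg
          omega
    have hnot : f ∉ univ.filter (fun g => G.Adj f g ∧
        ((g ∉ M.F a b ∧ g ∉ M.β a b) ∨ (g ∈ M.F a b ∧ (M.o g : ℤ) < (M.o f : ℤ)))) := by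
      intro hh
      rw [mem_filter] at hh
      exact G.irrefl hh.2.1
    have hcard := card_le_card hsub
    rw [card_insert_of_notMem hnot] at hcard
    have hmax := hM (M.o f + 1)
    have hx : (univ.filter (fun v => M.Mem v (M.o f + 1))).card ≤ M.A.card := by
      convert hmax
    change (univ.filter (fun g => G.Adj f g ∧
        ((g ∉ M.F a b ∧ g ∉ M.β a b) ∨ (g ∈ M.F a b ∧ (M.o g : ℤ) < (M.o f : ℤ))))).card +
      (M.β a b).card < k
    omega

/-- Mirror image: `key = - M.c`, `Z = M.β' a b`; counted neighbours of `f` contain the position `M.c f`. -/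
theorem refill' (hG : M.IsModelOf G) (hM : M.MaxAtZero) {k a b : ℕ}
    (hb : (M.β' a b).card + M.A.card ≤ k) (h : ColOn G (univ \ M.F a b) k) : ColOn G univ k := by
  refine ext G (M.F a b) (M.β' a b) (fun v => -(M.c v : ℤ)) k ?_ ?_ ?_ h
  · intro u _ v _ huv
    have : -(M.c u : ℤ) = -(M.c v : ℤ) := huv
    exact M.c_inj (by exact_mod_cast neg_injective this)
  · rw [Finset.disjoint_left]
    intro v hv hv'
    simp only [Model.F, Model.β', mem_filter, mem_univ, true_and] at hv hv'
    unfold Model.IsH Model.IsA at *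
    omega
  · intro f hf
    simp only [Model.F, mem_filter, mem_univ, true_and] at hf
    have hfH : M.o f < M.c f := hf.1
    have hsub : insert f (univ.filter (fun g => G.Adj f g ∧
        ((g ∉ M.F a b ∧ g ∉ M.β' a b) ∨ (g ∈ M.F a b ∧ -(M.c g : ℤ) < -(M.c f : ℤ))))) ⊆
        univ.filter (fun v => M.Mem v (M.c f)) := by
      intro g hg
      rw [mem_insert] at hg
      simp only [mem_filter, mem_univ, true_and] at hg ⊢
      rcases hg with rfl | ⟨hadj, hg⟩
      · rw [M.mem_of_isH hf.1]
        omega
      · obtain ⟨-, t, hft, hgt⟩ := (hG f g).1 hadj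
        rw [M.mem_of_isH hf.1] at hft
        simp only [Model.F, Model.β', mem_filter, mem_univ, true_and, neg_lt_neg_iff,
          Nat.cast_lt] at hg
        rcases M.isH_or_isA g with hgH | hgA
        · have hgA : ¬ M.IsA g := M.not_isA.2 hgH
          have hgo : M.o g < M.c g := hgH
          rw [M.mem_of_isH hgH] at hgt ⊢
          by_contra hc
          simp only [hgH, hgA, true_and, false_or] at hg
          omega
        · have hgH : ¬ M.IsH g := M.not_isH.2 hgA
          rw [M.mem_of_isA hgA] at hgt ⊢
          by_contra hc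
          simp only [hgH, hgA, false_and, true_or, and_true, or_false, not_false_eq_true,
            true_and] at hg
          omega
    have hnot : f ∉ univ.filter (fun g => G.Adj f g ∧
        ((g ∉ M.F a b ∧ g ∉ M.β' a b) ∨ (g ∈ M.F a b ∧ -(M.c g : ℤ) < -(M.c f : ℤ)))) := by
      intro hh
      rw [mem_filter] at hh
      exact G.irrefl hh.2.1
    have hcard := card_le_card hsub
    rw [card_insert_of_notMem hnot] at hcard
    have hmax := hM (M.c f)
    have hx : (univ.filter (fun v => M.Mem v (M.c f))).card ≤ M.A.card := by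
      convert hmax
    change (univ.filter (fun g => G.Adj f g ∧
        ((g ∉ M.F a b ∧ g ∉ M.β' a b) ∨ (g ∈ M.F a b ∧ -(M.c g : ℤ) < -(M.c f : ℤ))))).card +
      (M.β' a b).card < k
    omega

theorem F_empty (hG : M.IsModelOf G) (hM : M.MaxAtZero) {k a b : ℕ} (hc : Crit G k)
    (hb : (M.β a b).card + M.A.card ≤ k) : M.F a b = ∅ := by
  classical
  by_contra hne
  refine hc.1 (refill hG hM hb (hc.2 _ ?_))
  intro he
  obtain ⟨v, hv⟩ := Finset.nonempty_iff_ne_empty.2 hne
  have := he ▸ mem_univ v
  simp [hv] at this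

theorem F_empty' (hG : M.IsModelOf G) (hM : M.MaxAtZero) {k a b : ℕ} (hc : Crit G k)
    (hb : (M.β' a b).card + M.A.card ≤ k) : M.F a b = ∅ := by
  classical
  by_contra hne
  refine hc.1 (refill' hG hM hb (hc.2 _ ?_))
  intro he
  obtain ⟨v, hv⟩ := Finset.nonempty_iff_ne_empty.2 hne
  have := he ▸ mem_univ v
  simp [hv] at this

theorem mem_F {v : V} {a b : ℕ} : v ∈ M.F a b ↔ M.IsH v ∧ a ≤ M.o v ∧ M.c v < b := by
  classical
  simp [Model.F]

theorem mem_β {v : V} {a b : ℕ} : v ∈ M.β a b ↔ a ≤ M.o v ∧ M.o v < b ∧ (M.IsA v ∨ b ≤ M.c v) := by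
  classical
  simp [Model.β]

theorem mem_β' {v : V} {a b : ℕ} : v ∈ M.β' a b ↔ a ≤ M.c v ∧ M.c v < b ∧ (M.IsA v ∨ M.o v < a) := by
  classical
  simp [Model.β']

end Pool.Agent.CA31
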