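import Pool.Agent.CA31.Defs

/-!
# CA31-REV: the reversed model

With all events `< N`: event `x` becomes `N-1-x`, position `t ≤ N` becomes `N-t`; openings and closings are exchanged.
-/

set_option autoImplicit false

namespace Pool.Agent.CA31

open Finset

variable {V : Type}

/-- reversed model; `N` bounds all events -/
def Model.rev (M : Model V) (N : ℕ) (hN : ∀ v, M.o v < N ∧ M.c v < N) : Model V where
  o v := N - 1 - M.c v
  c v := N - 1 - M.o v
  o_inj := by
    intro u v h
    have h1 := hN u; have h2 := hN v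
    have h : N - 1 - M.c u = N - 1 - M.c v := h
    apply M.c_inj
    omega
  c_inj := by
    intro u v h
    have h1 := hN u; have h2 := hN v
    have h : N - 1 - M.o u = N - 1 - M.o v := h
    apply M.o_inj
    omega
  o_ne_c := by
    intro u v h
    have h1 := hN u; have h2 := hN v
    have := M.o_ne_c v u
    have h : N - 1 - M.c u = N - 1 - M.o v := h
    omega

namespace Model
variable {M : Model V} {N : ℕ} {hN : ∀ v, M.o v < N ∧ M.c v < N}

theorem rev_o (v : V) : (M.rev N hN).o v = N - 1 - M.c v := rfl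
theorem rev_c (v : V) : (M.rev N hN).c v = N - 1 - M.o v := rfl

theorem rev_isH {v : V} : (M.rev N hN).IsH v ↔ M.IsH v := by
  have := hN v
  unfold IsH; rw [rev_o, rev_c]; omega

theorem rev_isA {v : V} : (M.rev N hN).IsA v ↔ M.IsA v := by
  have := hN v
  unfold IsA; rw [rev_o, rev_c]; omega

theorem rev_mem {v : V} {t : ℕ} (ht : t ≤ N) : (M.rev N hN).Mem v (N - t) ↔ M.Mem v t := by
  have := hN v
  unfold Mem; rw [rev_o, rev_c]; omega

theorem rev_mem' {v : V} {t : ℕ} (ht : t ≤ N) : (M.rev N hN).Mem v t ↔ M.Mem v (N - t) := by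
  have := hN v
  unfold Mem; rw [rev_o, rev_c]; omega

/-- beyond `N` only the A-arcs are present, as at position `0` -/
theorem mem_of_le {v : V} {t : ℕ} (ht : N ≤ t) (hN : ∀ v, M.o v < N ∧ M.c v < N) : M.Mem v t ↔ M.IsA v := by
  have := hN v
  unfold Mem IsA; omega

theorem rev_isModelOf {G : SimpleGraph V} (hG : M.IsModelOf G) : (M.rev N hN).IsModelOf G := by
  intro u v
  rw [hG u v]
  refine and_congr_right fun _ => ?_
  constructor
  · rintro ⟨t, h1, h2⟩
    rcases le_total t N with ht | ht
    · exact ⟨N - t, (rev_mem ht).2 h1, (rev_mem ht).2 h2⟩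
    · refine ⟨0, ?_, ?_⟩
      · rw [Model.mem_zero, rev_isA]; exact (mem_of_le ht hN).1 h1
      · rw [Model.mem_zero, rev_isA]; exact (mem_of_le ht hN).1 h2
  · rintro ⟨t, h1, h2⟩
    rcases le_total t N with ht | ht
    · exact ⟨N - t, (rev_mem' ht).1 h1, (rev_mem' ht).1 h2⟩
    · have hN' : ∀ v, (M.rev N hN).o v < N ∧ (M.rev N hN).c v < N := by
        intro v
        have := hN v
        rw [rev_o, rev_c]; omega
      refine ⟨0, ?_, ?_⟩
      · rw [Model.mem_zero, ← rev_isA (hN := hN)]; exact (mem_of_le ht hN').1 h1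
      · rw [Model.mem_zero, ← rev_isA (hN := hN)]; exact (mem_of_le ht hN').1 h2

theorem rev_normal (h : M.Normal) : (M.rev N hN).Normal := by
  constructor
  · intro a b ha hb
    rw [rev_isA] at ha hb
    have := h.two b a hb ha
    have h1 := hN a; have h2 := hN b
    rw [rev_c, rev_o]; omega
  · intro x a b hx ha hb
    rw [rev_isH] at hx; rw [rev_isA] at ha hb
    have := h.three x b a hx hb ha
    have h1 := hN a; have h2 := hN b; have h3 := hN x
    rw [rev_c, rev_o, rev_c, rev_o]; omega

section fin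
variable [Fintype V]

theorem rev_A : (M.rev N hN).A = M.A := by
  ext v; rw [mem_A, mem_A, rev_isA]

theorem rev_H {t : ℕ} (ht : t ≤ N) : (M.rev N hN).H (N - t) = M.H t := by
  ext v
  rw [mem_H, mem_H, rev_isH]
  refine and_congr_right fun hv => ?_
  have := hN v
  rw [rev_o, rev_c]
  unfold IsH at hv
  omega

theorem rev_H' {t : ℕ} (ht : t ≤ N) : (M.rev N hN).H t = M.H (N - t) := by
  have := rev_H (M := M) (hN := hN) (t := N - t) (Nat.sub_le _ _)
  rwa [Nat.sub_sub_self ht] at this

theorem rev_maxAtZero (h : M.MaxAtZero) : (M.rev N hN).MaxAtZero := by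
  classical
  intro t
  rw [rev_A]
  rcases le_total t N with ht | ht
  · refine le_trans (le_of_eq ?_) (h (N - t))
    congr 1
    ext v
    simp only [mem_filter, mem_univ, true_and]
    exact rev_mem' ht
  · have hN' : ∀ v, (M.rev N hN).o v < N ∧ (M.rev N hN).c v < N := by
      intro v
      have := hN v
      rw [rev_o, rev_c]; omega
    refine le_trans (le_of_eq ?_) (h 0)
    congr 1
    ext v
    simp only [mem_filter, mem_univ, true_and]
    rw [mem_of_le ht hN', M.mem_zero, rev_isA]

end fin

/-- a bound for all events -/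
theorem exists_bound [Fintype V] (M : Model V) : ∃ N, ∀ v, M.o v < N ∧ M.c v < N := by
  classical
  refine ⟨univ.sup M.o + univ.sup M.c + 1, fun v => ?_⟩
  have h1 : M.o v ≤ univ.sup M.o := Finset.le_sup (mem_univ v)
  have h2 : M.c v ≤ univ.sup M.c := Finset.le_sup (mem_univ v)
  omega

end Model

end Pool.Agent.CA31
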