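import Pool.Agent.CA31.Refill
import Pool.Agent.CA31.Rev

/-!
# CA31-REG: the region where at least `q` H-arcs meet
-/

set_option autoImplicit false

namespace Pool.Agent.CA31

open Finset
open scoped Classical

variable {V : Type} [Fintype V] {M : Model V} {G : SimpleGraph V}

/-- `[u,v]` is the set of positions lying in at least `q` H-arcs, with the facts valid for critical graphs -/
structure Region (M : Model V) (q u v : ℕ) : Prop where
  u_le_v : u ≤ v
  iff : ∀ t, q ≤ (M.H t).card ↔ u ≤ t ∧ t ≤ v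
  card_u : (M.H u).card = q
  card_v : (M.H v).card = q
  hc : ∀ h, M.IsH h → u ≤ M.c h
  ho : ∀ h, M.IsH h → M.o h < v

/-- Let `w = M.A.card`.  `A` is nonempty (otherwise there is no arc at all: `card_H_le`, `h ∈ M.H (M.o h + 1)`; but `G` is not `k`-colourable).
Let `m := max M.c over A + 1` and `m' := min M.o over A`; `m ≤ m'` by `Normal.two`.
(A) if `y ≤ m'` and `(M.H y).card < q` then `M.F 0 y = ∅` (`F_empty`: `M.β 0 y ⊆ M.H y` since every A-arc has `y ≤ m' ≤ M.o a`), i.e. `y ≤ M.c h` for all H-arcs `h`.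
(B) if `m ≤ y` and `(M.H y).card < q` then `M.F y N = ∅` for `N` above all events (`F_empty'`: `M.β' y N ⊆ M.H y`), i.e. `M.o h < y` for all H-arcs.
(C) if `m ≤ y ≤ m'` then `q ≤ (M.H y).card`: otherwise all H-arcs contain `y`, `M.HH = M.H y`, so `Fintype.card V ≤ w + q - 1 = k` (`card_A_add_card_HH`) and `G` is `k`-colourable.
Let `u`, `v` be the smallest and largest `t` with `q ≤ (M.H t).card` (`Nat.find`; for large `t` the set is empty, and `q ≥ 1`); `u ≤ m`, `m' ≤ v`.
Convexity: if `u < t < v` and `(M.H t).card < q`: if `t ≤ m'` then by (A) `M.H u ⊆ M.H t`; if `m ≤ t` then by (B) `M.H v ⊆ M.H t`; contradiction.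
`1 ≤ u` as `M.H 0 = ∅`; `M.H u \ M.H (u-1)` consists of arcs with `M.o = u-1`: at most one, and exactly one since `(M.H (u-1)).card < q ≤ (M.H u).card`; hence
`card_u`; by (A) for `u-1`: `u-1 ≤ M.c h`, and `M.c h ≠ u-1` because event `u-1` is an opening: `hc`.
Similarly `M.H v \ M.H (v+1)` consists of exactly one arc, with `M.c = v`; by (B) for `v+1`: `M.o h ≤ v` and `≠ v`: `ho`.
`a₁` := the A-arc with the largest `M.c`: `u ≤ m = M.c a₁ + 1` and event `u-1` is the opening of an H-arc, so `u ≤ M.c a₁`.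
`a₂` := the A-arc with the smallest `M.o`: `M.o a₂ = m' ≤ v` and event `v` is the closing of an H-arc, so `M.o a₂ < v`. -/
theorem exists_region (hG : M.IsModelOf G) (hM : M.MaxAtZero) (hn : M.Normal) {k q : ℕ} (hc : Crit G k)
    (hq : M.A.card + q = k + 1) (hq1 : 1 ≤ q) :
    ∃ u v, Region M q u v ∧ (∃ a, M.IsA a ∧ u ≤ M.c a) ∧ (∃ a, M.IsA a ∧ M.o a < v) := by
  -- A is nonempty
  have hA : M.A.Nonempty := by
    by_contra hne
    rw [Finset.not_nonempty_iff_eq_empty] at hne
    have hV : ∀ v : V, False := by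
      intro v
      have h1 : M.IsH v := by
        rw [← M.not_isA]
        intro h
        have h2 : v ∈ M.A := Model.mem_A.2 h
        rw [hne] at h2
        exact absurd h2 (Finset.notMem_empty v)
      have h2 := Model.card_H_le hM (M.o v + 1)
      rw [hne, Finset.filter_empty, Finset.card_empty] at h2
      have h3 : v ∈ M.H (M.o v + 1) := by
        rw [Model.mem_H]
        unfold Model.IsH at h1 ⊢
        omega
      have h4 := Finset.card_pos.2 ⟨v, h3⟩
      omega
    exact hc.1 ⟨fun _ => 0, fun v _ => (hV v).elim, fun u _ _ _ _ => (hV u).elim⟩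
  obtain ⟨a₁, ha₁, hmax⟩ := Finset.exists_max_image M.A (fun a => M.c a) hA
  obtain ⟨a₂, ha₂, hmin⟩ := Finset.exists_min_image M.A (fun a => M.o a) hA
  have hA1 : M.IsA a₁ := Model.mem_A.1 ha₁
  have hA2 : M.IsA a₂ := Model.mem_A.1 ha₂
  have hmm : M.c a₁ < M.o a₂ := hn.two a₁ a₂ hA1 hA2
  obtain ⟨N, hN⟩ := M.exists_bound
  -- (A)
  have HA : ∀ y, y ≤ M.o a₂ → (M.H y).card < q → ∀ h, M.IsH h → y ≤ M.c h := by
    intro y hy hcard h hh
    have hsub : M.β 0 y ⊆ M.H y := by
      intro v hv
      rw [mem_β] at hv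
      rw [Model.mem_H]
      obtain ⟨-, h2, h3⟩ := hv
      have h4 : ¬ M.IsA v := by
        intro h4
        have := hmin v (Model.mem_A.2 h4)
        omega
      refine ⟨M.not_isA.1 h4, h2, ?_⟩
      rcases h3 with h3 | h3
      · exact absurd h3 h4
      · exact h3
    have h1 := Finset.card_le_card hsub
    have h2 := F_empty hG hM hc (a := 0) (b := y) (by omega)
    by_contra h3
    have h4 : h ∈ M.F 0 y := mem_F.2 ⟨hh, Nat.zero_le _, by omega⟩
    rw [h2] at h4
    exact absurd h4 (Finset.notMem_empty h)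
  -- (B)
  have HB : ∀ y, M.c a₁ < y → (M.H y).card < q → ∀ h, M.IsH h → M.o h < y := by
    intro y hy hcard h hh
    have hsub : M.β' y N ⊆ M.H y := by
      intro v hv
      rw [mem_β'] at hv
      rw [Model.mem_H]
      obtain ⟨h1, h2, h3⟩ := hv
      have h4 : ¬ M.IsA v := by
        intro h4
        have := hmax v (Model.mem_A.2 h4)
        omega
      refine ⟨M.not_isA.1 h4, ?_, h1⟩
      rcases h3 with h3 | h3
      · exact absurd h3 h4
      · exact h3
    have h1 := Finset.card_le_card hsub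
    have h2 := F_empty' hG hM hc (a := y) (b := N) (by omega)
    by_contra h3
    have h4 : h ∈ M.F y N := mem_F.2 ⟨hh, by omega, (hN h).2⟩
    rw [h2] at h4
    exact absurd h4 (Finset.notMem_empty h)
  -- (C)
  have HC : ∀ y, M.c a₁ < y → y ≤ M.o a₂ → q ≤ (M.H y).card := by
    intro y h1 h2
    by_contra h3
    push Not at h3
    have h4 : M.HH ⊆ M.H y := by
      intro h hh
      rw [Model.mem_HH] at hh
      rw [Model.mem_H]
      exact ⟨hh, HB y h1 h3 h hh, HA y h2 h3 h hh⟩
    have h5 := Finset.card_le_card h4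
    have h6 := Model.card_A_add_card_HH (M := M)
    refine hc.1 ⟨fun v => (Fintype.equivFin V v : ℕ), fun v _ => ?_, fun u _ v _ huv he => ?_⟩
    · have := (Fintype.equivFin V v).2
      show ((Fintype.equivFin V v : Fin (Fintype.card V)) : ℕ) < k
      omega
    · exact huv.ne ((Fintype.equivFin V).injective (Fin.ext he))
  have hbig : ∀ t, N ≤ t → (M.H t).card < q := by
    intro t ht
    have : M.H t = ∅ := by
      rw [Finset.eq_empty_iff_forall_notMem]
      intro v hv
      rw [Model.mem_H] at hv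
      have := (hN v).2
      omega
    rw [this, Finset.card_empty]
    omega
  have hzero : (M.H 0).card < q := by
    have : M.H 0 = ∅ := by
      rw [Finset.eq_empty_iff_forall_notMem]
      intro v hv
      rw [Model.mem_H] at hv
      omega
    rw [this, Finset.card_empty]
    omega
  have hPm : q ≤ (M.H (M.c a₁ + 1)).card := HC _ (by omega) (by omega)
  have hPm' : q ≤ (M.H (M.o a₂)).card := HC _ hmm le_rfl
  have hex : ∃ t, q ≤ (M.H t).card := ⟨_, hPm⟩
  -- the smallest position
  obtain ⟨u, hu, humin⟩ : ∃ u, q ≤ (M.H u).card ∧ ∀ t, q ≤ (M.H t).card → u ≤ t :=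
    ⟨Nat.find hex, Nat.find_spec hex, fun t ht => Nat.find_min' hex ht⟩
  obtain ⟨v, hv, hvmax⟩ : ∃ v, q ≤ (M.H v).card ∧ ∀ t, q ≤ (M.H t).card → t ≤ v := by
    have hlt : ∀ t, q ≤ (M.H t).card → t ≤ N := by
      intro t ht
      by_contra h
      have := hbig t (by omega)
      omega
    refine ⟨Nat.findGreatest (fun t => q ≤ (M.H t).card) N,
      Nat.findGreatest_spec (P := fun t => q ≤ (M.H t).card) (hlt _ hPm) hPm, fun t ht => ?_⟩
    exact Nat.le_findGreatest (hlt t ht) ht
  have hum : u ≤ M.c a₁ + 1 := humin _ hPm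
  have hmv : M.o a₂ ≤ v := hvmax _ hPm'
  have hu1 : 1 ≤ u := by
    by_contra h
    have : u = 0 := by omega
    rw [this] at hu
    omega
  -- the arc opening at event u - 1
  have hu' : (M.H (u - 1)).card < q := by
    by_contra h
    have := humin (u - 1) (by omega)
    omega
  obtain ⟨h₀, h₀u, h₀u'⟩ := Finset.exists_mem_notMem_of_card_lt_card (lt_of_lt_of_le hu' hu)
  have ho0 : ∀ h, h ∈ M.H u → h ∉ M.H (u - 1) → M.o h = u - 1 := by
    intro h h1 h2
    rw [Model.mem_H] at h1 h2
    by_contra h3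
    exact h2 ⟨h1.1, by omega, by omega⟩
  have hoh0 := ho0 h₀ h₀u h₀u'
  have hcu : (M.H u).card = q := by
    have h1 : M.H u ⊆ insert h₀ (M.H (u - 1)) := by
      intro h hh
      rw [Finset.mem_insert]
      by_cases h2 : h ∈ M.H (u - 1)
      · exact Or.inr h2
      · left
        exact M.o_inj ((ho0 h hh h2).trans hoh0.symm)
    have h2 := Finset.card_le_card h1
    have h3 := Finset.card_insert_le h₀ (M.H (u - 1))
    omega
  -- the arc closing at event v
  have hv' : (M.H (v + 1)).card < q := by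
    by_contra h
    have := hvmax (v + 1) (by omega)
    omega
  obtain ⟨h₁, h₁v, h₁v'⟩ := Finset.exists_mem_notMem_of_card_lt_card (lt_of_lt_of_le hv' hv)
  have hc1 : ∀ h, h ∈ M.H v → h ∉ M.H (v + 1) → M.c h = v := by
    intro h h1 h2
    rw [Model.mem_H] at h1 h2
    by_contra h3
    exact h2 ⟨h1.1, by omega, by omega⟩
  have hch1 := hc1 h₁ h₁v h₁v'
  have hcv : (M.H v).card = q := by
    have h1 : M.H v ⊆ insert h₁ (M.H (v + 1)) := by
      intro h hh
      rw [Finset.mem_insert]
      by_cases h2 : h ∈ M.H (v + 1)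
      · exact Or.inr h2
      · left
        exact M.c_inj ((hc1 h hh h2).trans hch1.symm)
    have h2 := Finset.card_le_card h1
    have h3 := Finset.card_insert_le h₁ (M.H (v + 1))
    omega
  refine ⟨u, v, ⟨humin v hv, ?_, hcu, hcv, ?_, ?_⟩, ⟨a₁, hA1, ?_⟩, ⟨a₂, hA2, ?_⟩⟩
  · intro t
    constructor
    · intro h
      exact ⟨humin t h, hvmax t h⟩
    · rintro ⟨h1, h2⟩
      by_contra h3
      push Not at h3
      by_cases h4 : t ≤ M.o a₂
      · have h5 := HA t h4 h3
        have h6 : M.H u ⊆ M.H t := by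
          intro h hh
          rw [Model.mem_H] at hh ⊢
          exact ⟨hh.1, by omega, h5 h hh.1⟩
        have := Finset.card_le_card h6
        omega
      · have h5 := HB t (by omega) h3
        have h6 : M.H v ⊆ M.H t := by
          intro h hh
          rw [Model.mem_H] at hh ⊢
          exact ⟨hh.1, h5 h hh.1, by omega⟩
        have := Finset.card_le_card h6
        omega
  · intro h hh
    have h1 := HA (u - 1) (by omega) hu' h hh
    have h2 := M.o_ne_c h₀ h
    omega
  · intro h hh
    have h1 := HB (v + 1) (by omega) hv' h hh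
    have h2 := M.o_ne_c h h₁
    omega
  · have h2 := M.o_ne_c h₀ a₁
    omega
  · have h2 := M.o_ne_c a₂ h₁
    omega

end Pool.Agent.CA31
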